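import Mathlib
import Pool.Agent.Helper635.LLL

set_option autoImplicit false

/-! Proper halving two-colourings by pairing the vertices and the local lemma. -/

namespace Pool.Agent.W606.Halving

open Finset
open Pool.Agent.Helper635.LLL

/-- the pair of a vertex -/
def pr {N : ℕ} (i : Fin N) : Fin N := ⟨i.val / 2, lt_of_le_of_lt (Nat.div_le_self _ _) i.isLt⟩

/-- the colour of a vertex, given one bit for every pair -/
def Red {N : ℕ} (ω : Fin N → Bool) (i : Fin N) : Prop := (ω (pr i) = true ↔ i.val % 2 = 0)

instance {N : ℕ} (ω : Fin N → Bool) : DecidablePred (Red ω) := fun _ => by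
  unfold Red; infer_instance

lemma card_agree {N : ℕ} (S : Finset (Fin N)) (g : Fin N → Bool) :
    (univ.filter (fun ω : Fin N → Bool => ∀ t ∈ S, ω t = g t)).card = 2 ^ (N - S.card) := by
  classical
  have h1 : (univ.filter (fun ω : Fin N → Bool => ∀ t ∈ S, ω t = g t)) =
      Fintype.piFinset (fun t => if t ∈ S then {g t} else (univ : Finset Bool)) := by
    ext ω
    simp only [mem_filter, mem_univ, true_and, Fintype.mem_piFinset]
    constructor
    · intro h t
      by_cases ht : t ∈ S
      · simp [ht, h t ht]
      · simp [ht]
    · intro h t ht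
      have := h t
      simpa [ht] using this
  rw [h1, Fintype.card_piFinset]
  have h2 : ∀ t : Fin N, (if t ∈ S then ({g t} : Finset Bool) else univ).card =
      if t ∈ S then 1 else 2 := by
    intro t
    by_cases ht : t ∈ S <;> simp [ht]
  rw [prod_congr rfl (fun t _ => h2 t), prod_ite]
  simp only [prod_const_one, one_mul, prod_const]
  congr 1
  have h3 : (univ.filter (fun t : Fin N => ¬ t ∈ S)) = univ \ S := by
    ext t; simp
  rw [h3, card_sdiff_of_subset (subset_univ _), card_univ, Fintype.card_fin]

/-- the number of bit vectors for which all vertices of `A` are red (`b = true`) or all are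
not red (`b = false`) -/
lemma card_mono {N n : ℕ} (A : Finset (Fin N)) (hA : A.card = n) (b : Bool) :
    (univ.filter (fun ω : Fin N → Bool => ∀ i ∈ A, (Red ω i ↔ b = true))).card ≤ 2 ^ (N - n) := by
  classical
  by_cases hinj : ∀ i ∈ A, ∀ j ∈ A, pr i = pr j → i = j
  · -- distinct pairs
    have hS : (A.image pr).card = n := by
      rw [card_image_of_injOn, hA]
      intro i hi j hj h
      exact hinj i hi j hj h
    -- the forced values
    let g : Fin N → Bool := fun t =>
      if h : ∃ i ∈ A, pr i = t then (if (h.choose.val % 2 = 0) then b else !b) else true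
    rw [← hS, ← card_agree (A.image pr) g]
    apply card_le_card
    intro ω hω
    rw [mem_filter] at hω ⊢
    refine ⟨mem_univ _, ?_⟩
    intro t ht
    rw [mem_image] at ht
    have hex : ∃ i ∈ A, pr i = t := ht
    have hg : g t = if (hex.choose.val % 2 = 0) then b else !b := by
      simp only [g]
      rw [dif_pos hex]
    have h1 := hω.2 hex.choose hex.choose_spec.1
    have h2 : pr hex.choose = t := hex.choose_spec.2
    rw [hg]
    unfold Red at h1
    rw [h2] at h1
    by_cases hpar : hex.choose.val % 2 = 0
    · simp only [hpar, if_true, iff_true] at h1 ⊢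
      cases hb : b <;> cases hw : ω t <;> simp_all
    · simp only [hpar, if_false, iff_false] at h1 ⊢
      cases hb : b <;> cases hw : ω t <;> simp_all
  · -- two vertices in one pair
    push Not at hinj
    obtain ⟨i, hi, j, hj, hpr, hne⟩ := hinj
    have : (univ.filter (fun ω : Fin N → Bool => ∀ i ∈ A, (Red ω i ↔ b = true))) = ∅ := by
      rw [filter_eq_empty_iff]
      intro ω _ h
      have h1 := h i hi
      have h2 := h j hj
      have h3 : Red ω i ↔ Red ω j := h1.trans h2.symm
      unfold Red at h3
      rw [hpr] at h3
      have h4 : i.val / 2 = j.val / 2 := by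
        have := congrArg Fin.val hpr
        simpa [pr] using this
      have h5 : i.val ≠ j.val := fun h => hne (Fin.ext h)
      have h6 : (i.val % 2 = 0) ↔ ¬ (j.val % 2 = 0) := by omega
      by_cases hw : ω (pr j) = true
      · simp only [hw, true_iff] at h3
        tauto
      · simp only [hw] at h3
        tauto
    rw [this]
    simp

/-- counting the red vertices below `2 m` -/
lemma red_count {N : ℕ} (ω : Fin N → Bool) :
    ∀ m : ℕ, 2 * m ≤ N → (univ.filter (fun i : Fin N => i.val < 2 * m ∧ Red ω i)).card = m := by
  classical
  intro m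
  induction m with
  | zero => intro _; simp
  | succ m ih =>
    intro hm
    have ihm := ih (by omega)
    -- the red vertex in the pair number `m`
    let t : Fin N := ⟨m, by omega⟩
    let a : Fin N := ⟨2 * m, by omega⟩
    let b : Fin N := ⟨2 * m + 1, by omega⟩
    have hpa : pr a = t := by
      apply Fin.ext; simp [pr, a, t]
    have hpb : pr b = t := by
      apply Fin.ext; simp only [pr, b, t]; omega
    have hRa : Red ω a ↔ ω t = true := by
      unfold Red; rw [hpa]; simp [a]
    have hRb : Red ω b ↔ ¬ (ω t = true) := by
      unfold Red; rw [hpb]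
      have : ¬ ((2 * m + 1) % 2 = 0) := by omega
      simp only [b, this, iff_false]
    let x : Fin N := if ω t = true then a else b
    have hx : Red ω x := by
      by_cases h : ω t = true
      · simp only [x, h, if_true]; exact hRa.mpr h
      · simp only [x, h]; exact hRb.mpr h
    have hsplit : (univ.filter (fun i : Fin N => i.val < 2 * (m + 1) ∧ Red ω i)) =
        insert x (univ.filter (fun i : Fin N => i.val < 2 * m ∧ Red ω i)) := by
      ext i
      simp only [mem_filter, mem_univ, true_and, mem_insert]
      constructor
      · rintro ⟨h1, h2⟩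
        by_cases h3 : i.val < 2 * m
        · exact Or.inr ⟨h3, h2⟩
        · left
          have h4 : i = a ∨ i = b := by
            have : i.val = 2 * m ∨ i.val = 2 * m + 1 := by omega
            rcases this with h | h
            · left; exact Fin.ext h
            · right; exact Fin.ext h
          rcases h4 with h | h
          · rw [h] at h2 ⊢
            have := hRa.mp h2
            simp [x, this]
          · rw [h] at h2 ⊢
            have := hRb.mp h2
            simp [x, this]
      · rintro (h | ⟨h1, h2⟩)
        · rw [h]
          refine ⟨?_, hx⟩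
          by_cases h : ω t = true
          · simp only [x, h, if_true, a]; omega
          · simp only [x, h, b]
            simp
            omega
        · exact ⟨by omega, h2⟩
    rw [hsplit, card_insert_of_notMem, ihm]
    simp only [mem_filter, mem_univ, true_and, not_and]
    intro h
    exfalso
    by_cases h' : ω t = true
    · simp only [x, h', if_true, a] at h; omega
    · simp [x, h', b] at h

set_option maxHeartbeats 1000000 in
/-- the main finite statement -/
theorem core (N n D : ℕ) (F : Finset (Finset (Fin N))) (hn : ∀ A ∈ F, A.card = n)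
    (hdeg : ∀ v, (F.filter (fun A => v ∈ A)).card ≤ D)
    (hbig : 8 * (2 * n * D + 1) ≤ 2 ^ n) :
    ∃ R : Finset (Fin N), R.card = N / 2 ∧ ∀ A ∈ F, (A ∩ R).Nonempty ∧ ¬ A ⊆ R := by
  classical
  -- bad events
  let B : Finset (Fin N) → (Fin N → Bool) → Prop := fun A ω =>
    (∀ i ∈ A, (Red ω i ↔ true = true)) ∨ (∀ i ∈ A, (Red ω i ↔ false = true))
  let S : Finset (Fin N) → Finset (Fin N) := fun A => A.image pr
  have hdep : ∀ A ∈ F, Pool.Agent.Helper635.LLL.DependsOn (B A) (S A) := by
    intro A _ ω ω' hag hB
    have hred : ∀ i ∈ A, (Red ω i ↔ Red ω' i) := by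
      intro i hi
      unfold Red
      rw [hag (pr i) (mem_image_of_mem pr hi)]
    rcases hB with h | h
    · left; intro i hi; rw [← hred i hi]; exact h i hi
    · right; intro i hi; rw [← hred i hi]; exact h i hi
  have hF : ∀ A ∈ F, n ≤ N := by
    intro A hA
    rw [← hn A hA]
    calc A.card ≤ (univ : Finset (Fin N)).card := card_le_card (subset_univ _)
      _ = N := by simp
  have hprob : ∀ A ∈ F, (cnt (B A) : ℝ) ≤ (2 / 2 ^ n) * Fintype.card (Fin N → Bool) := by
    intro A hA
    have hle : cnt (B A) ≤ 2 ^ (N - n) + 2 ^ (N - n) := by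
      have h1 := card_mono A (hn A hA) true
      have h2 := card_mono A (hn A hA) false
      refine le_trans ?_ (add_le_add h1 h2)
      refine le_trans (card_le_card ?_) (card_union_le _ _)
      intro ω hω
      rw [mem_ev] at hω
      rw [mem_union, mem_filter, mem_filter]
      rcases hω with h | h
      · left; exact ⟨mem_univ _, h⟩
      · right; exact ⟨mem_univ _, h⟩
    have hcard : (Fintype.card (Fin N → Bool) : ℝ) = 2 ^ N := by
      simp
    rw [hcard]
    have hN := hF A hA
    have hpow : (2 : ℝ) ^ N = 2 ^ n * 2 ^ (N - n) := by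
      rw [← pow_add]; congr 1; omega
    have : (cnt (B A) : ℝ) ≤ 2 ^ (N - n) + 2 ^ (N - n) := by exact_mod_cast hle
    rw [hpow]
    have h2n : (0 : ℝ) < 2 ^ n := by positivity
    calc (cnt (B A) : ℝ) ≤ 2 ^ (N - n) + 2 ^ (N - n) := this
      _ = 2 / 2 ^ n * (2 ^ n * 2 ^ (N - n)) := by field_simp; ring
  have hnb : ∀ A ∈ F, (F.filter (fun A' => ¬ Disjoint (S A) (S A'))).card ≤ 2 * n * D + 1 := by
    intro A hA
    let W : Fin N → Finset (Fin N) := fun v => univ.filter (fun v' => pr v' = pr v)
    have hW : ∀ v, (W v).card ≤ 2 := by
      intro v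
      have : W v ⊆ (univ.filter (fun v' : Fin N => v'.val = 2 * (v.val / 2))) ∪
          (univ.filter (fun v' : Fin N => v'.val = 2 * (v.val / 2) + 1)) := by
        intro v' hv'
        rw [mem_filter] at hv'
        have h1 : v'.val / 2 = v.val / 2 := by
          have := congrArg Fin.val hv'.2
          simpa [pr] using this
        rw [mem_union, mem_filter, mem_filter]
        have : v'.val = 2 * (v.val / 2) ∨ v'.val = 2 * (v.val / 2) + 1 := by omega
        rcases this with h | h
        · left; exact ⟨mem_univ _, h⟩
        · right; exact ⟨mem_univ _, h⟩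
      refine le_trans (card_le_card this) (le_trans (card_union_le _ _) ?_)
      have h1 : ∀ k : ℕ, (univ.filter (fun v' : Fin N => v'.val = k)).card ≤ 1 := by
        intro k
        rw [card_le_one]
        intro a ha b hb
        rw [mem_filter] at ha hb
        exact Fin.ext (ha.2.trans hb.2.symm)
      have := h1 (2 * (v.val / 2))
      have := h1 (2 * (v.val / 2) + 1)
      omega
    have hsub : F.filter (fun A' => ¬ Disjoint (S A) (S A')) ⊆
        (A.biUnion W).biUnion (fun v' => F.filter (fun A' => v' ∈ A')) := by
      intro A' hA'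
      rw [mem_filter, not_disjoint_iff] at hA'
      obtain ⟨hA'F, t, ht1, ht2⟩ := hA'
      rw [mem_image] at ht1 ht2
      obtain ⟨v, hv, hvt⟩ := ht1
      obtain ⟨v', hv', hvt'⟩ := ht2
      rw [mem_biUnion]
      refine ⟨v', ?_, ?_⟩
      · rw [mem_biUnion]
        refine ⟨v, hv, ?_⟩
        rw [mem_filter]
        exact ⟨mem_univ _, hvt'.trans hvt.symm⟩
      · rw [mem_filter]; exact ⟨hA'F, hv'⟩
    have h1 : (A.biUnion W).card ≤ 2 * n := by
      refine le_trans card_biUnion_le ?_
      refine le_trans (sum_le_sum (fun v _ => hW v)) ?_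
      rw [sum_const, hn A hA, smul_eq_mul]
      omega
    refine le_trans (card_le_card hsub) ?_
    refine le_trans card_biUnion_le ?_
    refine le_trans (sum_le_sum (fun v _ => hdeg v)) ?_
    rw [sum_const, smul_eq_mul]
    have := Nat.mul_le_mul_right D h1
    omega
  have h4 : (4 : ℝ) * (2 / 2 ^ n) * ((2 * n * D + 1 : ℕ) : ℝ) ≤ 1 := by
    have h2n : (0 : ℝ) < 2 ^ n := by positivity
    have hb : ((8 * (2 * n * D + 1) : ℕ) : ℝ) ≤ ((2 ^ n : ℕ) : ℝ) := by exact_mod_cast hbig
    push_cast at hb ⊢
    have : (4 : ℝ) * (2 / 2 ^ n) * (2 * n * D + 1) = (8 * (2 * n * D + 1)) / 2 ^ n := by ring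
    rw [this, div_le_one h2n]
    exact hb
  obtain ⟨ω, hω⟩ := lll F B S hdep (2 / 2 ^ n) (2 * n * D + 1) (by positivity)
    (by intro A hA; convert hprob A hA) (by intro A hA; convert hnb A hA) h4 (by omega)
    (by
      have h0 : 0 < Fintype.card (Fin N → Bool) := Fintype.card_pos
      convert h0)
  -- the colouring
  have hmono : ∀ A ∈ F, (∃ i ∈ A, Red ω i) ∧ (∃ i ∈ A, ¬ Red ω i) := by
    intro A hA
    have h := hω A hA
    simp only [B, not_or] at h
    obtain ⟨h1, h2⟩ := h
    push Not at h1 h2
    constructor
    · obtain ⟨i, hi, h⟩ := h2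
      refine ⟨i, hi, ?_⟩
      rcases h with ⟨h, _⟩ | ⟨_, h⟩
      · exact h
      · simp at h
    · obtain ⟨i, hi, h⟩ := h1
      refine ⟨i, hi, ?_⟩
      rcases h with ⟨_, h⟩ | ⟨h, _⟩
      · simp at h
      · exact h
  let R : Finset (Fin N) := univ.filter (fun i => Red ω i)
  have hR1 := red_count ω (N / 2) (by omega)
  have hcase : R.card = N / 2 ∨ (univ \ R).card = N / 2 := by
    by_cases hpar : N % 2 = 0
    · left
      rw [← hR1]
      congr 1
      ext i
      simp only [R, mem_filter, mem_univ, true_and]
      have := i.isLt
      constructor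
      · intro h; exact ⟨by omega, h⟩
      · intro h; exact h.2
    · -- odd number of vertices
      let z : Fin N := ⟨N - 1, by omega⟩
      have hz : z.val = 2 * (N / 2) := by simp only [z]; omega
      by_cases hRz : Red ω z
      · right
        have hR2 : R = insert z (univ.filter (fun i : Fin N => i.val < 2 * (N / 2) ∧ Red ω i)) := by
          ext i
          simp only [R, mem_filter, mem_univ, true_and, mem_insert]
          constructor
          · intro h
            by_cases hi : i.val < 2 * (N / 2)
            · exact Or.inr ⟨hi, h⟩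
            · left
              apply Fin.ext
              have := i.isLt
              omega
          · rintro (h | h)
            · rw [h]; exact hRz
            · exact h.2
        have hR3 : R.card = N / 2 + 1 := by
          rw [hR2, card_insert_of_notMem, hR1]
          simp only [mem_filter, mem_univ, true_and, not_and]
          intro h; omega
        rw [card_sdiff_of_subset (subset_univ _), card_univ, Fintype.card_fin, hR3]
        omega
      · left
        rw [← hR1]
        congr 1
        ext i
        simp only [R, mem_filter, mem_univ, true_and]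
        constructor
        · intro h
          refine ⟨?_, h⟩
          by_contra hi
          apply hRz
          have : i = z := by
            apply Fin.ext
            have := i.isLt
            omega
          rw [← this]; exact h
        · intro h; exact h.2
  rcases hcase with h | h
  · refine ⟨R, h, ?_⟩
    intro A hA
    obtain ⟨⟨i, hi, h1⟩, ⟨j, hj, h2⟩⟩ := hmono A hA
    refine ⟨⟨i, ?_⟩, ?_⟩
    · rw [mem_inter]; exact ⟨hi, by simp only [R, mem_filter, mem_univ, true_and]; exact h1⟩
    · intro hsub
      have := hsub hj
      simp only [R, mem_filter, mem_univ, true_and] at this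
      exact h2 this
  · refine ⟨univ \ R, h, ?_⟩
    intro A hA
    obtain ⟨⟨i, hi, h1⟩, ⟨j, hj, h2⟩⟩ := hmono A hA
    refine ⟨⟨j, ?_⟩, ?_⟩
    · rw [mem_inter]
      refine ⟨hj, ?_⟩
      rw [mem_sdiff]
      refine ⟨mem_univ _, ?_⟩
      simp only [R, mem_filter, mem_univ, true_and]; exact h2
    · intro hsub
      have := hsub hi
      rw [mem_sdiff] at this
      apply this.2
      simp only [R, mem_filter, mem_univ, true_and]; exact h1

end Pool.Agent.W606.Halving
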