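import Pool.Agent.W606.Eternal

set_option autoImplicit false
set_option synthInstance.maxSize 2000

namespace Pool.Agent.W606.Eternal

theorem three (x : V) : x + x + x = 0 := by
  have h : ∀ t : ZMod 3, t + t + t = 0 := by decide
  obtain ⟨a, b, c, d, e⟩ := x
  simp [h]

theorem cover (v : V) (hv : v ≠ 0) : ∃ a ∈ S, ∃ b ∈ S, v = a + b := by
  obtain ⟨a, ha, h⟩ := S_cover v hv
  exact ⟨a, ha, v - a, (mem_iff _).2 h, by abel⟩

/-! ### no proper 3-colouring -/

theorem latin : ∀ a b c d e f : ZMod 3, a ≠ b → b ≠ c → a ≠ c → d ≠ e → e ≠ f → d ≠ f →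
    a ≠ d → b ≠ e → c ≠ f → e - d = b - a := by decide

theorem not_col (f : V → ZMod 3) (hf : ∀ x, ∀ s ∈ S, f (x + s) ≠ f x) : False := by
  have s1 : ∀ x, ∀ h ∈ S, ∀ k ∈ S, f (x + k + h) - f (x + k) = f (x + h) - f x := by
    intro x h hh k hk
    have e2 : ∀ y : V, y + h + h = y + -h := by
      intro y
      have := three h
      have h3 : h + h = -h := by
        rw [eq_neg_iff_add_eq_zero]; exact this
      rw [add_assoc, h3]
    refine latin (f x) (f (x + h)) (f (x + h + h)) (f (x + k)) (f (x + k + h)) (f (x + k + h + h))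
      (hf x h hh).symm (hf _ h hh).symm ?_ (hf _ h hh).symm (hf _ h hh).symm ?_
      (hf x k hk).symm ?_ ?_
    · rw [e2]; exact (hf x _ (S_neg h hh)).symm
    · rw [e2]; exact (hf _ _ (S_neg h hh)).symm
    · rw [show x + k + h = (x + h) + k by abel]; exact (hf _ k hk).symm
    · rw [show x + k + h + h = (x + h + h) + k by abel]; exact (hf _ k hk).symm
  have s2 : ∀ v, ∀ h ∈ S, f (v + h) = f v + (f h - f 0) := by
    intro v h hh
    by_cases hv : v = 0
    · subst hv; simp
    · obtain ⟨a, ha, b, hb, rfl⟩ := cover v hv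
      have e1 := s1 a h hh b hb
      have e2 := s1 0 h hh a ha
      simp only [zero_add] at e2
      have : f (a + b + h) - f (a + b) = f h - f 0 := by rw [e1, e2]
      rw [← this]; abel
  have s3 : ∀ v w, f (v + w) - f 0 = (f v - f 0) + (f w - f 0) := by
    intro v w
    by_cases hw : w = 0
    · subst hw; simp
    · obtain ⟨a, ha, b, hb, rfl⟩ := cover w hw
      rw [← add_assoc, s2 (v + a) b hb, s2 v a ha, s2 a b hb]
      abel
  let φ : V →+ ZMod 3 :=
    { toFun := fun w => f w - f 0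
      map_zero' := by simp
      map_add' := s3 }
  have hφ : ∀ w, φ w = f w - f 0 := fun w => rfl
  have hsm : ∀ (t : ZMod 3) (w : V), φ (t • w) = t * φ w := by
    intro t w
    have : t = 0 ∨ t = 1 ∨ t = 2 := by revert t; decide
    rcases this with rfl | rfl | rfl
    · simp
    · simp
    · rw [two_smul, map_add, two_mul]
  obtain ⟨a, ha, h0⟩ := S_func (φ (1,0,0,0,0), φ (0,1,0,0,0), φ (0,0,1,0,0), φ (0,0,0,1,0),
    φ (0,0,0,0,1))
  apply hf 0 a ha
  have : φ a = 0 := by
    have ea : a = a.1 • ((1,0,0,0,0) : V) + a.2.1 • ((0,1,0,0,0) : V) + a.2.2.1 • ((0,0,1,0,0) : V)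
        + a.2.2.2.1 • ((0,0,0,1,0) : V) + a.2.2.2.2 • ((0,0,0,0,1) : V) := by
      obtain ⟨a1, a2, a3, a4, a5⟩ := a
      simp
    rw [ea]
    simp only [map_add, hsm]
    linear_combination h0
  rw [hφ] at this
  rw [zero_add]
  exact sub_eq_zero.1 this

/-! ### common neighbours -/

theorem common (x y : V) : ∃ z, z - x ∈ S ∧ z - y ∈ S := by
  by_cases h : y - x = 0
  · have : y = x := sub_eq_zero.1 h
    subst this
    have h1 : ((1,0,0,0,0) : V) ∈ S := by decide +kernel
    exact ⟨y + (1,0,0,0,0), by simpa using h1, by simpa using h1⟩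
  · obtain ⟨a, ha, b, hb, e⟩ := cover _ h
    refine ⟨x + a, by simpa using ha, ?_⟩
    have : x + a - y = -b := by
      have : y = x + (a + b) := by rw [← e]; abel
      rw [this]; abel
    rw [this]; exact S_neg b hb

/-- `x, y, z` have a common neighbour -/
def C (x y z : V) : Prop := ∃ t, t - x ∈ S ∧ t - y ∈ S ∧ t - z ∈ S

theorem C_perm1 {x y z : V} (h : C x y z) : C y x z := by
  obtain ⟨t, a, b, c⟩ := h; exact ⟨t, b, a, c⟩

theorem C_perm2 {x y z : V} (h : C x y z) : C x z y := by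
  obtain ⟨t, a, b, c⟩ := h; exact ⟨t, a, c, b⟩

theorem C_perm3 {x y z : V} (h : C x y z) : C z y x := by
  obtain ⟨t, a, b, c⟩ := h; exact ⟨t, c, b, a⟩

/-- third point of a line -/
theorem third {x w t : V} (h1 : w - x ∈ S) (h2 : t - x ∈ S) (h3 : t - w ∈ S) :
    t = -(x + w) := by
  have e : t - x - (w - x) ∈ S := by simpa using h3
  have := S_one _ h2 _ h1 e
  -- w - x = -(t - x)
  have h : t = x + x - w := by
    have h4 : t - x = -(w - x) := by rw [this]; simp
    have : t = x + (t - x) := by abel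
    rw [this, h4]; abel
  rw [h]
  have h3 := three x
  have : x + x = -x := by rw [eq_neg_iff_add_eq_zero]; exact h3
  rw [this]; abel

theorem two_case {x u w : V} (hxu : x ≠ u) (a : w - x ∈ S) (b : w - u ∈ S)
    (h : C x u w) : False := by
  obtain ⟨t, t1, t2, t3⟩ := h
  have e1 := third a t1 t3
  have e2 := third b t2 t3
  apply hxu
  have : x + w = u + w := by
    have := e1.symm.trans e2
    exact neg_injective this
  exact add_right_cancel this

theorem one_case {x u v w : V} (a : w - x ∈ S) (h2 : C x w v) (h3 : C x u w) : C x u v := by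
  obtain ⟨t, t1, t2, t3⟩ := h2
  obtain ⟨r, r1, r2, r3⟩ := h3
  have e1 := third a t1 t2
  have e2 := third a r1 r3
  have : t = r := by rw [e1, e2]
  subst this
  exact ⟨t, t1, r2, t3⟩

theorem none_aux {v w p q : V} (hvw : w ≠ v) (hpq : p ≠ q) (p1 : p - w ∈ S) (p2 : p - v ∈ S)
    (q1 : q - w ∈ S) (q2 : q - v ∈ S) : v = p + (q - w) := by
  have hp2 : v - p ∈ S := by have := S_neg _ p2; simpa using this
  have hq2 : v - q ∈ S := by have := S_neg _ q2; simpa using this
  have e : (p - w) + (v - p) - (q - w) ∈ S := by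
    have : (p - w) + (v - p) - (q - w) = v - q := by abel
    rw [this]; exact hq2
  rcases S_two _ p1 _ hp2 _ q1 e with h | h | h
  · exact absurd (sub_left_injective h) hpq
  · rw [← h]; abel
  · exfalso; apply hvw
    have : v - w = 0 := by rw [← h]; abel
    exact (sub_eq_zero.1 this).symm

theorem none_case {x u v w : V} (hwx : w ≠ x) (hwu : w ≠ u) (hwv : w ≠ v)
    (h1 : C w u v) (h2 : C x w v) (h3 : C x u w) : C x u v := by
  obtain ⟨p, p1, p2, p3⟩ := h1
  obtain ⟨q, q1, q2, q3⟩ := h2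
  obtain ⟨r, r1, r2, r3⟩ := h3
  by_cases hpq : p = q
  · subst hpq; exact ⟨p, q1, p2, p3⟩
  by_cases hpr : p = r
  · subst hpr; exact ⟨p, r1, p2, p3⟩
  by_cases hqr : q = r
  · subst hqr; exact ⟨q, q1, r2, q3⟩
  have ev := none_aux hwv hpq p1 p3 q2 q3
  have eu := none_aux hwu hpr p1 p2 r3 r2
  have ex := none_aux hwx hqr q2 q1 r3 r1
  refine ⟨p + (q - w) + (r - w), ?_, ?_, ?_⟩
  · rw [ex]
    have : p + (q - w) + (r - w) - (q + (r - w)) = p - w := by abel
    rw [this]; exact p1
  · rw [eu]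
    have : p + (q - w) + (r - w) - (p + (r - w)) = q - w := by abel
    rw [this]; exact q2
  · rw [ev]
    have : p + (q - w) + (r - w) - (p + (q - w)) = r - w := by abel
    rw [this]; exact r3

theorem close {x u v w : V} (hxu : x ≠ u) (hxv : x ≠ v) (huv : u ≠ v)
    (hwx : w ≠ x) (hwu : w ≠ u) (hwv : w ≠ v) (hC : ¬ C x u v) :
    (w - x ∉ S ∧ ¬ C w u v) ∨ (w - u ∉ S ∧ ¬ C x w v) ∨ (w - v ∉ S ∧ ¬ C x u w) := by
  by_contra hcon
  push Not at hcon
  obtain ⟨h1, h2, h3⟩ := hcon
  apply hC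
  by_cases a : w - x ∈ S <;> by_cases b : w - u ∈ S <;> by_cases c : w - v ∈ S
  · exact ⟨w, a, b, c⟩
  · exact (two_case hxu a b (h3 c)).elim
  · exact (two_case hxv a c (C_perm2 (h2 b))).elim
  · exact one_case a (h2 b) (h3 c)
  · exact (two_case huv b c (C_perm2 (C_perm1 (h1 a)))).elim
  · exact C_perm1 (one_case (x := u) (u := x) (v := v) b (C_perm1 (h1 a)) (C_perm1 (h3 c)))
  · exact C_perm3 (one_case (x := v) (u := u) (v := x) c (C_perm3 (h2 b)) (C_perm3 (h1 a)))
  · exact none_case hwx hwu hwv (h1 a) (h2 b) (h3 c)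

end Pool.Agent.W606.Eternal
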