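import Pool.Agent.W606.FSReach

set_option autoImplicit false

/-!
# The diameter of components of friends-and-strangers graphs is not `e^{O(n)}`
-/

namespace Pool.Agent.W606.FSM

open Equiv

section final

variable {b B : ℕ} (W : Words b B) {m : ℕ}

/-- The initial state. -/
theorem rep_init (hB : 1 ≤ B) : repF W m (1 : Perm (ZMod (tapeL b m))) ⟨0, 0, fun _ => 0⟩ := by
  refine ⟨rfl, fun _ => hB, ?_⟩
  intro i hi
  show tyF W m ((0 : ZMod (tapeL b m)) + 1 + (i : ZMod (tapeL b m))) = word W m (fun _ => 0) (0 + i)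
  have e : (0 : ZMod (tapeL b m)) + 1 + (i : ZMod (tapeL b m)) = ((i + 1 : ℕ) : ZMod (tapeL b m)) := by
    push_cast; ring
  have hv : ((i + 1 : ℕ) : ZMod (tapeL b m)).val = i + 1 := ZMod.val_natCast_of_lt (by unfold tapeL; omega)
  rw [e]
  unfold tyF
  rw [if_neg, hv]
  · simp
  · intro h0
    rw [h0, ZMod.val_zero] at hv
    omega

/-- The digits are determined by the tape. -/
theorem rep_unique (hb : 3 ≤ b) {V : Perm (ZMod (tapeL b m))} {μ μ' : Mac b m} (h : repF W m V μ)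
    (h' : repF W m V μ') {k : ℕ} (hk : k < m) : μ.d k = μ'.d k := by
  obtain ⟨a1, a2, a3⟩ := h
  obtain ⟨c1, c2, c3⟩ := h'
  have hy : μ.y0 = μ'.y0 := V.injective (a1.trans c1.symm)
  set N := (m + 1) * (b + 1) with hN
  have hN1 : 1 ≤ N := Nat.mul_pos (by omega) (by omega)
  have hw : ∀ i, word W m μ.d (μ.s + i) = word W m μ'.d (μ'.s + i) := by
    intro i
    have h1 := a3 (i % N) (Nat.mod_lt _ hN1)
    have h2 := c3 (i % N) (Nat.mod_lt _ hN1)
    rw [hy] at h1
    rw [h1] at h2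
    have e1 : word W m μ.d (μ.s + i) = word W m μ.d (μ.s + i % N) :=
      word_mod W m _ (Nat.ModEq.add_left _ (Nat.mod_modEq _ _).symm)
    have e2 : word W m μ'.d (μ'.s + i) = word W m μ'.d (μ'.s + i % N) :=
      word_mod W m _ (Nat.ModEq.add_left _ (Nat.mod_modEq _ _).symm)
    rw [e1, e2, h2]
  -- the rotation
  set i0 := (N - 1) * μ.s + 1 with hi0
  have hs : μ.s + i0 = 1 + N * μ.s := by
    obtain ⟨N', hN'⟩ : ∃ N', N = N' + 1 := ⟨N - 1, by omega⟩
    rw [hi0, hN']
    simp only [Nat.add_sub_cancel]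
    ring
  have hm1 : μ.s + i0 ≡ 1 [MOD N] := by
    show (μ.s + i0) % N = 1 % N
    rw [hs, Nat.add_mul_mod_self_left]
  have hz : word W m μ.d (μ.s + i0) = b := by
    rw [word_mod W m μ.d hm1]
    rw [word_Z W m (q := 0) (t := 0) (by simp) (by omega) (by simp)]
    simp
  have hz' : word W m μ'.d (μ'.s + i0) = b := by rw [← hw, hz]
  have hm2 : μ'.s + i0 ≡ 1 [MOD N] := by
    rcases place_cases b (μ'.s + i0) with hp | ⟨q, t, ht, hp⟩
    · rw [word_hash W m hp] at hz'; omega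
    · by_cases hq : q % (m + 1) = 0
      · rw [word_Z W m hp ht hq] at hz'
        have ht0 : t = 0 := by omega
        rw [hp, ht0]
        show ((b + 1) * q + 1 + 0) % N = 1 % N
        obtain ⟨q', hq'⟩ := Nat.dvd_of_mod_eq_zero hq
        rw [hq', show (b + 1) * ((m + 1) * q') + 1 + 0 = 1 + N * q' by rw [hN]; ring,
          Nat.add_mul_mod_self_left]
      · rw [word_W W m hp ht hq] at hz'
        have := W.lt _ (c2 (q % (m + 1) - 1)) t ht
        omega
  -- the digit
  apply W.dist _ (a2 k) _ (c2 k)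
  intro t ht
  have key : ∀ s d, s + i0 ≡ 1 [MOD N] → word W m d (s + (i0 + ((b + 1) * (k + 1) + t))) = W.w (d k) t := by
    intro s d hs
    have : s + (i0 + ((b + 1) * (k + 1) + t)) ≡ (b + 1) * (k + 1) + 1 + t [MOD N] := by
      have h5 := hs.add_right ((b + 1) * (k + 1) + t)
      rw [show s + (i0 + ((b + 1) * (k + 1) + t)) = s + i0 + ((b + 1) * (k + 1) + t) by ring,
        show (b + 1) * (k + 1) + 1 + t = 1 + ((b + 1) * (k + 1) + t) by ring]
      exact h5
    rw [word_mod W m d this]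
    rw [word_W W m rfl ht (by rw [Nat.mod_eq_of_lt (by omega)]; omega), Nat.mod_eq_of_lt (by omega)]
    simp
  rw [← key μ.s μ.d hm1, ← key μ'.s μ'.d hm2]
  exact hw _

/-- Two configurations in one component at a large distance. -/
theorem far (hb : 3 ≤ b) (hB : 2 ≤ B) (hm : 1 ≤ m) (hL : 2 * (B - 1) * (2 * b + 2) ≤ (m + 1) * (b + 1)) :
    ∃ σ τ, (FS (sys W m hb hL).XG (sys W m hb hL).YG).Reachable σ τ ∧
      ∀ w : (FS (sys W m hb hL).XG (sys W m hb hL).YG).Walk σ τ, T B (m - 1) ≤ w.length := by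
  have h0 := rep_init W (m := m) (show 1 ≤ B by omega)
  obtain ⟨V, μ, hr, hrep, hd, _⟩ := rch_digit W hb hL hm (m - 1) (by omega) 1 _ h0 (B - 1) (by omega)
  refine ⟨lift 1, lift V, hr, ?_⟩
  intro w
  obtain ⟨μ', h1, h2⟩ := dist_lower (lvl W m hb hB hm hL) (μ := ⟨0, 0, fun _ => 0⟩) h0 w
  have h3 : μ'.d (m - 1) = B - 1 := by
    rw [← hd]
    exact rep_unique W hb h1 hrep (by omega)
  have e1 : (lvl W m hb hB hm hL).Φ μ' = T B (m - 1) := psi_top hB h1.2.1 h3
  have e2 : (lvl W m hb hB hm hL).Φ ⟨0, 0, fun _ => 0⟩ = 0 := psi_zero hB (fun _ => show (0 : ℕ) < B by omega) rfl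
  rw [e1, e2, sub_zero] at h2
  exact le_trans (le_abs_self _) h2

end final

/-! ### Transport to `Fin n` -/

theorem rel_map {α β : Type*} [DecidableEq α] [DecidableEq β] (e : α ≃ β) {X Y : SimpleGraph α}
    {X' Y' : SimpleGraph β} (hX : ∀ a c, X.Adj a c → X'.Adj (e a) (e c))
    (hY : ∀ a c, Y.Adj a c → Y'.Adj (e a) (e c)) {s t : Perm α} (h : Rel X Y s t) :
    Rel X' Y' (e.permCongr s) (e.permCongr t) := by
  obtain ⟨a, c, h1, h2, rfl⟩ := h
  refine ⟨e a, e c, hX _ _ h1, ?_, ?_⟩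
  · simp only [Equiv.permCongr_apply, Equiv.symm_apply_apply]
    exact hY _ _ h2
  · apply Equiv.ext
    intro x
    obtain ⟨y, rfl⟩ := e.surjective x
    simp only [Equiv.permCongr_apply, Equiv.symm_apply_apply, Perm.mul_apply]
    congr 2
    by_cases c1 : y = a
    · subst c1; simp
    · by_cases c2 : y = c
      · subst c2; simp
      · rw [swap_apply_of_ne_of_ne c1 c2, swap_apply_of_ne_of_ne, Equiv.symm_apply_apply]
        · intro h; exact c1 (e.injective h)
        · intro h; exact c2 (e.injective h)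

/-- The graph homomorphism induced by a relabelling. -/
def homMap {α β : Type*} [DecidableEq α] [DecidableEq β] (e : α ≃ β) {X Y : SimpleGraph α}
    {X' Y' : SimpleGraph β} (hX : ∀ a c, X.Adj a c → X'.Adj (e a) (e c))
    (hY : ∀ a c, Y.Adj a c → Y'.Adj (e a) (e c)) : FS X Y →g FS X' Y' where
  toFun := e.permCongr
  map_rel' := by
    intro s t h
    rw [FS_adj] at h ⊢
    exact rel_map e hX hY h

theorem transport {α : Type} [DecidableEq α] [Fintype α] (X Y : SimpleGraph α) {σ τ : Perm α}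
    (hr : (FS X Y).Reachable σ τ) {D : ℤ} (hD : ∀ w : (FS X Y).Walk σ τ, D ≤ w.length) :
    ∃ (X' Y' : SimpleGraph (Fin (Fintype.card α))) (σ' τ' : Perm (Fin (Fintype.card α))),
      (FS X' Y').Reachable σ' τ' ∧ D ≤ (FS X' Y').dist σ' τ' := by
  set e := Fintype.equivFin α with he
  let X' : SimpleGraph (Fin (Fintype.card α)) := X.comap e.symm
  let Y' : SimpleGraph (Fin (Fintype.card α)) := Y.comap e.symm
  have hX : ∀ a c, X.Adj a c → X'.Adj (e a) (e c) := by
    intro a c h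
    show X.Adj (e.symm (e a)) (e.symm (e c))
    simpa using h
  have hY : ∀ a c, Y.Adj a c → Y'.Adj (e a) (e c) := by
    intro a c h
    show Y.Adj (e.symm (e a)) (e.symm (e c))
    simpa using h
  have hX' : ∀ a c, X'.Adj a c → X.Adj (e.symm a) (e.symm c) := fun a c h => h
  have hY' : ∀ a c, Y'.Adj a c → Y.Adj (e.symm a) (e.symm c) := fun a c h => h
  have hr' : (FS X' Y').Reachable (e.permCongr σ) (e.permCongr τ) := hr.map (homMap e hX hY)
  refine ⟨X', Y', e.permCongr σ, e.permCongr τ, hr', ?_⟩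
  obtain ⟨w, hw⟩ := hr'.exists_walk_length_eq_dist
  rw [← hw]
  have e1 : ∀ ρ : Perm α, (homMap e.symm hX' hY') (e.permCongr ρ) = ρ := by
    intro ρ
    show e.symm.permCongr (e.permCongr ρ) = ρ
    apply Equiv.ext
    intro x
    simp [Equiv.permCongr_apply]
  have h1 := hD ((w.map (homMap e.symm hX' hY')).copy (e1 σ) (e1 τ))
  simpa using h1

/-! ### The estimate -/

theorem exists_b (C : ℝ) : ∃ b : ℕ, 4 ≤ b ∧ Real.exp ((C + 1) * (b + 1)) ≤ (b.factorial : ℝ) - 2 := by
  set c := Real.exp (C + 1) with hc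
  have hc0 : 0 < c := Real.exp_pos _
  have ht := FloorSemiring.tendsto_pow_div_factorial_atTop c
  have h1 : ∀ᶠ n : ℕ in Filter.atTop, c ^ n / (n.factorial : ℝ) < 1 / (2 * c) :=
    ht.eventually (gt_mem_nhds (by positivity))
  obtain ⟨b, hb1, hb2⟩ := (h1.and (Filter.eventually_ge_atTop 4)).exists
  refine ⟨b, hb2, ?_⟩
  have hf : (0 : ℝ) < b.factorial := by exact_mod_cast Nat.factorial_pos b
  have e : Real.exp ((C + 1) * (b + 1)) = c ^ b * c := by
    rw [← pow_succ, hc, ← Real.exp_nat_mul]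
    congr 1
    push_cast
    ring
  rw [e]
  rw [div_lt_div_iff₀ hf (by positivity)] at hb1
  have h24 : (24 : ℝ) ≤ b.factorial := by
    have : Nat.factorial 4 ≤ b.factorial := Nat.factorial_le hb2
    have h4 : Nat.factorial 4 = 24 := rfl
    rw [h4] at this
    exact_mod_cast this
  nlinarith

theorem main (C : ℝ) : ∃ (n : ℕ) (X Y : SimpleGraph (Fin n)) (σ τ : Perm (Fin n)),
    (FS X Y).Reachable σ τ ∧ Real.exp (C * n) < ((FS X Y).dist σ τ : ℝ) := by
  set C' := max C 1 with hC'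
  have hC1 : C ≤ C' := le_max_left _ _
  have hC2 : 1 ≤ C' := le_max_right _ _
  obtain ⟨b, hb4, hbB⟩ := exists_b C'
  set B := b.factorial with hB
  have hBge : 24 ≤ B := by
    have : Nat.factorial 4 ≤ b.factorial := Nat.factorial_le hb4
    have h4 : Nat.factorial 4 = 24 := rfl
    rw [h4] at this
    exact this
  obtain ⟨W⟩ := exists_words b
  set c : ℕ := b + 2 + 2 * (B - 1) * (2 * b + 2) with hc
  obtain ⟨m, hm⟩ := exists_nat_gt (C' * c)
  have hcm : (c : ℝ) < m := by
    have : (c : ℝ) ≤ C' * c := by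
      have h0 : (0 : ℝ) ≤ c := by positivity
      nlinarith
    linarith
  have hcm' : c < m := by exact_mod_cast hcm
  have hm1 : 1 ≤ m := by omega
  have hL : 2 * (B - 1) * (2 * b + 2) ≤ (m + 1) * (b + 1) := by
    calc 2 * (B - 1) * (2 * b + 2) ≤ c := by omega
      _ ≤ m := hcm'.le
      _ ≤ (m + 1) * (b + 1) := by nlinarith
  obtain ⟨σ, τ, hr, hw⟩ := far W (m := m) (show 3 ≤ b by omega) (show 2 ≤ B by omega) hm1 hL
  obtain ⟨X', Y', σ', τ', hr', hd'⟩ := transport _ _ hr hw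
  refine ⟨_, X', Y', σ', τ', hr', ?_⟩
  have hcard : (Fintype.card (Pt (tapeL b m) (2 * b) (Rl B)) : ℝ) = (m : ℝ) * (b + 1) + c := by
    have h1 : Fintype.card (Pt (tapeL b m) (2 * b) (Rl B)) = m * (b + 1) + c := by
      rw [Fintype.card_sum, ZMod.card, Fintype.card_prod, Fintype.card_prod, Fintype.card_bool,
        Fintype.card_fin, Fintype.card_fin, hc]
      unfold tapeL
      ring
    rw [h1]
    push_cast
    ring
  have hT : (Real.exp ((C' + 1) * (b + 1))) ^ m ≤ (T B (m - 1) : ℝ) := by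
    rw [T_eq]
    push_cast
    have hp : (0 : ℝ) ≤ Real.exp ((C' + 1) * (b + 1)) := (Real.exp_pos _).le
    calc (Real.exp ((C' + 1) * (b + 1))) ^ m ≤ ((B : ℝ) - 2) ^ m := pow_le_pow_left₀ hp hbB m
      _ = ((B : ℝ) - 2) * ((B : ℝ) - 2) ^ (m - 1) := by
          rw [← pow_succ']; congr 1; omega
      _ ≤ ((B : ℝ) - 1) * ((B : ℝ) - 2) ^ (m - 1) := by
          have h24 : (24 : ℝ) ≤ B := by exact_mod_cast hBge
          apply mul_le_mul_of_nonneg_right (by linarith)
          exact pow_nonneg (by linarith) _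
  have hlow : (T B (m - 1) : ℝ) ≤ ((FS X' Y').dist σ' τ' : ℝ) := by exact_mod_cast hd'
  refine lt_of_lt_of_le ?_ (hT.trans hlow)
  rw [← Real.exp_nat_mul]
  apply Real.exp_lt_exp.mpr
  rw [hcard]
  have hb0 : (0 : ℝ) ≤ (b : ℝ) := by positivity
  have hm0 : (0 : ℝ) < (m : ℝ) := by exact_mod_cast hm1
  have hc0 : (0 : ℝ) ≤ (c : ℝ) := by positivity
  have h1 : C * ((m : ℝ) * (b + 1) + c) ≤ C' * ((m : ℝ) * (b + 1) + c) := by
    apply mul_le_mul_of_nonneg_right hC1
    positivity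
  have h2 : C' * c < (b + 1) * m := by nlinarith
  nlinarith

end Pool.Agent.W606.FSM
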