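import Mathlib

/-!
The complement of the Berlekamp–van Lint–Seidel graph (Cayley graph of `F_3^5` with respect to
`±` the eleven columns of a parity check matrix of the perfect ternary Golay code): domination number
and eternal domination number are both `3`, while the clique covering number is larger than `3`.
-/

set_option autoImplicit false
set_option synthInstance.maxSize 2000

namespace Pool.Agent.W606.Eternal

abbrev V := ZMod 3 × ZMod 3 × ZMod 3 × ZMod 3 × ZMod 3

/-- the connection set -/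
def S : Finset V :=
  {(1,1,1,1,1), (1,1,2,2,0), (1,2,1,0,2), (2,1,0,1,2), (2,0,1,2,1), (0,2,2,1,1),
   (1,0,0,0,0), (0,1,0,0,0), (0,0,1,0,0), (0,0,0,1,0), (0,0,0,0,1),
   (2,2,2,2,2), (2,2,1,1,0), (2,1,2,0,1), (1,2,0,2,1), (1,0,2,1,2), (0,1,1,2,2),
   (2,0,0,0,0), (0,2,0,0,0), (0,0,2,0,0), (0,0,0,2,0), (0,0,0,0,2)}

/-- fast membership test for `S` (bit mask) -/
def tb (v : V) : Bool :=
  Nat.testBit 7067819618671612976690277463792669168669105967600364042164558365192356430
    (v.1.val + 3 * v.2.1.val + 9 * v.2.2.1.val + 27 * v.2.2.2.1.val + 81 * v.2.2.2.2.val)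

theorem mem_iff : ∀ v : V, v ∈ S ↔ tb v = true := by decide +kernel

theorem S_neg : ∀ a ∈ S, -a ∈ S := by decide +kernel

theorem S_zero : (0 : V) ∉ S := by decide +kernel

theorem S_one : ∀ a ∈ S, ∀ b ∈ S, a - b ∈ S → b = -a := by decide +kernel

theorem S_two' : ∀ a ∈ S, ∀ b ∈ S, ∀ c ∈ S, tb (a + b - c) = true →
    a = c ∨ b = c ∨ a + b = 0 := by
  decide +kernel

theorem S_two : ∀ a ∈ S, ∀ b ∈ S, ∀ c ∈ S, a + b - c ∈ S → a = c ∨ b = c ∨ a + b = 0 := by
  intro a ha b hb c hc h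
  exact S_two' a ha b hb c hc ((mem_iff _).1 h)

theorem S_cover : ∀ v : V, v ≠ 0 → ∃ a ∈ S, tb (v - a) = true := by decide +kernel

theorem S_func : ∀ l : V, ∃ a ∈ S,
    l.1 * a.1 + l.2.1 * a.2.1 + l.2.2.1 * a.2.2.1 + l.2.2.2.1 * a.2.2.2.1
      + l.2.2.2.2 * a.2.2.2.2 = 0 := by decide +kernel

end Pool.Agent.W606.Eternal
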