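import Mathlib

set_option autoImplicit false

/-!
# The potential of a system of nested digits

Digits `d 0, d 1, ...` in `{0, ..., B-1}`; the digit `k` may be changed between `v` and `v+1` when `k = 0`, or when
the digit `k-1` is `B-1` (for `v` even) or `0` (for `v` odd).
-/

namespace Pool.Agent.W606.FSM

/-- The height of the potential. -/
def T (B : ℕ) : ℕ → ℤ
  | 0 => (B : ℤ) - 1
  | k + 1 => ((B : ℤ) - 2) * T B k

/-- The extreme digit required for the change `v ↔ v+1` of the next digit. -/
def ext (B v : ℕ) : ℕ := if v % 2 = 0 then B - 1 else 0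

/-- The potential. -/
def psi (B : ℕ) (d : ℕ → ℕ) : ℕ → ℤ
  | 0 => d 0
  | k + 1 => max 0 (min (((B : ℤ) - 2) * T B k)
      (T B k * d (k + 1) + (if d (k + 1) % 2 = 0 then psi B d k else T B k - psi B d k) - T B k))

theorem T_nonneg {B : ℕ} (hB : 2 ≤ B) (k : ℕ) : 0 ≤ T B k := by
  have : (2 : ℤ) ≤ B := by exact_mod_cast hB
  induction k with
  | zero => simp only [T]; linarith
  | succ k ih => simp only [T]; exact mul_nonneg (by linarith) ih

theorem psi_bounds {B : ℕ} (hB : 2 ≤ B) {d : ℕ → ℕ} (hd : ∀ k, d k < B) (k : ℕ) :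
    0 ≤ psi B d k ∧ psi B d k ≤ T B k := by
  have h2 : (2 : ℤ) ≤ B := by exact_mod_cast hB
  cases k with
  | zero =>
    simp only [psi, T]
    have := hd 0
    constructor
    · positivity
    · have : (d 0 : ℤ) < B := by exact_mod_cast this
      linarith
  | succ k =>
    simp only [psi, T]
    constructor
    · exact le_max_left _ _
    · apply max_le
      · exact mul_nonneg (by linarith) (T_nonneg hB k)
      · exact min_le_left _ _

theorem psi_zero {B : ℕ} (hB : 2 ≤ B) {d : ℕ → ℕ} (hd : ∀ k, d k < B) {k : ℕ} (h : d k = 0) :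
    psi B d k = 0 := by
  cases k with
  | zero => simp [psi, h]
  | succ k =>
    simp only [psi, h]
    have := (psi_bounds hB hd k).2
    apply max_eq_left
    apply min_le_of_right_le
    simp
    linarith

theorem psi_top {B : ℕ} (hB : 2 ≤ B) {d : ℕ → ℕ} (hd : ∀ k, d k < B) {k : ℕ} (h : d k = B - 1) :
    psi B d k = T B k := by
  have h2 : (2 : ℤ) ≤ B := by exact_mod_cast hB
  have hc : ((B - 1 : ℕ) : ℤ) = (B : ℤ) - 1 := by
    rw [Nat.cast_sub (by omega)]; simp
  cases k with
  | zero => simp [psi, h, T, hc]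
  | succ k =>
    have hb := psi_bounds hB hd k
    have hT := T_nonneg hB k
    simp only [psi, T]
    rw [h, hc]
    have hE : ((B : ℤ) - 2) * T B k ≤
        (T B k * ((B : ℤ) - 1) + (if (B - 1) % 2 = 0 then psi B d k else T B k - psi B d k) - T B k) := by
      split_ifs <;> nlinarith [hb.1, hb.2]
    rw [min_eq_left hE]
    exact max_eq_right (mul_nonneg (by linarith) hT)

theorem psi_congr {B : ℕ} {d d' : ℕ → ℕ} (k : ℕ) (h : ∀ j ≤ k, d' j = d j) : psi B d' k = psi B d k := by
  induction k with
  | zero => simp [psi, h 0 le_rfl]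
  | succ k ih =>
    simp only [psi]
    rw [ih (fun j hj => h j (by omega)), h (k + 1) le_rfl]

theorem clamp_lip {a b c : ℤ} (h : |a - b| ≤ 1) : |max 0 (min c a) - max 0 (min c b)| ≤ 1 := by
  rw [abs_le] at h ⊢
  rcases max_cases 0 (min c a) with ⟨h1, _⟩ | ⟨h1, _⟩ <;> rcases max_cases 0 (min c b) with ⟨h2, _⟩ | ⟨h2, _⟩ <;>
    rcases min_cases c a with ⟨h3, _⟩ | ⟨h3, _⟩ <;> rcases min_cases c b with ⟨h4, _⟩ | ⟨h4, _⟩ <;>
    constructor <;> omega

theorem psi_lip {B : ℕ} (hB : 2 ≤ B) {d d' : ℕ → ℕ} (hd : ∀ k, d k < B) {k0 v : ℕ}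
    (hv : d k0 = v) (hv' : d' k0 = v + 1) (hne : ∀ j, j ≠ k0 → d' j = d j)
    (hext : ∀ k1, k0 = k1 + 1 → d k1 = ext B v) (k : ℕ) : |psi B d' k - psi B d k| ≤ 1 := by
  induction k with
  | zero =>
    simp only [psi]
    by_cases h : k0 = 0
    · subst h
      rw [hv, hv']
      simp
    · rw [hne 0 (fun h' => h h'.symm)]
      simp
  | succ k ih =>
    by_cases h : k0 = k + 1
    · subst h
      have e : psi B d' k = psi B d k := psi_congr k (fun j hj => hne j (by omega))
      simp only [psi]
      rw [e, hv, hv']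
      have hx := hext k rfl
      by_cases hp : v % 2 = 0
      · have hp' : ¬ (v + 1) % 2 = 0 := by omega
        rw [if_pos hp, if_neg hp']
        have : psi B d k = T B k := by
          apply psi_top hB hd
          rw [hx]; unfold ext; rw [if_pos hp]
        rw [this]
        push_cast
        have e2 : T B k * ((v : ℤ) + 1) + (T B k - T B k) - T B k = T B k * (v : ℤ) + T B k - T B k := by ring
        rw [e2]
        simp
      · have hp' : (v + 1) % 2 = 0 := by omega
        rw [if_neg hp, if_pos hp']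
        have : psi B d k = 0 := by
          apply psi_zero hB hd
          rw [hx]; unfold ext; rw [if_neg hp]
        rw [this]
        push_cast
        have e2 : T B k * ((v : ℤ) + 1) + 0 - T B k = T B k * (v : ℤ) + (T B k - 0) - T B k := by ring
        rw [e2]
        simp
    · simp only [psi]
      rw [hne (k + 1) (fun h' => h h'.symm)]
      apply clamp_lip
      split_ifs
      · rw [show T B k * (d (k + 1) : ℤ) + psi B d' k - T B k - (T B k * (d (k + 1) : ℤ) + psi B d k - T B k) =
          psi B d' k - psi B d k by ring]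
        exact ih
      · rw [show T B k * (d (k + 1) : ℤ) + (T B k - psi B d' k) - T B k -
          (T B k * (d (k + 1) : ℤ) + (T B k - psi B d k) - T B k) = -(psi B d' k - psi B d k) by ring, abs_neg]
        exact ih

theorem T_eq (B k : ℕ) : T B k = ((B : ℤ) - 1) * ((B : ℤ) - 2) ^ k := by
  induction k with
  | zero => simp [T]
  | succ k ih => simp only [T]; rw [ih, pow_succ]; ring

end Pool.Agent.W606.FSM
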