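import Mathlib

set_option autoImplicit false

/-!
# Long paths of permutations

A path through all the `b!` permutations of `b` letters, consecutive ones differing by the exchange of two adjacent
letters (Steinhaus–Johnson–Trotter).
-/

namespace Pool.Agent.W606.FSM

open Equiv

/-- Words of length `b`, forming a path of length `B` under exchanges of adjacent letters. -/
structure Words (b B : ℕ) where
  w : ℕ → ℕ → ℕ
  lt : ∀ v < B, ∀ i < b, w v i < b
  inj : ∀ v < B, ∀ i < b, ∀ j < b, w v i = w v j → i = j
  dist : ∀ v < B, ∀ v' < B, (∀ i < b, w v i = w v' i) → v = v'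
  step : ∀ v, v + 1 < B → ∃ j, j + 1 < b ∧ ∀ i < b, w (v + 1) i = w v (swap j (j + 1) i)

/-- Insertion of the letter `b` at the place `p`. -/
def ins (w : ℕ → ℕ) (b p i : ℕ) : ℕ := if i < p then w i else if i = p then b else w (i - 1)

theorem ins_lt {w : ℕ → ℕ} {b p i : ℕ} (h : i < p) : ins w b p i = w i := by
  unfold ins; rw [if_pos h]

theorem ins_eq {w : ℕ → ℕ} {b p i : ℕ} (h : i = p) : ins w b p i = b := by
  unfold ins; rw [if_neg (by omega), if_pos h]

theorem ins_gt {w : ℕ → ℕ} {b p i : ℕ} (h : p < i) : ins w b p i = w (i - 1) := by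
  unfold ins; rw [if_neg (by omega), if_neg (by omega)]

theorem ins_step (w : ℕ → ℕ) (b p i : ℕ) : ins w b (p + 1) i = ins w b p (swap p (p + 1) i) := by
  by_cases h1 : i = p
  · subst h1
    rw [swap_apply_left, ins_lt (by omega), ins_gt (by omega)]
    simp
  · by_cases h2 : i = p + 1
    · subst h2
      rw [swap_apply_right, ins_eq rfl, ins_eq rfl]
    · rw [swap_apply_of_ne_of_ne h1 h2]
      by_cases h3 : i < p
      · rw [ins_lt (by omega), ins_lt h3]
      · rw [ins_gt (by omega), ins_gt (by omega)]

theorem ins_step' (w : ℕ → ℕ) (b p i : ℕ) : ins w b p i = ins w b (p + 1) (swap p (p + 1) i) := by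
  rw [ins_step]
  congr 1
  rw [← Perm.mul_apply, swap_mul_self, Perm.one_apply]

theorem ins_word_first {w w' : ℕ → ℕ} {b j : ℕ} (hj : j + 1 < b) (h : ∀ i < b, w' i = w (swap j (j + 1) i)) :
    ∀ i < b + 1, ins w' b 0 i = ins w b 0 (swap (j + 1) (j + 2) i) := by
  intro i hi
  by_cases h1 : i = j + 1
  · subst h1
    rw [swap_apply_left, ins_gt (by omega), ins_gt (by omega), h _ (by omega)]
    simp only [Nat.add_sub_cancel, swap_apply_left]
    rfl
  · by_cases h2 : i = j + 2
    · subst h2
      rw [swap_apply_right, ins_gt (by omega), ins_gt (by omega), h _ (by omega)]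
      have : j + 2 - 1 = j + 1 := by omega
      rw [this, swap_apply_right]
      simp
    · rw [swap_apply_of_ne_of_ne h1 h2]
      by_cases h3 : i = 0
      · rw [ins_eq h3, ins_eq h3]
      · rw [ins_gt (by omega), ins_gt (by omega), h _ (by omega), swap_apply_of_ne_of_ne (by omega) (by omega)]

theorem ins_word_last {w w' : ℕ → ℕ} {b j : ℕ} (hj : j + 1 < b) (h : ∀ i < b, w' i = w (swap j (j + 1) i)) :
    ∀ i < b + 1, ins w' b b i = ins w b b (swap j (j + 1) i) := by
  intro i hi
  by_cases h1 : i = j
  · subst h1
    rw [swap_apply_left, ins_lt (by omega), ins_lt (by omega), h _ (by omega), swap_apply_left]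
  · by_cases h2 : i = j + 1
    · subst h2
      rw [swap_apply_right, ins_lt (by omega), ins_lt (by omega), h _ (by omega), swap_apply_right]
    · rw [swap_apply_of_ne_of_ne h1 h2]
      by_cases h3 : i = b
      · rw [ins_eq h3, ins_eq h3]
      · rw [ins_lt (by omega), ins_lt (by omega), h _ (by omega), swap_apply_of_ne_of_ne h1 h2]

theorem ins_val {w : ℕ → ℕ} {b p : ℕ} (hw : ∀ i < b, w i < b) (hp : p ≤ b) :
    ∀ i < b + 1, ins w b p i < b + 1 := by
  intro i hi
  rcases lt_trichotomy i p with h | h | h
  · rw [ins_lt h]; have := hw i (by omega); omega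
  · rw [ins_eq h]; omega
  · rw [ins_gt h]; have := hw (i - 1) (by omega); omega

theorem ins_inj {w : ℕ → ℕ} {b p : ℕ} (hw : ∀ i < b, w i < b)
    (hinj : ∀ i < b, ∀ j < b, w i = w j → i = j) (hp : p ≤ b) :
    ∀ i < b + 1, ∀ j < b + 1, ins w b p i = ins w b p j → i = j := by
  intro i hi j hj h
  rcases lt_trichotomy i p with h1 | h1 | h1 <;> rcases lt_trichotomy j p with h2 | h2 | h2
  · rw [ins_lt h1, ins_lt h2] at h
    exact hinj i (by omega) j (by omega) h
  · rw [ins_lt h1, ins_eq h2] at h
    have := hw i (by omega); omega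
  · rw [ins_lt h1, ins_gt h2] at h
    have := hinj i (by omega) (j - 1) (by omega) h; omega
  · rw [ins_eq h1, ins_lt h2] at h
    have := hw j (by omega); omega
  · omega
  · rw [ins_eq h1, ins_gt h2] at h
    have := hw (j - 1) (by omega); omega
  · rw [ins_gt h1, ins_lt h2] at h
    have := hinj (i - 1) (by omega) j (by omega) h; omega
  · rw [ins_gt h1, ins_eq h2] at h
    have := hw (i - 1) (by omega); omega
  · rw [ins_gt h1, ins_gt h2] at h
    have := hinj (i - 1) (by omega) (j - 1) (by omega) h; omega

theorem ins_pos {w w' : ℕ → ℕ} {b p p' : ℕ} (hw' : ∀ i < b, w' i < b) (hp : p ≤ b) (hp' : p' ≤ b)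
    (h : ∀ i < b + 1, ins w b p i = ins w' b p' i) : p = p' := by
  have h1 := h p (by omega)
  rw [ins_eq rfl] at h1
  rcases lt_trichotomy p p' with h2 | h2 | h2
  · rw [ins_lt h2] at h1; have := hw' p (by omega); omega
  · exact h2
  · rw [ins_gt h2] at h1; have := hw' (p - 1) (by omega); omega

theorem ins_word {w w' : ℕ → ℕ} {b p : ℕ} (hp : p ≤ b)
    (h : ∀ i < b + 1, ins w b p i = ins w' b p i) : ∀ i < b, w i = w' i := by
  intro i hi
  by_cases h1 : i < p
  · have := h i (by omega)
    rwa [ins_lt h1, ins_lt h1] at this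
  · have := h (i + 1) (by omega)
    rw [ins_gt (by omega), ins_gt (by omega)] at this
    simpa using this

/-- The place of the largest letter. -/
def plc (b q t : ℕ) : ℕ := if q % 2 = 0 then b - t else t

theorem plc_le {b q t : ℕ} (h : t ≤ b) : plc b q t ≤ b := by
  unfold plc; split_ifs <;> omega

/-- One step of the construction of Steinhaus, Johnson and Trotter. -/
def Words.extend {b B : ℕ} (W : Words b B) : Words (b + 1) (B * (b + 1)) where
  w v i := ins (W.w (v / (b + 1))) b (plc b (v / (b + 1)) (v % (b + 1))) i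
  lt := by
    intro v hv i hi
    have hq : v / (b + 1) < B := Nat.div_lt_of_lt_mul (by rw [Nat.mul_comm]; exact hv)
    have ht := Nat.mod_lt v (show 0 < b + 1 by omega)
    exact ins_val (W.lt _ hq) (plc_le (by omega)) i hi
  inj := by
    intro v hv i hi j hj h
    have hq : v / (b + 1) < B := Nat.div_lt_of_lt_mul (by rw [Nat.mul_comm]; exact hv)
    have ht := Nat.mod_lt v (show 0 < b + 1 by omega)
    exact ins_inj (W.lt _ hq) (W.inj _ hq) (plc_le (by omega)) i hi j hj h
  dist := by
    intro v hv v' hv' h
    have hq : v / (b + 1) < B := Nat.div_lt_of_lt_mul (by rw [Nat.mul_comm]; exact hv)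
    have ht := Nat.mod_lt v (show 0 < b + 1 by omega)
    have hq' : v' / (b + 1) < B := Nat.div_lt_of_lt_mul (by rw [Nat.mul_comm]; exact hv')
    have ht' := Nat.mod_lt v' (show 0 < b + 1 by omega)
    have hp := ins_pos (W.lt _ hq') (plc_le (by omega)) (plc_le (by omega)) h
    rw [hp] at h
    have hw := W.dist _ hq _ hq' (ins_word (plc_le (by omega)) h)
    rw [hw] at hp
    have htt : v % (b + 1) = v' % (b + 1) := by
      unfold plc at hp
      split_ifs at hp <;> omega
    rw [← Nat.div_add_mod v (b + 1), ← Nat.div_add_mod v' (b + 1), hw, htt]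
  step := by
    intro v hv
    have hq : v / (b + 1) < B := Nat.div_lt_of_lt_mul (by rw [Nat.mul_comm]; omega)
    have ht := Nat.mod_lt v (show 0 < b + 1 by omega)
    have hdm := Nat.div_add_mod v (b + 1)
    set q := v / (b + 1) with hqdef
    set t := v % (b + 1) with htdef
    by_cases hb : t < b
    · have e1 : (v + 1) / (b + 1) = q := by
        rw [← hdm]
        rw [show (b + 1) * q + t + 1 = (t + 1) + (b + 1) * q by ring]
        rw [Nat.add_mul_div_left _ _ (by omega), Nat.div_eq_of_lt (by omega)]
        simp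
      have e2 : (v + 1) % (b + 1) = t + 1 := by
        rw [← hdm]
        rw [show (b + 1) * q + t + 1 = (t + 1) + (b + 1) * q by ring]
        rw [Nat.add_mul_mod_self_left, Nat.mod_eq_of_lt (by omega)]
      rw [e1, e2]
      by_cases hpar : q % 2 = 0
      · refine ⟨b - t - 1, by omega, ?_⟩
        intro i hi
        have p1 : plc b q t = b - t - 1 + 1 := by unfold plc; rw [if_pos hpar]; omega
        have p2 : plc b q (t + 1) = b - t - 1 := by unfold plc; rw [if_pos hpar]; omega
        rw [p1, p2]
        exact ins_step' _ _ _ _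
      · refine ⟨t, by omega, ?_⟩
        intro i hi
        have p1 : plc b q t = t := by unfold plc; rw [if_neg hpar]
        have p2 : plc b q (t + 1) = t + 1 := by unfold plc; rw [if_neg hpar]
        rw [p1, p2]
        exact ins_step _ _ _ _
    · have htb : t = b := by omega
      have e1 : (v + 1) / (b + 1) = q + 1 := by
        rw [← hdm, htb]
        rw [show (b + 1) * q + b + 1 = (b + 1) * (q + 1) by ring]
        exact Nat.mul_div_cancel_left _ (by omega)
      have e2 : (v + 1) % (b + 1) = 0 := by
        rw [← hdm, htb]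
        rw [show (b + 1) * q + b + 1 = (b + 1) * (q + 1) by ring]
        exact Nat.mul_mod_right _ _
      have hq1 : q + 1 < B := by
        rw [← e1]
        exact Nat.div_lt_of_lt_mul (by rw [Nat.mul_comm]; exact hv)
      obtain ⟨j, hj, hjs⟩ := W.step q hq1
      rw [e1, e2, htb]
      by_cases hpar : q % 2 = 0
      · refine ⟨j + 1, by omega, ?_⟩
        have p1 : plc b q b = 0 := by unfold plc; rw [if_pos hpar]; omega
        have p2 : plc b (q + 1) 0 = 0 := by unfold plc; rw [if_neg (by omega)]
        rw [p1, p2]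
        exact ins_word_first hj hjs
      · refine ⟨j, by omega, ?_⟩
        have p1 : plc b q b = b := by unfold plc; rw [if_neg hpar]
        have p2 : plc b (q + 1) 0 = b := by unfold plc; rw [if_pos (by omega)]; omega
        rw [p1, p2]
        exact ins_word_last hj hjs

/-- There is a path through all the permutations of `b` letters. -/
theorem exists_words (b : ℕ) : Nonempty (Words b b.factorial) := by
  induction b with
  | zero =>
    exact ⟨{ w := fun _ _ => 0
             lt := by intro v _ i hi; omega
             inj := by intro v _ i hi; omega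
             dist := by intro v hv v' hv' _; simp at hv hv'; omega
             step := by intro v hv; simp at hv }⟩
  | succ b ih =>
    obtain ⟨W⟩ := ih
    rw [Nat.factorial_succ, Nat.mul_comm]
    exact ⟨W.extend⟩

end Pool.Agent.W606.FSM
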