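import Pool.Agent.W606.FSMicro
import Pool.Agent.W606.FSWords
import Pool.Agent.W606.FSPot

set_option autoImplicit false

/-!
# The macroscopic level

The cyclic word `# Z # W_1 # W_2 ... # W_m`, where `Z` is a fixed block of special letters and `W_k` is a word of the
path of permutations.
-/

namespace Pool.Agent.W606.FSM

open Equiv

section word

variable {b B : ℕ} (W : Words b B) (m : ℕ)

/-- The letter of the cyclic word at the place `x`. -/
def word (d : ℕ → ℕ) (x : ℕ) : ℕ :=
  if x % (b + 1) = 0 then 2 * b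
  else if (x / (b + 1)) % (m + 1) = 0 then b + (x % (b + 1) - 1)
  else W.w (d ((x / (b + 1)) % (m + 1) - 1)) (x % (b + 1) - 1)

theorem word_hash {d : ℕ → ℕ} {x : ℕ} (h : x % (b + 1) = 0) : word W m d x = 2 * b := by
  unfold word; rw [if_pos h]

theorem word_Z {d : ℕ → ℕ} {x q t : ℕ} (hx : x = (b + 1) * q + 1 + t) (ht : t < b) (hq : q % (m + 1) = 0) :
    word W m d x = b + t := by
  have h1 : x % (b + 1) = t + 1 := by
    rw [hx, show (b + 1) * q + 1 + t = (t + 1) + (b + 1) * q by ring, Nat.add_mul_mod_self_left,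
      Nat.mod_eq_of_lt (by omega)]
  have h2 : x / (b + 1) = q := by
    rw [hx, show (b + 1) * q + 1 + t = (t + 1) + (b + 1) * q by ring, Nat.add_mul_div_left _ _ (by omega),
      Nat.div_eq_of_lt (by omega), zero_add]
  unfold word
  rw [h1, h2, if_neg (by omega), if_pos hq]
  simp

theorem word_W {d : ℕ → ℕ} {x q t : ℕ} (hx : x = (b + 1) * q + 1 + t) (ht : t < b) (hq : q % (m + 1) ≠ 0) :
    word W m d x = W.w (d (q % (m + 1) - 1)) t := by
  have h1 : x % (b + 1) = t + 1 := by
    rw [hx, show (b + 1) * q + 1 + t = (t + 1) + (b + 1) * q by ring, Nat.add_mul_mod_self_left,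
      Nat.mod_eq_of_lt (by omega)]
  have h2 : x / (b + 1) = q := by
    rw [hx, show (b + 1) * q + 1 + t = (t + 1) + (b + 1) * q by ring, Nat.add_mul_div_left _ _ (by omega),
      Nat.div_eq_of_lt (by omega), zero_add]
  unfold word
  rw [h1, h2, if_neg (by omega), if_neg hq]
  simp

/-- Every place is a `#` or a letter of a block. -/
theorem place_cases (b x : ℕ) : x % (b + 1) = 0 ∨ ∃ q t, t < b ∧ x = (b + 1) * q + 1 + t := by
  by_cases h : x % (b + 1) = 0
  · left; exact h
  · right
    have h1 := Nat.mod_lt x (show 0 < b + 1 by omega)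
    have h2 := Nat.div_add_mod x (b + 1)
    refine ⟨x / (b + 1), x % (b + 1) - 1, by omega, by omega⟩

theorem word_lt {d : ℕ → ℕ} (hd : ∀ k, d k < B) {x : ℕ} (h : x % (b + 1) ≠ 0) : word W m d x < 2 * b := by
  rcases place_cases b x with h' | ⟨q, t, ht, hx⟩
  · exact absurd h' h
  · by_cases hq : q % (m + 1) = 0
    · rw [word_Z W m hx ht hq]; omega
    · rw [word_W W m hx ht hq]
      have := W.lt _ (hd (q % (m + 1) - 1)) t ht
      omega

theorem word_hash_iff {d : ℕ → ℕ} (hd : ∀ k, d k < B) {x : ℕ} :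
    word W m d x = 2 * b ↔ x % (b + 1) = 0 := by
  constructor
  · intro h
    by_contra hc
    have := word_lt W m hd hc
    omega
  · exact word_hash W m

theorem word_period (d : ℕ → ℕ) (x : ℕ) : word W m d (x + (m + 1) * (b + 1)) = word W m d x := by
  unfold word
  have h1 : (x + (m + 1) * (b + 1)) % (b + 1) = x % (b + 1) := Nat.add_mul_mod_self_right _ _ _
  have h2 : (x + (m + 1) * (b + 1)) / (b + 1) = x / (b + 1) + (m + 1) := Nat.add_mul_div_right _ _ (by omega)
  rw [h1, h2]
  simp

theorem word_mod (d : ℕ → ℕ) {x y : ℕ} (h : x ≡ y [MOD (m + 1) * (b + 1)]) : word W m d x = word W m d y := by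
  have key : ∀ x n, word W m d (x + n * ((m + 1) * (b + 1))) = word W m d x := by
    intro x n
    induction n with
    | zero => simp
    | succ n ih => rw [add_mul, one_mul, ← add_assoc, word_period, ih]
  have hx := key (x % ((m + 1) * (b + 1))) (x / ((m + 1) * (b + 1)))
  have hy := key (y % ((m + 1) * (b + 1))) (y / ((m + 1) * (b + 1)))
  rw [Nat.mod_add_div'] at hx hy
  have h' : x % ((m + 1) * (b + 1)) = y % ((m + 1) * (b + 1)) := h
  rw [hx, hy, h']

theorem word_adj (hb : 1 ≤ b) {d : ℕ → ℕ} (hd : ∀ k, d k < B) (x : ℕ) : word W m d x ≠ word W m d (x + 1) := by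
  rcases place_cases b x with h | ⟨q, t, ht, hx⟩
  · rw [word_hash W m h]
    have h' : (x + 1) % (b + 1) ≠ 0 := by
      rw [Nat.add_mod, h, zero_add, Nat.mod_mod, Nat.mod_eq_of_lt (by omega)]
      omega
    have := word_lt W m hd h'
    omega
  · by_cases ht' : t + 1 = b
    · have h' : (x + 1) % (b + 1) = 0 := by
        rw [hx, show (b + 1) * q + 1 + t + 1 = (b + 1) * q + (t + 1 + 1) by ring, ht',
          show (b + 1) * q + (b + 1) = (b + 1) * (q + 1) by ring, Nat.mul_mod_right]
      rw [word_hash W m h']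
      have h'' : x % (b + 1) ≠ 0 := by
        rw [hx, show (b + 1) * q + 1 + t = (t + 1) + (b + 1) * q by ring, Nat.add_mul_mod_self_left,
          Nat.mod_eq_of_lt (by omega)]
        omega
      have := word_lt W m hd h''
      omega
    · have hx' : x + 1 = (b + 1) * q + 1 + (t + 1) := by omega
      by_cases hq : q % (m + 1) = 0
      · rw [word_Z W m hx ht hq, word_Z W m hx' (by omega) hq]
        omega
      · rw [word_W W m hx ht hq, word_W W m hx' (by omega) hq]
        intro h
        have := W.inj _ (hd (q % (m + 1) - 1)) t ht (t + 1) (by omega) h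
        omega

end word

/-- Two injective words which agree outside `j, j+1`. -/
theorem agree_cases {b j : ℕ} (hj : j + 1 < b) {w1 w2 : ℕ → ℕ} (h1 : ∀ i < b, w1 i < b) (h2 : ∀ i < b, w2 i < b)
    (i1 : ∀ i < b, ∀ i' < b, w1 i = w1 i' → i = i') (i2 : ∀ i < b, ∀ i' < b, w2 i = w2 i' → i = i')
    (h : ∀ i < b, i ≠ j → i ≠ j + 1 → w1 i = w2 i) :
    (∀ i < b, w1 i = w2 i) ∨ (∀ i < b, w1 i = w2 (swap j (j + 1) i)) := by
  have surj : ∀ y < b, ∃ i < b, w2 i = y := by
    have hf : Function.Injective (fun i : Fin b => (⟨w2 i, h2 i i.2⟩ : Fin b)) := by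
      intro a c hac
      apply Fin.ext
      exact i2 a a.2 c c.2 (by simpa using congrArg Fin.val hac)
    have hs := Finite.surjective_of_injective hf
    intro y hy
    obtain ⟨i, hi⟩ := hs ⟨y, hy⟩
    exact ⟨i, i.2, congrArg Fin.val hi⟩
  have key : ∀ i < b, (i = j ∨ i = j + 1) → w1 i = w2 j ∨ w1 i = w2 (j + 1) := by
    intro i hi hij
    obtain ⟨t, ht, hti⟩ := surj (w1 i) (h1 i hi)
    by_cases e1 : t = j
    · left; rw [← hti, e1]
    · by_cases e2 : t = j + 1
      · right; rw [← hti, e2]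
      · have := h t ht e1 e2
        rw [hti] at this
        have := i1 t ht i hi this
        omega
  have k1 := key j (by omega) (Or.inl rfl)
  have k2 := key (j + 1) (by omega) (Or.inr rfl)
  have hne : w1 j ≠ w1 (j + 1) := by
    intro he; have := i1 j (by omega) (j + 1) hj he; omega
  rcases k1 with k1 | k1
  · rcases k2 with k2 | k2
    · exact absurd (k1.trans k2.symm) hne
    · left
      intro i hi
      by_cases e1 : i = j
      · rw [e1, k1]
      · by_cases e2 : i = j + 1
        · rw [e2, k2]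
        · exact h i hi e1 e2
  · rcases k2 with k2 | k2
    · right
      intro i hi
      by_cases e1 : i = j
      · rw [e1, swap_apply_left, k1]
      · by_cases e2 : i = j + 1
        · rw [e2, swap_apply_right, k2]
        · rw [swap_apply_of_ne_of_ne e1 e2]
          exact h i hi e1 e2
    · exact absurd (k1.trans k2.symm) hne

/-! ### The system -/

section sys

variable {b B : ℕ} (W : Words b B)

/-- The rules. -/
abbrev Rl (B : ℕ) := Bool × Fin (B - 1)

/-- The number of a rule. -/
def rlIdx (ρ : Rl B) : ℕ := 2 * (ρ.2 : ℕ) + (if ρ.1 then 1 else 0)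

theorem rlIdx_lt (ρ : Rl B) : rlIdx ρ < 2 * (B - 1) := by
  unfold rlIdx
  have := ρ.2.2
  split_ifs <;> omega

theorem rlIdx_inj {ρ ρ' : Rl B} (h : rlIdx ρ = rlIdx ρ') : ρ = ρ' := by
  unfold rlIdx at h
  rcases ρ with ⟨z, v⟩
  rcases ρ' with ⟨z', v'⟩
  simp only at h
  have hv : (v : ℕ) = v' := by split_ifs at h <;> omega
  have hv' : v = v' := Fin.ext hv
  subst hv'
  cases z <;> cases z' <;> simp at h ⊢

/-- The place of the exchange `v → v+1`. -/
noncomputable def jj (v : ℕ) : ℕ := if h : v + 1 < B then (W.step v h).choose else 0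

theorem jj_spec {v : ℕ} (h : v + 1 < B) :
    jj W v + 1 < b ∧ ∀ i < b, W.w (v + 1) i = W.w v (swap (jj W v) (jj W v + 1) i) := by
  unfold jj
  rw [dif_pos h]
  exact (W.step v h).choose_spec

/-- The offset in the window of the context cell `i`. -/
def tt (b j i : ℕ) : ℕ := if i < b + 1 + j then i else i + 2

/-- The offset in the window of a cell. -/
noncomputable def off (v : ℕ) : Fin (2 * b) ⊕ Bool → ℕ
  | Sum.inl i => tt b (jj W v) i
  | Sum.inr false => b + 1 + jj W v
  | Sum.inr true => b + 1 + jj W v + 1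

theorem off_lt {v : ℕ} (h : v + 1 < B) (u : Fin (2 * b) ⊕ Bool) : off W v u < 2 * b + 2 := by
  have := (jj_spec W h).1
  rcases u with i | β
  · have := i.2
    simp only [off, tt]
    split_ifs <;> omega
  · cases β <;> simp only [off] <;> omega

theorem off_inj {v : ℕ} {u u' : Fin (2 * b) ⊕ Bool} (h : off W v u = off W v u') : u = u' := by
  rcases u with i | β <;> rcases u' with i' | β'
  · simp only [off, tt] at h
    congr 1
    apply Fin.ext
    split_ifs at h <;> omega
  · exfalso
    cases β' <;> simp only [off, tt] at h <;> split_ifs at h <;> omega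
  · exfalso
    cases β <;> simp only [off, tt] at h <;> split_ifs at h <;> omega
  · cases β <;> cases β' <;> simp only [off] at h ⊢ <;> omega

/-- Every offset is the offset of a cell. -/
theorem off_surj {v : ℕ} (h : v + 1 < B) {t : ℕ} (ht : t < 2 * b + 2) : ∃ u, off W v u = t := by
  have := (jj_spec W h).1
  by_cases h1 : t < b + 1 + jj W v
  · refine ⟨Sum.inl ⟨t, by omega⟩, ?_⟩
    simp only [off, tt]
    rw [if_pos h1]
  · by_cases h2 : t = b + 1 + jj W v
    · exact ⟨Sum.inr false, by simp only [off]; omega⟩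
    · by_cases h3 : t = b + 1 + jj W v + 1
      · exact ⟨Sum.inr true, by simp only [off]; omega⟩
      · refine ⟨Sum.inl ⟨t - 2, by omega⟩, ?_⟩
        simp only [off, tt]
        rw [if_neg (by omega)]
        omega

/-- The word of the window of a rule. -/
def uw (z : Bool) (v t : ℕ) : ℕ :=
  if t < b then (if z then b + t else W.w (ext B v) t)
  else if t = b then 2 * b
  else if t = 2 * b + 1 then 2 * b
  else W.w v (t - (b + 1))

theorem ext_lt (hB : 1 ≤ B) (v : ℕ) : ext B v < B := by
  unfold ext; split_ifs <;> omega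

/-- The number of the cell `u` of the rule `ρ`. -/
noncomputable def cellN (ρ : Rl B) (u : Fin (2 * b) ⊕ Bool) : ℕ := rlIdx ρ * (2 * b + 2) + off W ρ.2 u

theorem fin_lt (v : Fin (B - 1)) : (v : ℕ) + 1 < B := by have := v.2; omega

theorem cellN_lt (ρ : Rl B) (u : Fin (2 * b) ⊕ Bool) : cellN W ρ u < 2 * (B - 1) * (2 * b + 2) := by
  unfold cellN
  have h1 := rlIdx_lt ρ
  have h2 := off_lt W (fin_lt ρ.2) u
  calc rlIdx ρ * (2 * b + 2) + off W ρ.2 u < rlIdx ρ * (2 * b + 2) + (2 * b + 2) := by omega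
    _ = (rlIdx ρ + 1) * (2 * b + 2) := by ring
    _ ≤ 2 * (B - 1) * (2 * b + 2) := Nat.mul_le_mul_right _ h1

theorem cellN_inj {ρ ρ' : Rl B} {u u' : Fin (2 * b) ⊕ Bool} (h : cellN W ρ u = cellN W ρ' u') :
    ρ = ρ' ∧ u = u' := by
  unfold cellN at h
  have h2 := off_lt W (fin_lt ρ.2) u
  have h2' := off_lt W (fin_lt ρ'.2) u'
  have e1 : rlIdx ρ = rlIdx ρ' := by
    have a1 : (rlIdx ρ * (2 * b + 2) + off W ρ.2 u) / (2 * b + 2) = rlIdx ρ := by
      rw [add_comm, Nat.add_mul_div_right _ _ (by omega), Nat.div_eq_of_lt h2, zero_add]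
    have a2 : (rlIdx ρ' * (2 * b + 2) + off W ρ'.2 u') / (2 * b + 2) = rlIdx ρ' := by
      rw [add_comm, Nat.add_mul_div_right _ _ (by omega), Nat.div_eq_of_lt h2', zero_add]
    rw [← a1, ← a2, h]
  have e2 := rlIdx_inj e1
  subst e2
  exact ⟨rfl, off_inj W (v := ρ.2) (by omega)⟩

theorem natCast_inj_of_lt {L a c : ℕ} (ha : a < L) (hc : c < L) (h : (a : ZMod L) = (c : ZMod L)) : a = c := by
  have h1 := congrArg ZMod.val h
  rwa [ZMod.val_natCast_of_lt ha, ZMod.val_natCast_of_lt hc] at h1

theorem uw_adj {z : Bool} {v t : ℕ} (hb : 3 ≤ b) (hv : v < B) (ht : t < 2 * b + 1) :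
    uw W z v t ≠ uw W z v (t + 1) := by
  have hB : 1 ≤ B := by omega
  have hx := ext_lt hB v
  unfold uw
  by_cases h1 : t + 1 < b
  · rw [if_pos (by omega), if_pos h1]
    cases z
    · simp only [Bool.false_eq_true, if_false]
      intro h
      have := W.inj _ hx t (by omega) (t + 1) h1 h
      omega
    · simp only [if_true]; omega
  · by_cases h2 : t + 1 = b
    · rw [if_pos (show t < b by omega), if_neg h1, if_pos h2]
      cases z
      · simp only [Bool.false_eq_true, if_false]
        have := W.lt _ hx t (by omega)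
        omega
      · simp only [if_true]; omega
    · by_cases h3 : t = b
      · rw [if_neg (by omega), if_pos h3, if_neg (by omega), if_neg (by omega), if_neg (by omega)]
        have := W.lt _ hv (t + 1 - (b + 1)) (by omega)
        omega
      · rw [if_neg (by omega), if_neg h3, if_neg (by omega), if_neg (by omega), if_neg (by omega)]
        by_cases h4 : t = 2 * b
        · rw [if_pos (by omega)]
          have := W.lt _ hv (t - (b + 1)) (by omega)
          omega
        · rw [if_neg (by omega)]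
          intro h
          have := W.inj _ hv _ (by omega) _ (by omega) h
          omega

theorem uw_gap {z : Bool} {v j : ℕ} (hb : 3 ≤ b) (hv : v < B) (hj : j + 1 < b) :
    uw W z v (b + j) ≠ uw W z v (b + j + 3) := by
  unfold uw
  by_cases h1 : j = 0
  · rw [if_neg (by omega), if_pos (by omega), if_neg (by omega), if_neg (by omega), if_neg (by omega)]
    have := W.lt _ hv (b + j + 3 - (b + 1)) (by omega)
    omega
  · rw [if_neg (by omega), if_neg (by omega), if_neg (by omega), if_neg (by omega), if_neg (by omega)]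
    by_cases h2 : b + j + 3 = 2 * b + 1
    · rw [if_pos h2]
      have := W.lt _ hv (b + j - (b + 1)) (by omega)
      omega
    · rw [if_neg h2]
      intro h
      have := W.inj _ hv _ (by omega) _ (by omega) h
      omega

/-- The length of the tape. -/
abbrev tapeL (b m : ℕ) : ℕ := (m + 1) * (b + 1) + 1

/-- The type of a tape person. -/
def tyF (m : ℕ) (p : ZMod (tapeL b m)) : ℕ := if p = 0 then 2 * b + 1 else word W m (fun _ => 0) (p.val - 1)

/-- The system of gadgets. -/
noncomputable def sys (m : ℕ) (hb : 3 ≤ b) (hL : 2 * (B - 1) * (2 * b + 2) ≤ (m + 1) * (b + 1)) :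
    Sys (tapeL b m) (2 * b) (Rl B) where
  h0 := 0
  ty := tyF W m
  cell ρ u := (cellN W ρ u : ZMod (tapeL b m))
  tau ρ i := uw W ρ.1 ρ.2 (tt b (jj W ρ.2) i)
  inj := by
    intro ρ ρ' u u' h
    have h1 := cellN_lt W ρ u
    have h2 := cellN_lt W ρ' u'
    exact cellN_inj W (natCast_inj_of_lt (by unfold tapeL; omega) (by unfold tapeL; omega) h)
  pair := by
    intro ρ
    have : cellN W ρ (Sum.inr true) = cellN W ρ (Sum.inr false) + 1 := by
      unfold cellN; simp only [off]; omega
    rw [this]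
    push_cast
    rfl
  left := by
    intro ρ
    have hj := (jj_spec W (fin_lt ρ.2)).1
    refine ⟨⟨b + jj W ρ.2, by omega⟩, ?_⟩
    have : cellN W ρ (Sum.inr false) = cellN W ρ (Sum.inl ⟨b + jj W ρ.2, by omega⟩) + 1 := by
      unfold cellN; simp only [off, tt]
      rw [if_pos (by omega)]
      omega
    rw [this]
    push_cast
    rfl
  right := by
    intro ρ
    have hj := (jj_spec W (fin_lt ρ.2)).1
    refine ⟨⟨b + 1 + jj W ρ.2, by omega⟩, ?_⟩
    have : cellN W ρ (Sum.inl ⟨b + 1 + jj W ρ.2, by omega⟩) = cellN W ρ (Sum.inr true) + 1 := by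
      unfold cellN; simp only [off, tt]
      rw [if_neg (by omega)]
      omega
    rw [this]
    push_cast
    rfl
  tau_ne := by
    intro ρ i i' h
    have hj := (jj_spec W (fin_lt ρ.2)).1
    have hi := i.2
    have hi' := i'.2
    have hv : (ρ.2 : ℕ) < B := by have := fin_lt ρ.2; omega
    unfold tt
    by_cases h1 : (i' : ℕ) < b + 1 + jj W ρ.2
    · rw [if_pos (by omega), if_pos h1, ← h]
      exact uw_adj W hb hv (by omega)
    · by_cases h2 : (i : ℕ) < b + 1 + jj W ρ.2
      · rw [if_pos h2, if_neg h1]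
        have e1 : (i : ℕ) = b + jj W ρ.2 := by omega
        have e2 : (i' : ℕ) + 2 = b + jj W ρ.2 + 3 := by omega
        rw [e1, e2]
        exact uw_gap W hb hv hj
      · rw [if_neg h2, if_neg h1, ← h]
        exact uw_adj W hb hv (by omega)
  Kpos := by omega

/-! ### The macroscopic states -/

theorem shift_exists (m : ℕ) (y0 y : ZMod (tapeL b m)) :
    ∃ i : ℕ, i < tapeL b m ∧ y = y0 + 1 + (i : ZMod (tapeL b m)) := by
  refine ⟨(y - y0 - 1).val, ZMod.val_lt _, ?_⟩
  rw [ZMod.natCast_zmod_val]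
  ring

theorem shift_inj {m : ℕ} {y0 : ZMod (tapeL b m)} {i j : ℕ} (hi : i < tapeL b m) (hj : j < tapeL b m)
    (h : y0 + 1 + (i : ZMod (tapeL b m)) = y0 + 1 + (j : ZMod (tapeL b m))) : i = j :=
  natCast_inj_of_lt hi hj (add_left_cancel h)

theorem shift_top (m : ℕ) (y0 : ZMod (tapeL b m)) :
    y0 + 1 + (((m + 1) * (b + 1) : ℕ) : ZMod (tapeL b m)) = y0 := by
  have h : ((((m + 1) * (b + 1) + 1 : ℕ)) : ZMod (tapeL b m)) = 0 := ZMod.natCast_self _
  rw [Nat.cast_add, Nat.cast_one] at h
  linear_combination h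

/-- A macroscopic state: the place of the hole, the rotation of the word, the digits. -/
structure Mac (b m : ℕ) where
  y0 : ZMod (tapeL b m)
  s : ℕ
  d : ℕ → ℕ

/-- The tape content `V` shows the macroscopic state `μ`. -/
def repF (m : ℕ) (V : Perm (ZMod (tapeL b m))) (μ : Mac b m) : Prop :=
  V μ.y0 = 0 ∧ (∀ k, μ.d k < B) ∧
    ∀ i : ℕ, i < (m + 1) * (b + 1) → tyF W m (V (μ.y0 + 1 + (i : ZMod (tapeL b m)))) = word W m μ.d (μ.s + i)

/-- The hole moves forward. -/
theorem rep_fwd {m : ℕ} {V : Perm (ZMod (tapeL b m))} {μ : Mac b m} (h : repF W m V μ) :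
    repF W m (V * swap μ.y0 (μ.y0 + 1)) ⟨μ.y0 + 1, μ.s + 1, μ.d⟩ := by
  obtain ⟨h1, h2, h3⟩ := h
  refine ⟨?_, h2, ?_⟩
  · show (V * swap μ.y0 (μ.y0 + 1)) (μ.y0 + 1) = 0
    rw [Perm.mul_apply, swap_apply_right, h1]
  · intro i hi
    show tyF W m ((V * swap μ.y0 (μ.y0 + 1)) (μ.y0 + 1 + 1 + (i : ZMod (tapeL b m)))) = word W m μ.d (μ.s + 1 + i)
    have hN : 1 ≤ (m + 1) * (b + 1) := Nat.mul_pos (by omega) (by omega)
    by_cases hi' : i + 1 = (m + 1) * (b + 1)
    · have e : μ.y0 + 1 + 1 + (i : ZMod (tapeL b m)) = μ.y0 := by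
        have := shift_top m μ.y0
        rw [← hi'] at this
        push_cast at this
        linear_combination this
      rw [e, Perm.mul_apply, swap_apply_left]
      have h4 := h3 0 (by omega)
      simp only [Nat.cast_zero, add_zero] at h4
      rw [h4, show μ.s + 1 + i = μ.s + (m + 1) * (b + 1) by omega, word_period]
    · have h4 := h3 (i + 1) (by omega)
      have e : μ.y0 + 1 + 1 + (i : ZMod (tapeL b m)) = μ.y0 + 1 + ((i + 1 : ℕ) : ZMod (tapeL b m)) := by
        push_cast; ring
      rw [e, Perm.mul_apply, swap_apply_of_ne_of_ne, h4]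
      · congr 1; ring
      · intro he
        have h5 := shift_top m μ.y0
        have := shift_inj (i := i + 1) (j := (m + 1) * (b + 1)) (by unfold tapeL; omega) (by unfold tapeL; omega)
          (he.trans h5.symm)
        omega
      · intro he
        have := shift_inj (y0 := μ.y0) (i := i + 1) (j := 0) (by unfold tapeL; omega) (by unfold tapeL; omega)
          (by rw [he]; simp)
        omega

/-- The hole moves backward. -/
theorem rep_bwd {m : ℕ} {V : Perm (ZMod (tapeL b m))} {μ : Mac b m} (h : repF W m V μ) {y : ZMod (tapeL b m)}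
    (hy : y + 1 = μ.y0) :
    repF W m (V * swap y (y + 1)) ⟨y, μ.s + ((m + 1) * (b + 1) - 1), μ.d⟩ := by
  obtain ⟨h1, h2, h3⟩ := h
  have hN : 1 ≤ (m + 1) * (b + 1) := Nat.mul_pos (by omega) (by omega)
  refine ⟨?_, h2, ?_⟩
  · show (V * swap y (y + 1)) y = 0
    rw [Perm.mul_apply, swap_apply_left, hy, h1]
  · intro i hi
    show tyF W m ((V * swap y (y + 1)) (y + 1 + (i : ZMod (tapeL b m)))) =
      word W m μ.d (μ.s + ((m + 1) * (b + 1) - 1) + i)
    by_cases hi' : i = 0
    · subst hi'
      rw [Nat.cast_zero, add_zero, Perm.mul_apply, swap_apply_right]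
      have h4 := h3 ((m + 1) * (b + 1) - 1) (by omega)
      have e : μ.y0 + 1 + (((m + 1) * (b + 1) - 1 : ℕ) : ZMod (tapeL b m)) = y := by
        have h5 := shift_top m μ.y0
        rw [Nat.cast_sub hN, Nat.cast_one]
        rw [← hy] at h5 ⊢
        linear_combination h5
      rw [e] at h4
      rw [h4, add_zero]
    · have h4 := h3 (i - 1) (by omega)
      have e : y + 1 + (i : ZMod (tapeL b m)) = μ.y0 + 1 + ((i - 1 : ℕ) : ZMod (tapeL b m)) := by
        rw [Nat.cast_sub (by omega), Nat.cast_one, ← hy]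
        ring
      rw [Perm.mul_apply, swap_apply_of_ne_of_ne, e, h4]
      · rw [show μ.s + ((m + 1) * (b + 1) - 1) + i = μ.s + (i - 1) + (m + 1) * (b + 1) by omega, word_period]
      · intro he
        have h5 := shift_top m y
        have := shift_inj (i := i) (j := (m + 1) * (b + 1)) (by unfold tapeL; omega) (by unfold tapeL; omega)
          (he.trans h5.symm)
        omega
      · intro he
        have := shift_inj (y0 := y) (i := i) (j := 0) (by unfold tapeL; omega) (by unfold tapeL; omega)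
          (by rw [he]; simp)
        omega

/-- Decoding a window of the cyclic word. -/
theorem decode {m : ℕ} (hb : 3 ≤ b) (hm : 1 ≤ m) {d : ℕ → ℕ} (hd : ∀ k, d k < B) {z : Bool} {v x0 : ℕ}
    (hv : v + 1 < B)
    (h : ∀ t < 2 * b + 2, t ≠ b + 1 + jj W v → t ≠ b + 1 + jj W v + 1 → word W m d (x0 + t) = uw W z v t) :
    ∃ q k0, x0 + b = (b + 1) * q ∧ q % (m + 1) = k0 + 1 ∧ (d k0 = v ∨ d k0 = v + 1) ∧
      (∀ k1, k0 = k1 + 1 → d k1 = ext B v) := by
  obtain ⟨hj, hjs⟩ := jj_spec W hv
  set j := jj W v with hjdef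
  have hB : 1 ≤ B := by omega
  -- the `#`
  have h1 := h b (by omega) (by omega) (by omega)
  have e1 : uw W z v b = 2 * b := by
    unfold uw; rw [if_neg (by omega), if_pos rfl]
  rw [e1, word_hash_iff W m hd] at h1
  obtain ⟨q, hq⟩ := Nat.dvd_of_mod_eq_zero h1
  have hq1 : 1 ≤ q := by
    rcases Nat.eq_zero_or_pos q with h0 | h0
    · subst h0; omega
    · exact h0
  obtain ⟨q', rfl⟩ : ∃ q', q = q' + 1 := ⟨q - 1, by omega⟩
  -- the letters of the second block
  have hl2 : ∀ t < b, t ≠ j → t ≠ j + 1 → word W m d (x0 + (b + 1 + t)) = W.w v t := by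
    intro t ht ht1 ht2
    rw [h (b + 1 + t) (by omega) (by omega) (by omega)]
    unfold uw
    rw [if_neg (by omega), if_neg (by omega), if_neg (by omega)]
    congr 1
    omega
  have hx2 : ∀ t, x0 + (b + 1 + t) = (b + 1) * (q' + 1) + 1 + t := by
    intro t; rw [← hq]; ring
  have hl1 : ∀ t < b, word W m d (x0 + t) = if z then b + t else W.w (ext B v) t := by
    intro t ht
    rw [h t (by omega) (by omega) (by omega)]
    unfold uw
    rw [if_pos ht]
  have hx1 : ∀ t, x0 + t = (b + 1) * q' + 1 + t := by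
    intro t
    have : x0 + b = (b + 1) * q' + (b + 1) := by rw [hq]; ring
    omega
  -- the second block is not `Z`
  have hk : (q' + 1) % (m + 1) ≠ 0 := by
    intro hk
    have key : ∀ t < b, t ≠ j → t ≠ j + 1 → False := by
      intro t ht ht1 ht2
      have h2 := hl2 t ht ht1 ht2
      rw [word_Z W m (hx2 t) ht hk] at h2
      have := W.lt v (by omega) t ht
      omega
    by_cases hj0 : j = 0
    · exact key 2 (by omega) (by omega) (by omega)
    · exact key 0 (by omega) (by omega) (by omega)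
  obtain ⟨k0, hk0⟩ : ∃ k0, (q' + 1) % (m + 1) = k0 + 1 := ⟨(q' + 1) % (m + 1) - 1, by omega⟩
  refine ⟨q' + 1, k0, hq, hk0, ?_, ?_⟩
  · -- the digit
    have hagree : ∀ t < b, t ≠ j → t ≠ j + 1 → W.w (d k0) t = W.w v t := by
      intro t ht ht1 ht2
      have h2 := hl2 t ht ht1 ht2
      rw [word_W W m (hx2 t) ht hk, hk0] at h2
      simpa using h2
    rcases agree_cases hj (W.lt _ (hd k0)) (W.lt v (by omega)) (W.inj _ (hd k0)) (W.inj v (by omega)) hagree
      with h3 | h3
    · left
      exact W.dist _ (hd k0) v (by omega) h3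
    · right
      apply W.dist _ (hd k0) (v + 1) hv
      intro i hi
      rw [h3 i hi, hjs i hi]
  · intro k1 hk1
    subst hk1
    -- the first block is not `Z`
    have hmod : (q' + 1) % (m + 1) = q' % (m + 1) + 1 := by
      have h5 := Nat.mod_lt q' (show 0 < m + 1 by omega)
      rw [Nat.add_mod] at hk0 ⊢
      rw [Nat.mod_eq_of_lt (show 1 < m + 1 by omega)] at hk0 ⊢
      by_cases h6 : q' % (m + 1) + 1 = m + 1
      · rw [h6, Nat.mod_self] at hk0; omega
      · rw [Nat.mod_eq_of_lt (by omega)]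
    have hq' : q' % (m + 1) = k1 + 1 := by omega
    cases z
    · apply W.dist _ (hd k1) _ (ext_lt hB v)
      intro i hi
      have h7 := hl1 i hi
      rw [word_W W m (hx1 i) hi (by omega), hq'] at h7
      simpa using h7
    · exfalso
      have h7 := hl1 0 (by omega)
      rw [word_W W m (hx1 0) (by omega) (by omega), hq'] at h7
      simp only [if_true] at h7
      have := W.lt _ (hd (k1 + 1 - 1)) 0 (by omega)
      omega

/-- The exchange of the two letters is a change of a digit. -/
theorem rep_swap {m : ℕ} {V : Perm (ZMod (tapeL b m))} {μ : Mac b m} (h : repF W m V μ) {v i0 q k0 : ℕ}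
    (hv : v + 1 < B) (hi0 : i0 + 2 * b + 1 < (m + 1) * (b + 1)) (hq : μ.s + i0 + b = (b + 1) * q)
    (hk0 : q % (m + 1) = k0 + 1) {d' : ℕ → ℕ} (hd' : ∀ k, k ≠ k0 → d' k = μ.d k)
    (hc : (μ.d k0 = v ∧ d' k0 = v + 1) ∨ (μ.d k0 = v + 1 ∧ d' k0 = v)) :
    repF W m (V * swap (μ.y0 + 1 + ((i0 + (b + 1 + jj W v) : ℕ) : ZMod (tapeL b m)))
      (μ.y0 + 1 + ((i0 + (b + 1 + jj W v + 1) : ℕ) : ZMod (tapeL b m)))) ⟨μ.y0, μ.s, d'⟩ := by
  obtain ⟨h1, h2, h3⟩ := h
  obtain ⟨hj, hjs⟩ := jj_spec W hv
  set j := jj W v with hjdef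
  have hlen : ∀ i, i < (m + 1) * (b + 1) → i < tapeL b m := fun i hi => by unfold tapeL; omega
  have hne : ∀ i, i < (m + 1) * (b + 1) → μ.y0 + 1 + (i : ZMod (tapeL b m)) ≠ μ.y0 := by
    intro i hi he
    have h5 := shift_top m μ.y0
    have := shift_inj (i := i) (j := (m + 1) * (b + 1)) (by unfold tapeL; omega) (by unfold tapeL; omega)
      (he.trans h5.symm)
    omega
  -- the relation between the words of the two digits
  have hw : ∀ i < b, W.w (d' k0) i = W.w (μ.d k0) (swap j (j + 1) i) := by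
    intro i hi
    rcases hc with ⟨c1, c2⟩ | ⟨c1, c2⟩
    · rw [c1, c2]; exact hjs i hi
    · rw [c1, c2]
      have hs : swap j (j + 1) i < b := by
        by_cases e1 : i = j
        · rw [e1, swap_apply_left]; exact hj
        · by_cases e2 : i = j + 1
          · rw [e2, swap_apply_right]; omega
          · rw [swap_apply_of_ne_of_ne e1 e2]; exact hi
      rw [hjs _ hs, swap_swap_apply']
  have hx : ∀ t, μ.s + (i0 + (b + 1 + t)) = (b + 1) * q + 1 + t := by
    intro t; rw [← hq]; ring
  have hqne : q % (m + 1) ≠ 0 := by omega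
  have hk1 : q % (m + 1) - 1 = k0 := by omega
  refine ⟨?_, ?_, ?_⟩
  · show (V * swap _ _ : Perm (ZMod (tapeL b m))) μ.y0 = 0
    rw [Perm.mul_apply, swap_apply_of_ne_of_ne, h1]
    · exact (hne _ (by omega)).symm
    · exact (hne _ (by omega)).symm
  · intro k
    show d' k < B
    by_cases hk : k = k0
    · rw [hk]
      rcases hc with ⟨c1, c2⟩ | ⟨c1, c2⟩ <;> omega
    · rw [hd' k hk]; exact h2 k
  · intro i hi
    show tyF W m ((V * swap _ _ : Perm (ZMod (tapeL b m))) (μ.y0 + 1 + (i : ZMod (tapeL b m)))) =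
      word W m d' (μ.s + i)
    by_cases c1 : i = i0 + (b + 1 + j)
    · rw [c1, Perm.mul_apply, swap_apply_left]
      have h4 := h3 (i0 + (b + 1 + j + 1)) (by omega)
      rw [show b + 1 + j + 1 = b + 1 + (j + 1) by ring] at h4 ⊢
      rw [h4, word_W W m (hx (j + 1)) (by omega) hqne, word_W W m (hx j) (by omega) hqne, hk1,
        hw j (by omega), swap_apply_left]
    · by_cases c2 : i = i0 + (b + 1 + j + 1)
      · rw [c2, Perm.mul_apply, swap_apply_right]
        have h4 := h3 (i0 + (b + 1 + j)) (by omega)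
        rw [h4, show b + 1 + j + 1 = b + 1 + (j + 1) by ring, word_W W m (hx (j + 1)) (by omega) hqne,
          word_W W m (hx j) (by omega) hqne, hk1, hw (j + 1) (by omega), swap_apply_right]
      · rw [Perm.mul_apply, swap_apply_of_ne_of_ne, h3 i hi]
        · rcases place_cases b (μ.s + i) with hp | ⟨q', t, ht, hp⟩
          · rw [word_hash W m hp, word_hash W m hp]
          · by_cases hz : q' % (m + 1) = 0
            · rw [word_Z W m hp ht hz, word_Z W m hp ht hz]
            · rw [word_W W m hp ht hz, word_W W m hp ht hz]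
              by_cases hkk : q' % (m + 1) - 1 = k0
              · rw [hkk, hw t ht]
                have hmod : q' ≡ q [MOD m + 1] := by
                  show q' % (m + 1) = q % (m + 1)
                  omega
                have hmod2 : (b + 1) * q' ≡ (b + 1) * q [MOD (m + 1) * (b + 1)] := by
                  rw [Nat.mul_comm (m + 1)]
                  exact Nat.ModEq.mul_left' (b + 1) hmod
                have key : ∀ t', t = t' → i0 + (b + 1 + t') < (m + 1) * (b + 1) → i = i0 + (b + 1 + t') := by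
                  rintro t' rfl hlt
                  have h6 : μ.s + i ≡ μ.s + (i0 + (b + 1 + t)) [MOD (m + 1) * (b + 1)] := by
                    rw [hx t, hp]
                    exact (hmod2.add_right 1).add_right t
                  exact Nat.ModEq.eq_of_lt_of_lt (Nat.ModEq.add_left_cancel' _ h6) hi hlt
                rw [swap_apply_of_ne_of_ne]
                · intro e; exact c1 (key j e (by omega))
                · intro e; exact c2 (key (j + 1) e (by omega))
              · rw [hd' _ hkk]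
        · intro e
          exact c1 (shift_inj (hlen _ hi) (hlen _ (by omega)) e)
        · intro e
          exact c2 (shift_inj (hlen _ hi) (hlen _ (by omega)) e)

/-- A window without the hole. -/
theorem window {m : ℕ} (ρ : Rl B) {y0 : ZMod (tapeL b m)}
    (h : ∀ u, (cellN W ρ u : ZMod (tapeL b m)) ≠ y0) :
    ∃ i0, i0 + 2 * b + 1 < (m + 1) * (b + 1) ∧
      ∀ u, (cellN W ρ u : ZMod (tapeL b m)) = y0 + 1 + ((i0 + off W ρ.2 u : ℕ) : ZMod (tapeL b m)) := by
  obtain ⟨i0, hi0, hb0⟩ := shift_exists m y0 ((rlIdx ρ * (2 * b + 2) : ℕ) : ZMod (tapeL b m))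
  have key : ∀ u, (cellN W ρ u : ZMod (tapeL b m)) = y0 + 1 + ((i0 + off W ρ.2 u : ℕ) : ZMod (tapeL b m)) := by
    intro u
    unfold cellN
    rw [Nat.cast_add, hb0, Nat.cast_add]
    ring
  refine ⟨i0, ?_, key⟩
  by_contra hc
  have hi0' : i0 ≤ (m + 1) * (b + 1) := by unfold tapeL at hi0; omega
  obtain ⟨u, hu⟩ := off_surj W (fin_lt ρ.2) (t := (m + 1) * (b + 1) - i0) (by omega)
  apply h u
  rw [key u, hu, show i0 + ((m + 1) * (b + 1) - i0) = (m + 1) * (b + 1) by omega, shift_top]

/-- The macroscopic level. -/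
noncomputable def lvl (m : ℕ) (hb : 3 ≤ b) (hB : 2 ≤ B) (hm : 1 ≤ m)
    (hL : 2 * (B - 1) * (2 * b + 2) ≤ (m + 1) * (b + 1)) : Lvl (sys W m hb hL) (Mac b m) where
  rep := repF W m
  Φ μ := psi B μ.d (m - 1)
  hole := by
    intro V μ y h hy
    have h1 := h.1
    rcases hy with hy | hy
    · have e : y = μ.y0 := V.injective (hy.trans h1.symm)
      subst e
      exact ⟨_, rep_fwd W h, by simp⟩
    · have e : y + 1 = μ.y0 := V.injective (hy.trans h1.symm)
      exact ⟨_, rep_bwd W h e, by simp⟩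
  rule := by
    intro V μ ρ h hctx hty ha hb'
    have hcell : ∀ u, (cellN W ρ u : ZMod (tapeL b m)) ≠ μ.y0 := by
      intro u he
      have h1 : V (cellN W ρ u : ZMod (tapeL b m)) = 0 := by rw [he]; exact h.1
      rcases u with i | β
      · exact hctx i h1
      · cases β
        · exact ha h1
        · exact hb' h1
    obtain ⟨i0, hi0, hcells⟩ := window W ρ hcell
    have hv := fin_lt ρ.2
    have hj := (jj_spec W hv).1
    have hwd : ∀ t < 2 * b + 2, t ≠ b + 1 + jj W ρ.2 → t ≠ b + 1 + jj W ρ.2 + 1 →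
        word W m μ.d (μ.s + i0 + t) = uw W ρ.1 ρ.2 t := by
      intro t ht h1 h2
      obtain ⟨u, hu⟩ := off_surj W hv ht
      rcases u with i | β
      · have h3 := hty i
        have h4 : V ((sys W m hb hL).cell ρ (Sum.inl i)) = V (μ.y0 + 1 + ((i0 + t : ℕ) : ZMod (tapeL b m))) := by
          congr 1
          rw [← hu]
          exact hcells (Sum.inl i)
        rw [h4] at h3
        have h5 := h.2.2 (i0 + t) (by omega)
        have h6 : (sys W m hb hL).ty = tyF W m := rfl
        rw [h6, h5] at h3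
        rw [add_assoc, h3]
        show uw W ρ.1 ρ.2 (tt b (jj W ρ.2) i) = uw W ρ.1 ρ.2 t
        congr 1
      · exfalso
        cases β
        · exact h1 hu.symm
        · exact h2 hu.symm
    obtain ⟨q, k0, hq, hk0, hd, hext⟩ := decode W hb hm h.2.1 hv hwd
    have hcase : ∃ d' : ℕ → ℕ, (∀ k, k ≠ k0 → d' k = μ.d k) ∧
        ((μ.d k0 = (ρ.2 : ℕ) ∧ d' k0 = (ρ.2 : ℕ) + 1) ∨ (μ.d k0 = (ρ.2 : ℕ) + 1 ∧ d' k0 = (ρ.2 : ℕ))) := by
      rcases hd with hd | hd
      · exact ⟨Function.update μ.d k0 ((ρ.2 : ℕ) + 1), fun k hk => Function.update_of_ne hk _ _,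
          Or.inl ⟨hd, by simp⟩⟩
      · exact ⟨Function.update μ.d k0 (ρ.2 : ℕ), fun k hk => Function.update_of_ne hk _ _,
          Or.inr ⟨hd, by simp⟩⟩
    obtain ⟨d', hd'1, hd'2⟩ := hcase
    have hr := rep_swap W h hv hi0 hq hk0 hd'1 hd'2
    refine ⟨⟨μ.y0, μ.s, d'⟩, ?_, ?_⟩
    · have e1 : (sys W m hb hL).cell ρ (Sum.inr false) =
          μ.y0 + 1 + ((i0 + (b + 1 + jj W ρ.2) : ℕ) : ZMod (tapeL b m)) := hcells (Sum.inr false)
      have e2 : (sys W m hb hL).cell ρ (Sum.inr true) =
          μ.y0 + 1 + ((i0 + (b + 1 + jj W ρ.2 + 1) : ℕ) : ZMod (tapeL b m)) := hcells (Sum.inr true)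
      rw [e1, e2]
      exact hr
    · rcases hd'2 with ⟨c1, c2⟩ | ⟨c1, c2⟩
      · exact psi_lip hB h.2.1 c1 c2 hd'1 hext (m - 1)
      · rw [abs_sub_comm]
        refine psi_lip hB hr.2.1 c2 c1 (fun k hk => (hd'1 k hk).symm) ?_ (m - 1)
        intro k1 hk1
        show d' k1 = _
        rw [hd'1 k1 (by omega)]
        exact hext k1 hk1
  adj := by
    intro V μ y h h1 h2
    obtain ⟨i, hi, rfl⟩ := shift_exists m μ.y0 y
    have hi1 : i ≠ (m + 1) * (b + 1) := by
      intro e
      apply h1
      rw [e, shift_top]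
      exact h.1
    have hi2 : i + 1 ≠ (m + 1) * (b + 1) := by
      intro e
      apply h2
      have e' : μ.y0 + 1 + (i : ZMod (tapeL b m)) + 1 = μ.y0 + 1 + ((i + 1 : ℕ) : ZMod (tapeL b m)) := by
        push_cast; ring
      rw [e', e, shift_top]
      exact h.1
    have hiL : i < (m + 1) * (b + 1) := by unfold tapeL at hi; omega
    have e' : μ.y0 + 1 + (i : ZMod (tapeL b m)) + 1 = μ.y0 + 1 + ((i + 1 : ℕ) : ZMod (tapeL b m)) := by
      push_cast; ring
    have t1 := h.2.2 i hiL
    have t2 := h.2.2 (i + 1) (by omega)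
    show tyF W m _ ≠ tyF W m _
    rw [e', t1, t2, ← add_assoc]
    exact word_adj W m (by omega) h.2.1 _

end sys

end Pool.Agent.W606.FSM
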