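import Mathlib

set_option autoImplicit false

/-!
# Friends-and-strangers graphs: tapes with lock gadgets

The micro level of the disproof of `D(n) = e^{O(n)}`.  A cyclic tape of length `L` carries typed tokens and one
hole; finitely many gadgets (indexed by `R`) look at a window of the tape and allow two adjacent tokens to be
exchanged exactly when the other cells of the window carry prescribed types.
-/

namespace Pool.Agent.W606.FSM

open Equiv

/-- The relation of the friends-and-strangers graph. -/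
def Rel {α : Type*} [DecidableEq α] (X Y : SimpleGraph α) (s t : Perm α) : Prop :=
  ∃ a b : α, X.Adj a b ∧ Y.Adj (s a) (s b) ∧ t = s * swap a b

/-- The friends-and-strangers graph. -/
def FS {α : Type*} [DecidableEq α] (X Y : SimpleGraph α) : SimpleGraph (Perm α) := SimpleGraph.fromRel (Rel X Y)

theorem Rel.symm' {α : Type*} [DecidableEq α] {X Y : SimpleGraph α} {s t : Perm α} (h : Rel X Y s t) : Rel X Y t s := by
  obtain ⟨a, b, hX, hY, rfl⟩ := h
  refine ⟨a, b, hX, ?_, ?_⟩
  · simp only [Perm.mul_apply, swap_apply_left, swap_apply_right]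
    exact hY.symm
  · rw [mul_assoc, swap_mul_self, mul_one]

theorem Rel.ne {α : Type*} [DecidableEq α] {X Y : SimpleGraph α} {s t : Perm α} (h : Rel X Y s t) : s ≠ t := by
  obtain ⟨a, b, hX, hY, rfl⟩ := h
  intro h
  have h2 : s a = (s * swap a b) a := by rw [← h]
  simp only [Perm.mul_apply, swap_apply_left] at h2
  exact hX.ne (s.injective h2)

theorem FS_adj {α : Type*} [DecidableEq α] {X Y : SimpleGraph α} {s t : Perm α} : (FS X Y).Adj s t ↔ Rel X Y s t := by
  unfold FS
  rw [SimpleGraph.fromRel_adj]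
  constructor
  · rintro ⟨_, h | h⟩
    · exact h
    · exact h.symm'
  · intro h
    exact ⟨h.ne, Or.inl h⟩

/-- A tape of length `L`, with gadgets indexed by `R`, each with `K` context cells and a pair of cells. -/
structure Sys (L K : ℕ) (R : Type) where
  h0 : ZMod L
  ty : ZMod L → ℕ
  cell : R → (Fin K ⊕ Bool) → ZMod L
  tau : R → Fin K → ℕ
  inj : ∀ ρ ρ' u u', cell ρ u = cell ρ' u' → ρ = ρ' ∧ u = u'
  pair : ∀ ρ, cell ρ (Sum.inr true) = cell ρ (Sum.inr false) + 1
  left : ∀ ρ, ∃ i, cell ρ (Sum.inl i) + 1 = cell ρ (Sum.inr false)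
  right : ∀ ρ, ∃ i, cell ρ (Sum.inl i) = cell ρ (Sum.inr true) + 1
  tau_ne : ∀ ρ (i j : Fin K), (i : ℕ) + 1 = j → tau ρ i ≠ tau ρ j
  Kpos : 0 < K

/-- Positions, and also persons. -/
abbrev Pt (L K : ℕ) (R : Type) := ZMod L ⊕ (R × Fin (K + 2))

/-- Local positions of a gadget. -/
abbrev Loc (K : ℕ) := (Fin K ⊕ Bool) ⊕ Fin (K + 2)

variable {L K : ℕ} {R : Type}

namespace Sys

variable (S : Sys L K R)

/-- The relation defining the graph of positions. -/
def XR : Pt L K R → Pt L K R → Prop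
  | Sum.inl y, Sum.inl y' => y' = y + 1
  | Sum.inl y, Sum.inr (ρ, l) =>
      (∃ i : Fin K, y = S.cell ρ (Sum.inl i) ∧ (l : ℕ) = i + 1) ∨
      (∃ β : Bool, y = S.cell ρ (Sum.inr β) ∧ (l : ℕ) = K + 1)
  | Sum.inr (ρ, l), Sum.inr (ρ', l') => ρ = ρ' ∧ (l' : ℕ) = l + 1
  | Sum.inr _, Sum.inl _ => False

/-- The relation defining the graph of persons. -/
def YR : Pt L K R → Pt L K R → Prop
  | Sum.inl t, Sum.inl t' => t = S.h0 ∧ t' ≠ S.h0
  | Sum.inl t, Sum.inr (ρ, l) =>
      t ≠ S.h0 ∧ ((l : ℕ) = 0 ∨ ∃ i : Fin K, (l : ℕ) = i + 1 ∧ S.ty t = S.tau ρ i)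
  | Sum.inr (ρ, l), Sum.inr (ρ', l') => ρ = ρ' ∧ (l : ℕ) = 0 ∧ (l' : ℕ) = K + 1
  | Sum.inr _, Sum.inl _ => False

def XG : SimpleGraph (Pt L K R) := SimpleGraph.fromRel S.XR
def YG : SimpleGraph (Pt L K R) := SimpleGraph.fromRel S.YR

theorem YG_ll (t t' : ZMod L) : S.YG.Adj (Sum.inl t) (Sum.inl t') ↔
    (t = S.h0 ∧ t' ≠ S.h0) ∨ (t' = S.h0 ∧ t ≠ S.h0) := by
  unfold YG
  rw [SimpleGraph.fromRel_adj]
  simp only [YR]
  constructor
  · rintro ⟨_, h⟩; exact h
  · intro h
    refine ⟨?_, h⟩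
    intro he
    have := Sum.inl_injective he
    subst this
    tauto

theorem YG_lr (t : ZMod L) (ρ : R) (l : Fin (K + 2)) : S.YG.Adj (Sum.inl t) (Sum.inr (ρ, l)) ↔
    t ≠ S.h0 ∧ ((l : ℕ) = 0 ∨ ∃ i : Fin K, (l : ℕ) = i + 1 ∧ S.ty t = S.tau ρ i) := by
  unfold YG
  rw [SimpleGraph.fromRel_adj]
  simp [YR]

theorem YG_rl (t : ZMod L) (ρ : R) (l : Fin (K + 2)) : S.YG.Adj (Sum.inr (ρ, l)) (Sum.inl t) ↔
    t ≠ S.h0 ∧ ((l : ℕ) = 0 ∨ ∃ i : Fin K, (l : ℕ) = i + 1 ∧ S.ty t = S.tau ρ i) := by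
  rw [SimpleGraph.adj_comm, YG_lr]

theorem YG_rr (ρ ρ' : R) (l l' : Fin (K + 2)) : S.YG.Adj (Sum.inr (ρ, l)) (Sum.inr (ρ', l')) ↔
    ρ = ρ' ∧ (((l : ℕ) = 0 ∧ (l' : ℕ) = K + 1) ∨ ((l' : ℕ) = 0 ∧ (l : ℕ) = K + 1)) := by
  unfold YG
  rw [SimpleGraph.fromRel_adj]
  simp only [YR]
  constructor
  · rintro ⟨_, h | h⟩
    · exact ⟨h.1, Or.inl h.2⟩
    · exact ⟨h.1.symm, Or.inr h.2⟩
  · rintro ⟨rfl, h⟩
    refine ⟨?_, ?_⟩
    · intro he
      have := congrArg (fun z => (z.2 : Fin (K + 2))) (Sum.inr_injective he)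
      simp only at this
      subst this
      omega
    · rcases h with h | h
      · exact Or.inl ⟨rfl, h⟩
      · exact Or.inr ⟨rfl, h⟩

theorem XG_adj {x x' : Pt L K R} : S.XG.Adj x x' → S.XR x x' ∨ S.XR x' x := by
  unfold XG
  rw [SimpleGraph.fromRel_adj]
  exact fun h => h.2

/-- The embedding of local positions. -/
def emb (ρ : R) : Loc K → Pt L K R
  | Sum.inl u => Sum.inl (S.cell ρ u)
  | Sum.inr l => Sum.inr (ρ, l)

theorem emb_inj {ρ ρ' : R} {u u' : Loc K} (h : S.emb ρ u = S.emb ρ' u') : ρ = ρ' ∧ u = u' := by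
  rcases u with u | l <;> rcases u' with u' | l'
  · have := S.inj _ _ _ _ (Sum.inl_injective h)
    exact ⟨this.1, by rw [this.2]⟩
  · exact absurd h (by simp [emb])
  · exact absurd h (by simp [emb])
  · have := Sum.inr_injective h
    rw [Prod.mk.injEq] at this
    exact ⟨this.1, by rw [this.2]⟩

end Sys

open Classical in
/-- The sequence of the occupants of the chain of a gadget, without its courier. -/
noncomputable def cc (O : Fin K → Prop) (i : ℕ) : Loc K :=
  if h : i < K then (if O ⟨i, h⟩ then Sum.inl (Sum.inl ⟨i, h⟩) else Sum.inr ⟨i + 1, by omega⟩)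
  else Sum.inr ⟨K + 1, by omega⟩

open Classical in
/-- The occupants of the local positions of a gadget: `O` is the set of context cells which are locked, and `r` is
the place of the courier (`r ≤ K+1`: on the chain; `K+2`, `K+3`: on the first, the second cell of the pair). -/
noncomputable def occL (O : Fin K → Prop) (r : ℕ) : Loc K → Loc K
  | Sum.inl (Sum.inl i) => if O i then Sum.inr ⟨i + 1, by omega⟩ else Sum.inl (Sum.inl i)
  | Sum.inl (Sum.inr false) => if r = K + 2 then Sum.inr ⟨0, by omega⟩ else Sum.inl (Sum.inr false)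
  | Sum.inl (Sum.inr true) => if r = K + 3 then Sum.inr ⟨0, by omega⟩ else Sum.inl (Sum.inr true)
  | Sum.inr l =>
      if (l : ℕ) < r ∧ (l : ℕ) ≤ K then cc O l
      else if (l : ℕ) = r then Sum.inr ⟨0, by omega⟩
      else if r = K + 2 then Sum.inl (Sum.inr false)
      else if r = K + 3 then Sum.inl (Sum.inr true)
      else cc O (l - 1)

theorem comp_swap_of {α β : Type*} [DecidableEq α] {f g : α → β} {a b : α} (h1 : g a = f b) (h2 : g b = f a)
    (h3 : ∀ x, x ≠ a → x ≠ b → g x = f x) : ∀ x, g x = f (swap a b x) := by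
  intro x
  by_cases hx : x = a
  · subst hx; rw [swap_apply_left, h1]
  · by_cases hy : x = b
    · subst hy; rw [swap_apply_right, h2]
    · rw [swap_apply_of_ne_of_ne hx hy, h3 x hx hy]

theorem cc_congr {O O' : Fin K → Prop} {i : ℕ} (h : ∀ hi : i < K, (O ⟨i, hi⟩ ↔ O' ⟨i, hi⟩)) :
    cc O i = cc O' i := by
  unfold cc
  by_cases hi : i < K
  · rw [dif_pos hi, dif_pos hi]
    by_cases c : O ⟨i, hi⟩
    · rw [if_pos c, if_pos ((h hi).1 c)]
    · rw [if_neg c, if_neg (fun c' => c ((h hi).2 c'))]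
  · rw [dif_neg hi, dif_neg hi]

/-- Locking a context cell. -/
theorem occL_lock (O O' : Fin K → Prop) (r : ℕ) (i : Fin K) (hr : r ≤ i) (hO : ¬ O i) (hO' : O' i)
    (hne : ∀ j, j ≠ i → (O' j ↔ O j)) :
    ∀ x, occL O' r x = occL O r (swap (Sum.inl (Sum.inl i)) (Sum.inr ⟨i + 1, by omega⟩) x) := by
  have hi := i.2
  apply comp_swap_of
  · simp only [occL, hO', if_true]
    rw [if_neg (by omega), if_neg (by omega), if_neg (by omega), if_neg (by omega)]
    simp only [Nat.add_sub_cancel, cc, hi, dif_pos, Fin.eta, hO, if_false]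
  · simp only [occL, hO, if_false]
    rw [if_neg (by omega), if_neg (by omega), if_neg (by omega), if_neg (by omega)]
    simp only [Nat.add_sub_cancel, cc, hi, dif_pos, Fin.eta, hO', if_true]
  · rintro ((j | β) | l) h1 h2
    · have hj : j ≠ i := fun h => h1 (by rw [h])
      simp only [occL]
      by_cases c : O j
      · rw [if_pos c, if_pos ((hne j hj).2 c)]
      · rw [if_neg c, if_neg (fun c' => c ((hne j hj).1 c'))]
    · cases β <;> simp only [occL]
    · have hl : (l : ℕ) ≠ i + 1 := fun h => h2 (by congr 1; exact Fin.ext h)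
      simp only [occL]
      split_ifs with c1 c2 c3 c4
      · apply cc_congr
        intro hi'
        apply hne
        intro h
        have : (l : ℕ) = i := congrArg Fin.val h
        omega
      · rfl
      · rfl
      · rfl
      · apply cc_congr
        intro hi'
        apply hne
        intro h
        have : (l : ℕ) - 1 = i := congrArg Fin.val h
        have h0 : (l : ℕ) ≠ 0 := by
          intro h0
          rw [h0] at this
          have : (i : ℕ) = 0 := by omega
          omega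
        omega

/-- Moving the courier on the chain. -/
theorem occL_move (O : Fin K → Prop) (r : ℕ) (hr : r ≤ K) :
    ∀ x, occL O (r + 1) x = occL O r (swap (Sum.inr ⟨r, by omega⟩) (Sum.inr ⟨r + 1, by omega⟩) x) := by
  apply comp_swap_of
  · simp only [occL]
    rw [if_pos (show r < r + 1 ∧ r ≤ K by omega), if_neg (show ¬ (r + 1 < r ∧ r + 1 ≤ K) by omega),
      if_neg (show ¬ (r + 1 = r) by omega), if_neg (show ¬ (r = K + 2) by omega),
      if_neg (show ¬ (r = K + 3) by omega)]
    simp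
  · simp only [occL]
    rw [if_neg (show ¬ (r + 1 < r + 1 ∧ r + 1 ≤ K) by omega), if_pos trivial,
      if_neg (show ¬ (r < r ∧ r ≤ K) by omega), if_pos trivial]
  · rintro ((j | β) | l) h1 h2
    · simp only [occL]
    · cases β <;> simp only [occL]
      · rw [if_neg (by omega), if_neg (by omega)]
      · rw [if_neg (by omega), if_neg (by omega)]
    · have hl : (l : ℕ) ≠ r := fun h => h1 (by congr 1; exact Fin.ext h)
      have hl' : (l : ℕ) ≠ r + 1 := fun h => h2 (by congr 1; exact Fin.ext h)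
      simp only [occL]
      by_cases c : (l : ℕ) < r
      · rw [if_pos (by omega), if_pos (by omega)]
      · rw [if_neg (by omega), if_neg (by omega), if_neg (by omega), if_neg (by omega), if_neg (by omega),
          if_neg (by omega), if_neg (by omega), if_neg (by omega)]

/-- The courier enters the first cell of the pair. -/
theorem occL_a (O : Fin K → Prop) :
    ∀ x, occL O (K + 2) x =
      occL O (K + 1) (swap (Sum.inl (Sum.inr false)) (Sum.inr ⟨K + 1, by omega⟩) x) := by
  apply comp_swap_of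
  · simp only [occL]
    simp
  · simp only [occL]
    simp
  · rintro ((j | β) | l) h1 h2
    · simp only [occL]
    · cases β
      · exact absurd rfl h1
      · simp only [occL]
        rw [if_neg (by omega), if_neg (by omega)]
    · have hl' : (l : ℕ) ≠ K + 1 := fun h => h2 (by congr 1; exact Fin.ext h)
      have := l.2
      simp only [occL]
      rw [if_pos (by omega), if_pos (by omega)]

/-- The courier enters the second cell of the pair. -/
theorem occL_b (O : Fin K → Prop) :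
    ∀ x, occL O (K + 3) x =
      occL O (K + 1) (swap (Sum.inl (Sum.inr true)) (Sum.inr ⟨K + 1, by omega⟩) x) := by
  apply comp_swap_of
  · simp only [occL]
    simp
  · simp only [occL]
    simp
  · rintro ((j | β) | l) h1 h2
    · simp only [occL]
    · cases β
      · simp only [occL]
        rw [if_neg (by omega), if_neg (by omega)]
      · exact absurd rfl h1
    · have hl' : (l : ℕ) ≠ K + 1 := fun h => h2 (by congr 1; exact Fin.ext h)
      have := l.2
      simp only [occL]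
      rw [if_pos (by omega), if_pos (by omega)]

theorem cc_ne_pair (O : Fin K → Prop) (i : ℕ) (β : Bool) : cc O i ≠ Sum.inl (Sum.inr β) := by
  unfold cc
  split_ifs <;> simp

/-- The courier moves from the first to the second cell of the pair. -/
theorem occL_ab (O : Fin K → Prop) :
    ∀ x, (swap (Sum.inl (Sum.inr false)) (Sum.inl (Sum.inr true)) : Perm (Loc K)) (occL O (K + 3) x) =
      occL O (K + 2) ((swap (Sum.inl (Sum.inr false)) (Sum.inl (Sum.inr true)) : Perm (Loc K)) x) := by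
  rintro ((j | β) | l)
  · rw [swap_apply_of_ne_of_ne (a := Sum.inl (Sum.inr false)) (x := Sum.inl (Sum.inl j)) (by simp) (by simp)]
    simp only [occL]
    split_ifs
    · rw [swap_apply_of_ne_of_ne] <;> simp
    · rw [swap_apply_of_ne_of_ne] <;> simp
  · cases β
    · rw [swap_apply_left]
      simp only [occL]
      rw [if_neg (by omega), if_neg (by omega), swap_apply_left]
    · rw [swap_apply_right]
      simp only [occL]
      rw [if_pos trivial, if_pos trivial]
      rw [swap_apply_of_ne_of_ne] <;> simp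
  · rw [swap_apply_of_ne_of_ne (a := Sum.inl (Sum.inr false)) (x := Sum.inr l) (by simp) (by simp)]
    simp only [occL]
    have := l.2
    by_cases c : (l : ℕ) ≤ K
    · rw [if_pos (by omega), if_pos (by omega), swap_apply_of_ne_of_ne (cc_ne_pair _ _ _) (cc_ne_pair _ _ _)]
    · rw [if_neg (by omega), if_neg (by omega), if_neg (by omega), if_pos trivial, if_neg (by omega),
        if_neg (by omega), if_pos trivial, swap_apply_right]

open Classical in
/-- The occupants of all positions. -/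
noncomputable def occ (S : Sys L K R) (O : R → Fin K → Prop) (r : R → ℕ) : Pt L K R → Pt L K R
  | Sum.inr (ρ, l) => S.emb ρ (occL (O ρ) (r ρ) (Sum.inr l))
  | Sum.inl y => if h : ∃ q : R × (Fin K ⊕ Bool), S.cell q.1 q.2 = y then
      S.emb h.choose.1 (occL (O h.choose.1) (r h.choose.1) (Sum.inl h.choose.2)) else Sum.inl y

theorem occ_emb (S : Sys L K R) (O : R → Fin K → Prop) (r : R → ℕ) (ρ : R) (u : Loc K) :
    occ S O r (S.emb ρ u) = S.emb ρ (occL (O ρ) (r ρ) u) := by
  rcases u with u | l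
  · have h : ∃ q : R × (Fin K ⊕ Bool), S.cell q.1 q.2 = S.cell ρ u := ⟨(ρ, u), rfl⟩
    have h2 := S.inj _ _ _ _ h.choose_spec
    simp only [Sys.emb, occ]
    rw [dif_pos h]
    rw [h2.1, h2.2]
  · rfl

theorem occ_free (S : Sys L K R) (O : R → Fin K → Prop) (r : R → ℕ) (y : ZMod L)
    (h : ∀ ρ u, S.cell ρ u ≠ y) : occ S O r (Sum.inl y) = Sum.inl y := by
  simp only [occ]
  rw [dif_neg]
  rintro ⟨q, hq⟩
  exact h _ _ hq

variable [DecidableEq R]

set_option linter.unusedSectionVars false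

theorem occ_swap (S : Sys L K R) {O O' : R → Fin K → Prop} {r r' : R → ℕ} (ρ : R)
    (hne : ∀ ρ', ρ' ≠ ρ → O' ρ' = O ρ' ∧ r' ρ' = r ρ') (u u' : Loc K)
    (h : ∀ x, occL (O' ρ) (r' ρ) x = occL (O ρ) (r ρ) (swap u u' x)) :
    ∀ x, occ S O' r' x = occ S O r (swap (S.emb ρ u) (S.emb ρ u') x) := by
  apply comp_swap_of
  · rw [occ_emb, occ_emb, h, swap_apply_left]
  · rw [occ_emb, occ_emb, h, swap_apply_right]
  · intro x hx hx'
    have key : ∀ ρ' v, x = S.emb ρ' v → occ S O' r' x = occ S O r x := by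
      rintro ρ' v rfl
      rw [occ_emb, occ_emb]
      by_cases hρ : ρ' = ρ
      · subst hρ
        rw [h, swap_apply_of_ne_of_ne]
        · rintro rfl; exact hx rfl
        · rintro rfl; exact hx' rfl
      · rw [(hne ρ' hρ).1, (hne ρ' hρ).2]
    rcases x with y | ⟨ρ', l⟩
    · by_cases hy : ∃ ρ' v, S.cell ρ' v = y
      · obtain ⟨ρ', v, rfl⟩ := hy
        exact key ρ' (Sum.inl v) rfl
      · rw [occ_free, occ_free]
        · intro ρ' v hv; exact hy ⟨ρ', v, hv⟩
        · intro ρ' v hv; exact hy ⟨ρ', v, hv⟩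
    · exact key ρ' (Sum.inr l) rfl

/-- Lifting a tape content to a bijection positions - persons. -/
def lift (V : Perm (ZMod L)) : Perm (Pt L K R) := Equiv.sumCongr V (Equiv.refl _)

@[simp] theorem lift_inl (V : Perm (ZMod L)) (y : ZMod L) :
    (lift V : Perm (Pt L K R)) (Sum.inl y) = Sum.inl (V y) := rfl

@[simp] theorem lift_inr (V : Perm (ZMod L)) (z : R × Fin (K + 2)) :
    (lift V : Perm (Pt L K R)) (Sum.inr z) = Sum.inr z := rfl

/-- `σ` is the configuration with virtual tape content `V` and gadget states `O`, `r`. -/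
def IsSt (S : Sys L K R) (V : Perm (ZMod L)) (O : R → Fin K → Prop) (r : R → ℕ) (σ : Perm (Pt L K R)) : Prop :=
  ∀ x, σ x = lift V (occ S O r x)

/-- The invariant. -/
structure Inv (S : Sys L K R) (V : Perm (ZMod L)) (O : R → Fin K → Prop) (r : R → ℕ) : Prop where
  rle : ∀ ρ, r ρ ≤ K + 3
  lockh : ∀ ρ i, O ρ i → V (S.cell ρ (Sum.inl i)) ≠ S.h0
  lock : ∀ ρ i, O ρ i → S.ty (V (S.cell ρ (Sum.inl i))) = S.tau ρ i
  seq : ∀ ρ (i : Fin K), (i : ℕ) < r ρ → O ρ i

theorem IsSt.swap_gadget {S : Sys L K R} {V : Perm (ZMod L)} {O O' : R → Fin K → Prop} {r r' : R → ℕ}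
    {σ : Perm (Pt L K R)} (h : IsSt S V O r σ) {x x' : Pt L K R}
    (hs : ∀ z, occ S O' r' z = occ S O r (swap x x' z)) : IsSt S V O' r' (σ * swap x x') := by
  intro z
  rw [Perm.mul_apply, h, hs]

theorem IsSt.occ_inj {S : Sys L K R} {V : Perm (ZMod L)} {O : R → Fin K → Prop} {r : R → ℕ}
    {σ : Perm (Pt L K R)} (h : IsSt S V O r σ) : Function.Injective (occ S O r) := by
  intro a b hab
  apply σ.injective
  rw [h, h, hab]

/-- A swap of two positions whose occupants are two tape cells is a swap of the virtual tape. -/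
theorem IsSt.swap_tape {S : Sys L K R} {V : Perm (ZMod L)} {O : R → Fin K → Prop} {r : R → ℕ}
    {σ : Perm (Pt L K R)} (h : IsSt S V O r σ) {x x' : Pt L K R} {y y' : ZMod L}
    (hx : occ S O r x = Sum.inl y) (hx' : occ S O r x' = Sum.inl y') :
    IsSt S (V * swap y y') O r (σ * swap x x') := by
  have hinj := h.occ_inj
  intro z
  rw [Perm.mul_apply, h]
  by_cases h1 : z = x
  · subst h1
    rw [swap_apply_left, hx, hx', lift_inl, lift_inl, Perm.mul_apply, swap_apply_left]
  · by_cases h2 : z = x'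
    · subst h2
      rw [swap_apply_right, hx, hx', lift_inl, lift_inl, Perm.mul_apply, swap_apply_right]
    · rw [swap_apply_of_ne_of_ne h1 h2]
      have e1 : occ S O r z ≠ Sum.inl y := fun e => h1 (hinj (e.trans hx.symm))
      have e2 : occ S O r z ≠ Sum.inl y' := fun e => h2 (hinj (e.trans hx'.symm))
      rcases hz : occ S O r z with w | w
      · rw [hz] at e1 e2
        rw [lift_inl, lift_inl, Perm.mul_apply, swap_apply_of_ne_of_ne]
        · rintro rfl; exact e1 rfl
        · rintro rfl; exact e2 rfl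
      · rfl

theorem swap_swap_apply' {α : Type*} [DecidableEq α] (a b x : α) : swap a b (swap a b x) = x := by
  rw [← Perm.mul_apply, swap_mul_self, Perm.one_apply]

theorem swap_emb (S : Sys L K R) (ρ : R) (u u' w : Loc K) :
    swap (S.emb ρ u) (S.emb ρ u') (S.emb ρ w) = S.emb ρ (swap u u' w) := by
  by_cases h1 : w = u
  · subst h1; rw [swap_apply_left, swap_apply_left]
  · by_cases h2 : w = u'
    · subst h2; rw [swap_apply_right, swap_apply_right]
    · rw [swap_apply_of_ne_of_ne h1 h2, swap_apply_of_ne_of_ne]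
      · intro h; exact h1 (S.emb_inj h).2
      · intro h; exact h2 (S.emb_inj h).2

theorem swap_emb_ne (S : Sys L K R) {ρ ρ' : R} (hρ : ρ' ≠ ρ) (u u' w : Loc K) :
    swap (S.emb ρ u) (S.emb ρ u') (S.emb ρ' w) = S.emb ρ' w := by
  rw [swap_apply_of_ne_of_ne]
  · intro h; exact hρ (S.emb_inj h).1
  · intro h; exact hρ (S.emb_inj h).1

theorem occ_ab (S : Sys L K R) {O : R → Fin K → Prop} {r r' : R → ℕ} (ρ : R)
    (hne : ∀ ρ', ρ' ≠ ρ → r' ρ' = r ρ') (h2 : r ρ = K + 2) (h3 : r' ρ = K + 3) (z : Pt L K R) :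
    (swap (S.emb ρ (Sum.inl (Sum.inr false))) (S.emb ρ (Sum.inl (Sum.inr true)))) (occ S O r' z) =
    occ S O r ((swap (S.emb ρ (Sum.inl (Sum.inr false))) (S.emb ρ (Sum.inl (Sum.inr true)))) z) := by
  have key : ∀ ρ' v, z = S.emb ρ' v →
      (swap (S.emb ρ (Sum.inl (Sum.inr false))) (S.emb ρ (Sum.inl (Sum.inr true)))) (occ S O r' z) =
    occ S O r ((swap (S.emb ρ (Sum.inl (Sum.inr false))) (S.emb ρ (Sum.inl (Sum.inr true)))) z) := by
    rintro ρ' v rfl
    by_cases hρ : ρ' = ρ
    · subst hρ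
      rw [occ_emb, swap_emb, swap_emb, occ_emb, h2, h3, occL_ab]
    · rw [occ_emb, swap_emb_ne S hρ, swap_emb_ne S hρ, occ_emb, hne _ hρ]
  rcases z with y | ⟨ρ', l⟩
  · by_cases hy : ∃ ρ' v, S.cell ρ' v = y
    · obtain ⟨ρ', v, rfl⟩ := hy
      exact key ρ' (Sum.inl v) rfl
    · have hf : ∀ ρ' v, S.cell ρ' v ≠ y := fun ρ' v hv => hy ⟨ρ', v, hv⟩
      have hz : (swap (S.emb ρ (Sum.inl (Sum.inr false))) (S.emb ρ (Sum.inl (Sum.inr true))))
          (Sum.inl y : Pt L K R) = Sum.inl y := by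
        rw [swap_apply_of_ne_of_ne]
        · intro h; exact hf _ _ (Sum.inl_injective h).symm
        · intro h; exact hf _ _ (Sum.inl_injective h).symm
      rw [occ_free S O r' y hf, hz, occ_free S O r y hf]
  · exact key ρ' (Sum.inr l) rfl

theorem lift_swap (V : Perm (ZMod L)) (y y' : ZMod L) (w : Pt L K R) :
    lift V (swap (Sum.inl y) (Sum.inl y') w) = lift (V * swap y y') w := by
  rcases w with w | w
  · by_cases h1 : w = y
    · subst h1; simp [swap_apply_left]
    · by_cases h2 : w = y'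
      · subst h2; simp [swap_apply_right]
      · rw [swap_apply_of_ne_of_ne, lift_inl, lift_inl, Perm.mul_apply, swap_apply_of_ne_of_ne h1 h2]
        · intro h; exact h1 (Sum.inl_injective h)
        · intro h; exact h2 (Sum.inl_injective h)
  · rw [swap_apply_of_ne_of_ne (by simp) (by simp)]
    rfl

theorem IsSt.swap_ab {S : Sys L K R} {V : Perm (ZMod L)} {O : R → Fin K → Prop} {r r' : R → ℕ}
    {σ : Perm (Pt L K R)} (h : IsSt S V O r σ) (ρ : R) (hne : ∀ ρ', ρ' ≠ ρ → r' ρ' = r ρ')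
    (h2 : r ρ = K + 2) (h3 : r' ρ = K + 3) :
    IsSt S (V * swap (S.cell ρ (Sum.inr false)) (S.cell ρ (Sum.inr true))) O r'
      (σ * swap (Sum.inl (S.cell ρ (Sum.inr false))) (Sum.inl (S.cell ρ (Sum.inr true)))) := by
  intro z
  rw [Perm.mul_apply, h]
  have := occ_ab S (O := O) ρ hne h2 h3 z
  simp only [Sys.emb] at this
  rw [← this, lift_swap]

theorem IsSt.swap_ba {S : Sys L K R} {V : Perm (ZMod L)} {O : R → Fin K → Prop} {r r' : R → ℕ}
    {σ : Perm (Pt L K R)} (h : IsSt S V O r σ) (ρ : R) (hne : ∀ ρ', ρ' ≠ ρ → r' ρ' = r ρ')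
    (h2 : r ρ = K + 3) (h3 : r' ρ = K + 2) :
    IsSt S (V * swap (S.cell ρ (Sum.inr false)) (S.cell ρ (Sum.inr true))) O r'
      (σ * swap (Sum.inl (S.cell ρ (Sum.inr false))) (Sum.inl (S.cell ρ (Sum.inr true)))) := by
  intro z
  rw [Perm.mul_apply, h]
  have := occ_ab S (O := O) ρ (r := r') (r' := r) (fun ρ' h => (hne ρ' h).symm) h3 h2
    ((swap (Sum.inl (S.cell ρ (Sum.inr false))) (Sum.inl (S.cell ρ (Sum.inr true)))) z)
  simp only [Sys.emb] at this
  rw [swap_swap_apply'] at this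
  rw [← this, ← lift_swap, swap_swap_apply']

/-- The macroscopic description of the good tapes. -/
structure Lvl (S : Sys L K R) (M : Type) where
  rep : Perm (ZMod L) → M → Prop
  Φ : M → ℤ
  hole : ∀ V μ y, rep V μ → (V y = S.h0 ∨ V (y + 1) = S.h0) →
    ∃ μ', rep (V * swap y (y + 1)) μ' ∧ |Φ μ' - Φ μ| ≤ 1
  rule : ∀ V μ ρ, rep V μ → (∀ i, V (S.cell ρ (Sum.inl i)) ≠ S.h0) →
    (∀ i, S.ty (V (S.cell ρ (Sum.inl i))) = S.tau ρ i) →
    V (S.cell ρ (Sum.inr false)) ≠ S.h0 → V (S.cell ρ (Sum.inr true)) ≠ S.h0 →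
    ∃ μ', rep (V * swap (S.cell ρ (Sum.inr false)) (S.cell ρ (Sum.inr true))) μ' ∧ |Φ μ' - Φ μ| ≤ 1
  adj : ∀ V μ y, rep V μ → V y ≠ S.h0 → V (y + 1) ≠ S.h0 → S.ty (V y) ≠ S.ty (V (y + 1))

variable {M : Type}

/-- `σ` is a good configuration, with macroscopic state at potential at most one from `μ`. -/
def Nxt (S : Sys L K R) (Λ : Lvl S M) (μ : M) (σ : Perm (Pt L K R)) : Prop :=
  ∃ V O r μ', Inv S V O r ∧ Λ.rep V μ' ∧ IsSt S V O r σ ∧ |Λ.Φ μ' - Λ.Φ μ| ≤ 1

theorem Inv.swap {S : Sys L K R} {V : Perm (ZMod L)} {O : R → Fin K → Prop} {r : R → ℕ} (hI : Inv S V O r)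
    {y y' : ZMod L} (h : ∀ ρ i, O ρ i → S.cell ρ (Sum.inl i) ≠ y ∧ S.cell ρ (Sum.inl i) ≠ y') :
    Inv S (V * Equiv.swap y y') O r where
  rle := hI.rle
  lockh := by
    intro ρ i hi
    rw [Perm.mul_apply, swap_apply_of_ne_of_ne (h ρ i hi).1 (h ρ i hi).2]
    exact hI.lockh ρ i hi
  lock := by
    intro ρ i hi
    rw [Perm.mul_apply, swap_apply_of_ne_of_ne (h ρ i hi).1 (h ρ i hi).2]
    exact hI.lock ρ i hi
  seq := hI.seq

/-- Trichotomy for the occupants of the tape cells. -/
theorem occ_inl_cases (S : Sys L K R) {V : Perm (ZMod L)} {O : R → Fin K → Prop} {r : R → ℕ}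
    (hI : Inv S V O r) (y : ZMod L) :
    (∃ ρ i, y = S.cell ρ (Sum.inl i) ∧ O ρ i ∧ occ S O r (Sum.inl y) = Sum.inr (ρ, ⟨i + 1, by omega⟩)) ∨
    (∃ ρ, y = S.cell ρ (Sum.inr false) ∧ r ρ = K + 2 ∧ occ S O r (Sum.inl y) = Sum.inr (ρ, ⟨0, by omega⟩)) ∨
    (∃ ρ, y = S.cell ρ (Sum.inr true) ∧ r ρ = K + 3 ∧ occ S O r (Sum.inl y) = Sum.inr (ρ, ⟨0, by omega⟩)) ∨
    (occ S O r (Sum.inl y) = Sum.inl y ∧ ∀ ρ i, O ρ i → S.cell ρ (Sum.inl i) ≠ y) := by
  by_cases hy : ∃ ρ v, S.cell ρ v = y
  · obtain ⟨ρ, v, rfl⟩ := hy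
    have h := occ_emb S O r ρ (Sum.inl v)
    simp only [Sys.emb] at h
    rcases v with i | β
    · by_cases hO : O ρ i
      · left
        refine ⟨ρ, i, rfl, hO, ?_⟩
        rw [h]
        simp only [occL]
        rw [if_pos hO]
      · right; right; right
        refine ⟨?_, ?_⟩
        · rw [h]
          simp only [occL]
          rw [if_neg hO]
        · intro ρ' i' hO' he
          have := S.inj _ _ _ _ he
          obtain ⟨rfl, h2⟩ := this
          have : i' = i := by simpa using h2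
          subst this
          exact hO hO'
    · cases β
      · by_cases hr : r ρ = K + 2
        · right; left
          refine ⟨ρ, rfl, hr, ?_⟩
          rw [h]
          simp only [occL]
          rw [if_pos hr]
        · right; right; right
          refine ⟨?_, ?_⟩
          · rw [h]
            simp only [occL]
            rw [if_neg hr]
          · intro ρ' i' hO' he
            have := S.inj _ _ _ _ he
            simp at this
      · by_cases hr : r ρ = K + 3
        · right; right; left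
          refine ⟨ρ, rfl, hr, ?_⟩
          rw [h]
          simp only [occL]
          rw [if_pos hr]
        · right; right; right
          refine ⟨?_, ?_⟩
          · rw [h]
            simp only [occL]
            rw [if_neg hr]
          · intro ρ' i' hO' he
            have := S.inj _ _ _ _ he
            simp at this
  · right; right; right
    refine ⟨occ_free S O r y (fun ρ v h => hy ⟨ρ, v, h⟩), ?_⟩
    intro ρ i _ he
    exact hy ⟨_, _, he⟩

/-- The swap of the pair, when the gadget is fully locked. -/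
theorem Lvl.pair_swap {S : Sys L K R} (Λ : Lvl S M) {V : Perm (ZMod L)} {O : R → Fin K → Prop} {r : R → ℕ}
    {μ : M} (hI : Inv S V O r) (hrep : Λ.rep V μ) (ρ : R) (hO : ∀ i, O ρ i) :
    ∃ μ', Λ.rep (V * swap (S.cell ρ (Sum.inr false)) (S.cell ρ (Sum.inr true))) μ' ∧ |Λ.Φ μ' - Λ.Φ μ| ≤ 1 := by
  by_cases h1 : V (S.cell ρ (Sum.inr false)) = S.h0
  · have := Λ.hole V μ _ hrep (Or.inl h1)
    rwa [← S.pair] at this
  · by_cases h2 : V (S.cell ρ (Sum.inr true)) = S.h0
    · have := Λ.hole V μ (S.cell ρ (Sum.inr false)) hrep (Or.inr (by rw [← S.pair]; exact h2))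
      rwa [← S.pair] at this
    · exact Λ.rule V μ ρ hrep (fun i => hI.lockh ρ i (hO i)) (fun i => hI.lock ρ i (hO i)) h1 h2

theorem Inv.pair_swap {S : Sys L K R} {V : Perm (ZMod L)} {O : R → Fin K → Prop} {r : R → ℕ}
    (hI : Inv S V O r) (ρ : R) :
    Inv S (V * Equiv.swap (S.cell ρ (Sum.inr false)) (S.cell ρ (Sum.inr true))) O r := by
  apply hI.swap
  intro ρ' i _
  constructor
  · intro h; have := S.inj _ _ _ _ h; simp at this
  · intro h; have := S.inj _ _ _ _ h; simp at this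

/-- The gadget `ρ` is fully locked once the courier has arrived. -/
theorem Inv.full {S : Sys L K R} {V : Perm (ZMod L)} {O : R → Fin K → Prop} {r : R → ℕ}
    (hI : Inv S V O r) {ρ : R} (h : K ≤ r ρ) (i : Fin K) : O ρ i := hI.seq ρ i (by have := i.2; omega)

/-- Closure under the moves along the tape. -/
theorem closure_tape {S : Sys L K R} (Λ : Lvl S M) {V : Perm (ZMod L)} {O : R → Fin K → Prop} {r : R → ℕ}
    {μ : M} {σ : Perm (Pt L K R)} (hI : Inv S V O r) (hrep : Λ.rep V μ) (hσ : IsSt S V O r σ) (y : ZMod L)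
    (hY : S.YG.Adj (σ (Sum.inl y)) (σ (Sum.inl (y + 1)))) :
    Nxt S Λ μ (σ * swap (Sum.inl y) (Sum.inl (y + 1))) := by
  rw [hσ, hσ] at hY
  rcases occ_inl_cases S hI y with ⟨ρ, i, hy, hO, ho⟩ | ⟨ρ, hy, hr, ho⟩ | ⟨ρ, hy, hr, ho⟩ | ⟨ho, hfree⟩
  · -- locked cell
    rcases occ_inl_cases S hI (y + 1) with ⟨ρ', i', hy', hO', ho'⟩ | ⟨ρ', hy', hr', ho'⟩ | ⟨ρ', hy', hr', ho'⟩ | ⟨ho', hfree'⟩
    · rw [ho, ho', lift_inr, lift_inr, S.YG_rr] at hY
      simp at hY
    · rw [ho, ho', lift_inr, lift_inr, S.YG_rr] at hY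
      simp at hY
      omega
    · rw [ho, ho', lift_inr, lift_inr, S.YG_rr] at hY
      simp at hY
      omega
    · rw [ho, ho', lift_inr, lift_inl, S.YG_rl] at hY
      obtain ⟨h1, h2⟩ := hY
      exfalso
      rcases h2 with h2 | ⟨j, h2, h3⟩
      · simp at h2
      · have hij : i = j := by apply Fin.ext; simpa using h2
        subst hij
        have hV := hI.lock ρ i hO
        rw [← hy] at hV
        have hh := hI.lockh ρ i hO
        rw [← hy] at hh
        exact Λ.adj V μ y hrep hh h1 (by rw [hV, h3])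
  · -- courier on the first cell of the pair
    have hy1 : y + 1 = S.cell ρ (Sum.inr true) := by rw [hy, S.pair]
    have ho' : occ S O r (Sum.inl (y + 1)) = Sum.inl (y + 1) := by
      rw [hy1]
      have h := occ_emb S O r ρ (Sum.inl (Sum.inr true))
      simp only [Sys.emb] at h
      rw [h]
      simp only [occL]
      rw [if_neg (by omega)]
    refine ⟨V * swap (S.cell ρ (Sum.inr false)) (S.cell ρ (Sum.inr true)), O,
      Function.update r ρ (K + 3), ?_⟩
    obtain ⟨μ', h1, h2⟩ := Λ.pair_swap hI hrep ρ (hI.full (by omega))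
    refine ⟨μ', ?_, h1, ?_, h2⟩
    · have hI' := hI.pair_swap ρ
      refine ⟨?_, hI'.lockh, hI'.lock, ?_⟩
      · intro ρ'
        by_cases h : ρ' = ρ
        · subst h; simp
        · rw [Function.update_of_ne h]; exact hI.rle ρ'
      · intro ρ' j hj
        by_cases h : ρ' = ρ
        · subst h; exact hI.full (by omega) j
        · rw [Function.update_of_ne h] at hj; exact hI.seq ρ' j hj
    · have := hσ.swap_ab ρ (r' := Function.update r ρ (K + 3)) (fun ρ' h => Function.update_of_ne h _ _) hr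
        (by simp)
      rw [hy1, hy]
      exact this
  · -- courier on the second cell
    exfalso
    obtain ⟨i, hi⟩ := S.right ρ
    have hy1 : y + 1 = S.cell ρ (Sum.inl i) := by rw [hy, hi]
    have h := occ_emb S O r ρ (Sum.inl (Sum.inl i))
    simp only [Sys.emb] at h
    rw [hy1, h] at hY
    simp only [occL] at hY
    rw [if_pos (hI.full (by omega) i), ho] at hY
    simp only [Sys.emb, lift_inr] at hY
    rw [S.YG_rr] at hY
    simp at hY
    omega
  · rcases occ_inl_cases S hI (y + 1) with ⟨ρ', i', hy', hO', ho'⟩ | ⟨ρ', hy', hr', ho'⟩ | ⟨ρ', hy', hr', ho'⟩ | ⟨ho', hfree'⟩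
    · rw [ho, ho', lift_inr, lift_inl, S.YG_lr] at hY
      obtain ⟨h1, h2⟩ := hY
      exfalso
      rcases h2 with h2 | ⟨j, h2, h3⟩
      · simp at h2
      · have hij : i' = j := by apply Fin.ext; simpa using h2
        subst hij
        have hV := hI.lock ρ' i' hO'
        rw [← hy'] at hV
        have hh := hI.lockh ρ' i' hO'
        rw [← hy'] at hh
        exact Λ.adj V μ y hrep h1 hh (by rw [hV, h3])
    · -- the courier is on the first cell, and `y` is its left neighbour: locked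
      exfalso
      obtain ⟨i, hi⟩ := S.left ρ'
      have : y = S.cell ρ' (Sum.inl i) := by
        rw [← hi] at hy'
        exact add_right_cancel hy'
      exact hfree ρ' i (hI.full (by omega) i) this.symm
    · -- the courier is on the second cell and moves to the first
      have hy1 : y = S.cell ρ' (Sum.inr false) := by
        rw [S.pair] at hy'
        exact add_right_cancel hy'
      refine ⟨V * swap (S.cell ρ' (Sum.inr false)) (S.cell ρ' (Sum.inr true)), O,
        Function.update r ρ' (K + 2), ?_⟩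
      obtain ⟨μ', h1, h2⟩ := Λ.pair_swap hI hrep ρ' (hI.full (by omega))
      refine ⟨μ', ?_, h1, ?_, h2⟩
      · have hI' := hI.pair_swap ρ'
        refine ⟨?_, hI'.lockh, hI'.lock, ?_⟩
        · intro ρ
          by_cases h : ρ = ρ'
          · subst h; simp
          · rw [Function.update_of_ne h]; exact hI.rle ρ
        · intro ρ j hj
          by_cases h : ρ = ρ'
          · subst h; exact hI.full (by omega) j
          · rw [Function.update_of_ne h] at hj; exact hI.seq ρ j hj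
      · have := hσ.swap_ba ρ' (r' := Function.update r ρ' (K + 2)) (fun ρ' h => Function.update_of_ne h _ _) hr'
          (by simp)
        rw [hy', hy1]
        exact this
    · -- both visible
      rw [ho, ho', lift_inl, lift_inl, S.YG_ll] at hY
      have hh : V y = S.h0 ∨ V (y + 1) = S.h0 := by tauto
      obtain ⟨μ', h1, h2⟩ := Λ.hole V μ y hrep hh
      exact ⟨V * swap y (y + 1), O, r, μ', hI.swap (fun ρ i hi => ⟨hfree ρ i hi, hfree' ρ i hi⟩), h1,
        hσ.swap_tape ho ho', h2⟩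

theorem occ_inr (S : Sys L K R) (O : R → Fin K → Prop) (r : R → ℕ) (ρ : R) (l : Fin (K + 2)) :
    occ S O r (Sum.inr (ρ, l)) = S.emb ρ (occL (O ρ) (r ρ) (Sum.inr l)) := rfl

theorem occ_cell (S : Sys L K R) (O : R → Fin K → Prop) (r : R → ℕ) (ρ : R) (u : Fin K ⊕ Bool) :
    occ S O r (Sum.inl (S.cell ρ u)) = S.emb ρ (occL (O ρ) (r ρ) (Sum.inl u)) := occ_emb S O r ρ (Sum.inl u)

theorem IsSt.gadget {S : Sys L K R} {V : Perm (ZMod L)} {O O' : R → Fin K → Prop} {r r' : R → ℕ}
    {σ : Perm (Pt L K R)} (h : IsSt S V O r σ) (ρ : R)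
    (hne : ∀ ρ', ρ' ≠ ρ → O' ρ' = O ρ' ∧ r' ρ' = r ρ') (u u' : Loc K)
    (hs : ∀ x, occL (O' ρ) (r' ρ) x = occL (O ρ) (r ρ) (swap u u' x)) :
    IsSt S V O' r' (σ * swap (S.emb ρ u) (S.emb ρ u')) :=
  h.swap_gadget (occ_swap S ρ hne u u' hs)

/-- The values of the chain occupants. -/
theorem cc_lt_pos {O : Fin K → Prop} {i : ℕ} (hi : i < K) (h : O ⟨i, hi⟩) :
    cc O i = Sum.inl (Sum.inl ⟨i, hi⟩) := by
  unfold cc; rw [dif_pos hi, if_pos h]

theorem cc_lt_neg {O : Fin K → Prop} {i : ℕ} (hi : i < K) (h : ¬ O ⟨i, hi⟩) :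
    cc O i = Sum.inr ⟨i + 1, by omega⟩ := by
  unfold cc; rw [dif_pos hi, if_neg h]

theorem cc_last {O : Fin K → Prop} {i : ℕ} (hi : ¬ i < K) :
    cc O i = Sum.inr ⟨K + 1, by omega⟩ := by
  unfold cc; rw [dif_neg hi]

theorem occL_lt (O : Fin K → Prop) (r : ℕ) (l : Fin (K + 2)) (h1 : (l : ℕ) < r) (h2 : (l : ℕ) ≤ K) :
    occL O r (Sum.inr l) = cc O l := by
  simp only [occL]; rw [if_pos ⟨h1, h2⟩]

theorem occL_eq (O : Fin K → Prop) (r : ℕ) (l : Fin (K + 2)) (h1 : (l : ℕ) = r) :
    occL O r (Sum.inr l) = Sum.inr ⟨0, by omega⟩ := by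
  simp only [occL]; rw [if_neg (by omega), if_pos h1]

theorem occL_gt (O : Fin K → Prop) (r : ℕ) (l : Fin (K + 2)) (h1 : r < (l : ℕ)) :
    occL O r (Sum.inr l) = cc O (l - 1) := by
  have := l.2
  simp only [occL]; rw [if_neg (by omega), if_neg (by omega), if_neg (by omega), if_neg (by omega)]

/-- Locking a context cell. -/
theorem step_lock {S : Sys L K R} {V : Perm (ZMod L)} {O : R → Fin K → Prop} {r : R → ℕ}
    {σ : Perm (Pt L K R)} (hI : Inv S V O r) (hσ : IsSt S V O r σ) (ρ : R) (i : Fin K) (hr : r ρ ≤ i)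
    (hO : ¬ O ρ i) (hh : V (S.cell ρ (Sum.inl i)) ≠ S.h0) (ht : S.ty (V (S.cell ρ (Sum.inl i))) = S.tau ρ i) :
    Inv S V (fun ρ' j => O ρ' j ∨ (ρ' = ρ ∧ j = i)) r ∧
    IsSt S V (fun ρ' j => O ρ' j ∨ (ρ' = ρ ∧ j = i)) r
      (σ * swap (Sum.inl (S.cell ρ (Sum.inl i))) (Sum.inr (ρ, ⟨i + 1, by omega⟩))) := by
  constructor
  · refine ⟨hI.rle, ?_, ?_, fun ρ' j hj => Or.inl (hI.seq ρ' j hj)⟩
    · rintro ρ' j (h | ⟨rfl, rfl⟩)
      · exact hI.lockh ρ' j h
      · exact hh
    · rintro ρ' j (h | ⟨rfl, rfl⟩)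
      · exact hI.lock ρ' j h
      · exact ht
  · refine hσ.gadget ρ ?_ (Sum.inl (Sum.inl i)) (Sum.inr ⟨i + 1, by omega⟩) ?_
    · intro ρ' hρ'
      refine ⟨?_, rfl⟩
      funext j
      simp [hρ']
    · apply occL_lock _ _ _ i hr hO
      · right; exact ⟨rfl, rfl⟩
      · intro j hj
        simp [hj]

/-- Unlocking a context cell. -/
theorem step_unlock {S : Sys L K R} {V : Perm (ZMod L)} {O : R → Fin K → Prop} {r : R → ℕ}
    {σ : Perm (Pt L K R)} (hI : Inv S V O r) (hσ : IsSt S V O r σ) (ρ : R) (i : Fin K) (hr : r ρ ≤ i)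
    (hO : O ρ i) :
    Inv S V (fun ρ' j => O ρ' j ∧ ¬ (ρ' = ρ ∧ j = i)) r ∧
    IsSt S V (fun ρ' j => O ρ' j ∧ ¬ (ρ' = ρ ∧ j = i)) r
      (σ * swap (Sum.inl (S.cell ρ (Sum.inl i))) (Sum.inr (ρ, ⟨i + 1, by omega⟩))) := by
  constructor
  · refine ⟨hI.rle, ?_, ?_, ?_⟩
    · rintro ρ' j ⟨h, _⟩
      exact hI.lockh ρ' j h
    · rintro ρ' j ⟨h, _⟩
      exact hI.lock ρ' j h
    · intro ρ' j hj
      refine ⟨hI.seq ρ' j hj, ?_⟩
      rintro ⟨rfl, rfl⟩
      omega
  · refine hσ.gadget ρ ?_ (Sum.inl (Sum.inl i)) (Sum.inr ⟨i + 1, by omega⟩) ?_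
    · intro ρ' hρ'
      refine ⟨?_, rfl⟩
      funext j
      simp [hρ']
    · intro x
      have := occL_lock (fun j => O ρ j ∧ ¬ (ρ = ρ ∧ j = i)) (O ρ) (r ρ) i hr (by simp) hO
        (by intro j hj; simp [hj])
        (swap (Sum.inl (Sum.inl i)) (Sum.inr ⟨i + 1, by omega⟩) x)
      rw [swap_swap_apply'] at this
      exact this.symm

/-- The courier moves forward. -/
theorem step_fwd {S : Sys L K R} {V : Perm (ZMod L)} {O : R → Fin K → Prop} {r : R → ℕ}
    {σ : Perm (Pt L K R)} (hI : Inv S V O r) (hσ : IsSt S V O r σ) (ρ : R) (hr : r ρ ≤ K)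
    (hO : ∀ h : r ρ < K, O ρ ⟨r ρ, h⟩) :
    Inv S V O (Function.update r ρ (r ρ + 1)) ∧
    IsSt S V O (Function.update r ρ (r ρ + 1))
      (σ * swap (Sum.inr (ρ, ⟨r ρ, by omega⟩)) (Sum.inr (ρ, ⟨r ρ + 1, by omega⟩))) := by
  constructor
  · refine ⟨?_, hI.lockh, hI.lock, ?_⟩
    · intro ρ'
      by_cases h : ρ' = ρ
      · subst h; rw [Function.update_self]; omega
      · rw [Function.update_of_ne h]; exact hI.rle ρ'
    · intro ρ' j hj
      by_cases h : ρ' = ρ
      · subst h
        rw [Function.update_self] at hj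
        by_cases hj' : (j : ℕ) < r ρ'
        · exact hI.seq _ j hj'
        · have hj2 : (j : ℕ) = r ρ' := by omega
          have := hO (by rw [← hj2]; exact j.2)
          have e : (⟨r ρ', by rw [← hj2]; exact j.2⟩ : Fin K) = j := Fin.ext hj2.symm
          rwa [e] at this
      · rw [Function.update_of_ne h] at hj; exact hI.seq ρ' j hj
  · refine hσ.gadget ρ ?_ (Sum.inr ⟨r ρ, by omega⟩) (Sum.inr ⟨r ρ + 1, by omega⟩) ?_
    · intro ρ' hρ'
      exact ⟨rfl, Function.update_of_ne hρ' _ _⟩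
    · rw [Function.update_self]
      exact occL_move (O ρ) (r ρ) hr

/-- The courier moves backward. -/
theorem step_bwd {S : Sys L K R} {V : Perm (ZMod L)} {O : R → Fin K → Prop} {r : R → ℕ}
    {σ : Perm (Pt L K R)} (hI : Inv S V O r) (hσ : IsSt S V O r σ) (ρ : R) (l : ℕ) (hl : r ρ = l + 1)
    (hr : l ≤ K) :
    Inv S V O (Function.update r ρ l) ∧
    IsSt S V O (Function.update r ρ l)
      (σ * swap (Sum.inr (ρ, ⟨l, by omega⟩)) (Sum.inr (ρ, ⟨l + 1, by omega⟩))) := by
  constructor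
  · refine ⟨?_, hI.lockh, hI.lock, ?_⟩
    · intro ρ'
      by_cases h : ρ' = ρ
      · subst h; rw [Function.update_self]; omega
      · rw [Function.update_of_ne h]; exact hI.rle ρ'
    · intro ρ' j hj
      by_cases h : ρ' = ρ
      · subst h
        rw [Function.update_self] at hj
        exact hI.seq _ j (by omega)
      · rw [Function.update_of_ne h] at hj; exact hI.seq ρ' j hj
  · refine hσ.gadget ρ ?_ (Sum.inr ⟨l, by omega⟩) (Sum.inr ⟨l + 1, by omega⟩) ?_
    · intro ρ' hρ'
      exact ⟨rfl, Function.update_of_ne hρ' _ _⟩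
    · rw [Function.update_self, hl]
      intro x
      have := occL_move (O ρ) l hr (swap (Sum.inr ⟨l, by omega⟩) (Sum.inr ⟨l + 1, by omega⟩) x)
      rw [swap_swap_apply'] at this
      exact this.symm

/-- The courier moves between the last position of its chain and the cell `β` of the pair. -/
theorem step_pair {S : Sys L K R} {V : Perm (ZMod L)} {O : R → Fin K → Prop} {r : R → ℕ}
    {σ : Perm (Pt L K R)} (hI : Inv S V O r) (hσ : IsSt S V O r σ) (ρ : R) (β : Bool) (n : ℕ)
    (h : (r ρ = K + 1 ∧ n = (if β then K + 3 else K + 2)) ∨ (n = K + 1 ∧ r ρ = (if β then K + 3 else K + 2))) :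
    Inv S V O (Function.update r ρ n) ∧
    IsSt S V O (Function.update r ρ n)
      (σ * swap (Sum.inl (S.cell ρ (Sum.inr β))) (Sum.inr (ρ, ⟨K + 1, by omega⟩))) := by
  have hn : K + 1 ≤ n ∧ n ≤ K + 3 := by
    rcases h with ⟨_, h⟩ | ⟨h, _⟩
    · split_ifs at h <;> omega
    · omega
  have hrr : K + 1 ≤ r ρ := by
    rcases h with ⟨h, _⟩ | ⟨_, h⟩
    · omega
    · split_ifs at h <;> omega
  constructor
  · refine ⟨?_, hI.lockh, hI.lock, ?_⟩
    · intro ρ'
      by_cases h : ρ' = ρ
      · subst h; rw [Function.update_self]; omega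
      · rw [Function.update_of_ne h]; exact hI.rle ρ'
    · intro ρ' j hj
      by_cases h : ρ' = ρ
      · subst h
        exact hI.full (by omega) j
      · rw [Function.update_of_ne h] at hj; exact hI.seq ρ' j hj
  · refine hσ.gadget ρ ?_ (Sum.inl (Sum.inr β)) (Sum.inr ⟨K + 1, by omega⟩) ?_
    · intro ρ' hρ'
      exact ⟨rfl, Function.update_of_ne hρ' _ _⟩
    · rw [Function.update_self]
      rcases h with ⟨h1, h2⟩ | ⟨h1, h2⟩
      · cases β
        · simp only [Bool.false_eq_true, if_false] at h2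
          rw [h1, h2]
          exact occL_a (O ρ)
        · simp only [if_true] at h2
          rw [h1, h2]
          exact occL_b (O ρ)
      · cases β
        · simp only [Bool.false_eq_true, if_false] at h2
          rw [h1, h2]
          intro x
          have := occL_a (O ρ) (swap (Sum.inl (Sum.inr false)) (Sum.inr ⟨K + 1, by omega⟩) x)
          rw [swap_swap_apply'] at this
          exact this.symm
        · simp only [if_true] at h2
          rw [h1, h2]
          intro x
          have := occL_b (O ρ) (swap (Sum.inl (Sum.inr true)) (Sum.inr ⟨K + 1, by omega⟩) x)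
          rw [swap_swap_apply'] at this
          exact this.symm

theorem Nxt.same {S : Sys L K R} (Λ : Lvl S M) {V : Perm (ZMod L)} {O : R → Fin K → Prop} {r : R → ℕ}
    {μ : M} {σ : Perm (Pt L K R)} (h : Inv S V O r ∧ IsSt S V O r σ) (hrep : Λ.rep V μ) : Nxt S Λ μ σ :=
  ⟨V, O, r, μ, h.1, hrep, h.2, by simp⟩

/-- Closure under the moves between a context cell and its chain position. -/
theorem closure_ctx {S : Sys L K R} (Λ : Lvl S M) {V : Perm (ZMod L)} {O : R → Fin K → Prop} {r : R → ℕ}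
    {μ : M} {σ : Perm (Pt L K R)} (hI : Inv S V O r) (hrep : Λ.rep V μ) (hσ : IsSt S V O r σ) (ρ : R) (i : Fin K)
    (hY : S.YG.Adj (σ (Sum.inl (S.cell ρ (Sum.inl i)))) (σ (Sum.inr (ρ, ⟨i + 1, by omega⟩)))) :
    Nxt S Λ μ (σ * swap (Sum.inl (S.cell ρ (Sum.inl i))) (Sum.inr (ρ, ⟨i + 1, by omega⟩))) := by
  have hi := i.2
  rw [hσ, hσ, occ_cell, occ_inr] at hY
  by_cases hO : O ρ i
  · have e1 : occL (O ρ) (r ρ) (Sum.inl (Sum.inl i)) = Sum.inr ⟨i + 1, by omega⟩ := by
      simp only [occL]; rw [if_pos hO]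
    rw [e1] at hY
    rcases lt_trichotomy (r ρ) ((i : ℕ) + 1) with h | h | h
    · exact Nxt.same Λ (step_unlock hI hσ ρ i (by omega) hO) hrep
    · rw [occL_eq _ _ _ h.symm] at hY
      simp only [Sys.emb, lift_inr] at hY
      rw [S.YG_rr] at hY
      simp at hY
      try omega
    · rw [occL_lt _ _ _ h (show (i : ℕ) + 1 ≤ K by omega)] at hY
      simp only at hY
      by_cases hi' : (i : ℕ) + 1 < K
      · have hO' := hI.seq ρ ⟨i + 1, hi'⟩ h
        rw [cc_lt_pos hi' hO'] at hY
        simp only [Sys.emb, lift_inr, lift_inl] at hY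
        rw [S.YG_rl] at hY
        obtain ⟨_, h2⟩ := hY
        rcases h2 with h2 | ⟨j, h2, h3⟩
        · simp at h2
        · have hij : i = j := by apply Fin.ext; simpa using h2
          subst hij
          have := hI.lock ρ _ hO'
          rw [this] at h3
          exact absurd h3.symm (S.tau_ne ρ i ⟨i + 1, hi'⟩ rfl)
      · rw [cc_last hi'] at hY
        simp only [Sys.emb, lift_inr] at hY
        rw [S.YG_rr] at hY
        simp at hY
  · have hr : r ρ ≤ i := by
      by_contra hc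
      exact hO (hI.seq ρ i (by omega))
    have e1 : occL (O ρ) (r ρ) (Sum.inl (Sum.inl i)) = Sum.inl (Sum.inl i) := by
      simp only [occL]; rw [if_neg hO]
    rw [e1, occL_gt _ _ _ (by simp; omega)] at hY
    simp only [Nat.add_sub_cancel] at hY
    rw [cc_lt_neg hi (by simpa using hO)] at hY
    simp only [Sys.emb, lift_inr, lift_inl] at hY
    rw [S.YG_lr] at hY
    obtain ⟨h1, h2⟩ := hY
    rcases h2 with h2 | ⟨j, h2, h3⟩
    · simp at h2
    · have hij : i = j := by apply Fin.ext; simpa using h2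
      subst hij
      exact Nxt.same Λ (step_lock hI hσ ρ i hr hO h1 h3) hrep

/-- Closure under the moves on a chain. -/
theorem closure_chain {S : Sys L K R} (Λ : Lvl S M) {V : Perm (ZMod L)} {O : R → Fin K → Prop} {r : R → ℕ}
    {μ : M} {σ : Perm (Pt L K R)} (hI : Inv S V O r) (hrep : Λ.rep V μ) (hσ : IsSt S V O r σ) (ρ : R) (l : ℕ)
    (hl : l ≤ K)
    (hY : S.YG.Adj (σ (Sum.inr (ρ, ⟨l, by omega⟩))) (σ (Sum.inr (ρ, ⟨l + 1, by omega⟩)))) :
    Nxt S Λ μ (σ * swap (Sum.inr (ρ, ⟨l, by omega⟩)) (Sum.inr (ρ, ⟨l + 1, by omega⟩))) := by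
  rw [hσ, hσ, occ_inr, occ_inr] at hY
  have hK := S.Kpos
  rcases lt_trichotomy (r ρ) l with h | h | h
  · -- the courier is before `l`
    exfalso
    rw [occL_gt _ _ _ (show r ρ < l from h), occL_gt _ _ _ (show r ρ < l + 1 by omega)] at hY
    simp only [Nat.add_sub_cancel] at hY
    have h1 : l - 1 < K := by omega
    by_cases hO : O ρ ⟨l - 1, h1⟩
    · rw [cc_lt_pos h1 hO] at hY
      by_cases h2 : l < K
      · by_cases hO' : O ρ ⟨l, h2⟩
        · rw [cc_lt_pos h2 hO'] at hY
          simp only [Sys.emb, lift_inl] at hY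
          rw [S.YG_ll] at hY
          have a1 := hI.lockh ρ _ hO
          have a2 := hI.lockh ρ _ hO'
          tauto
        · rw [cc_lt_neg h2 hO'] at hY
          simp only [Sys.emb, lift_inl, lift_inr] at hY
          rw [S.YG_lr] at hY
          obtain ⟨_, h3⟩ := hY
          rcases h3 with h3 | ⟨j, h3, h4⟩
          · simp at h3
          · have hij : (j : ℕ) = l := by simp at h3; omega
            have := hI.lock ρ _ hO
            rw [this] at h4
            exact S.tau_ne ρ ⟨l - 1, h1⟩ j (by simp; omega) h4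
      · rw [cc_last h2] at hY
        simp only [Sys.emb, lift_inl, lift_inr] at hY
        rw [S.YG_lr] at hY
        obtain ⟨_, h3⟩ := hY
        rcases h3 with h3 | ⟨j, h3, h4⟩
        · simp at h3
        · have := j.2
          simp at h3; omega
    · rw [cc_lt_neg h1 hO] at hY
      by_cases h2 : l < K
      · by_cases hO' : O ρ ⟨l, h2⟩
        · rw [cc_lt_pos h2 hO'] at hY
          simp only [Sys.emb, lift_inl, lift_inr] at hY
          rw [S.YG_rl] at hY
          obtain ⟨_, h3⟩ := hY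
          rcases h3 with h3 | ⟨j, h3, h4⟩
          · simp at h3
          · have hij : (j : ℕ) + 1 = l := by simp at h3; omega
            have := hI.lock ρ _ hO'
            rw [this] at h4
            exact S.tau_ne ρ j ⟨l, h2⟩ (by simp; omega) h4.symm
        · rw [cc_lt_neg h2 hO'] at hY
          simp only [Sys.emb, lift_inr] at hY
          rw [S.YG_rr] at hY
          simp at hY
      · rw [cc_last h2] at hY
        simp only [Sys.emb, lift_inr] at hY
        rw [S.YG_rr] at hY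
        simp at hY
  · -- the courier is at `l`
    have hO : ∀ h' : l < K, O ρ ⟨l, h'⟩ := by
      intro h'
      by_contra hc
      rw [occL_eq _ _ _ (show l = r ρ from h.symm), occL_gt _ _ _ (show r ρ < l + 1 by omega)] at hY
      simp only [Nat.add_sub_cancel] at hY
      rw [cc_lt_neg h' hc] at hY
      simp only [Sys.emb, lift_inr] at hY
      rw [S.YG_rr] at hY
      simp at hY
      omega
    subst h
    exact Nxt.same Λ (step_fwd hI hσ ρ hl hO) hrep
  · by_cases h' : r ρ = l + 1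
    · exact Nxt.same Λ (step_bwd hI hσ ρ l h' hl) hrep
    · exfalso
      rw [occL_lt _ _ _ (show l < r ρ from h) hl] at hY
      simp only at hY
      by_cases h2 : l < K
      · rw [occL_lt _ _ _ (show l + 1 < r ρ by omega) (show l + 1 ≤ K by omega)] at hY
        have hO := hI.seq ρ ⟨l, h2⟩ h
        rw [cc_lt_pos h2 hO] at hY
        simp only at hY
        by_cases h3 : l + 1 < K
        · have hO' := hI.seq ρ ⟨l + 1, h3⟩ (show l + 1 < r ρ by omega)
          rw [cc_lt_pos h3 hO'] at hY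
          simp only [Sys.emb, lift_inl] at hY
          rw [S.YG_ll] at hY
          have a1 := hI.lockh ρ _ hO
          have a2 := hI.lockh ρ _ hO'
          tauto
        · rw [cc_last h3] at hY
          simp only [Sys.emb, lift_inl, lift_inr] at hY
          rw [S.YG_lr] at hY
          obtain ⟨_, h3⟩ := hY
          rcases h3 with h3 | ⟨j, h3, h4⟩
          · simp at h3
          · have := j.2
            simp at h3; omega
      · rw [cc_last h2] at hY
        have hlK : l = K := by omega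
        subst hlK
        have hrle := hI.rle ρ
        have : r ρ = l + 2 ∨ r ρ = l + 3 := by omega
        rcases this with h3 | h3
        · have e : occL (O ρ) (r ρ) (Sum.inr ⟨l + 1, by omega⟩) = Sum.inl (Sum.inr false) := by
            simp only [occL]
            rw [if_neg (by omega), if_neg (by omega), if_pos h3]
          rw [e] at hY
          simp only [Sys.emb, lift_inl, lift_inr] at hY
          rw [S.YG_rl] at hY
          obtain ⟨_, h3⟩ := hY
          rcases h3 with h3 | ⟨j, h3, h4⟩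
          · simp at h3
          · have := j.2
            simp at h3; omega
        · have e : occL (O ρ) (r ρ) (Sum.inr ⟨l + 1, by omega⟩) = Sum.inl (Sum.inr true) := by
            simp only [occL]
            rw [if_neg (by omega), if_neg (by omega), if_neg (by omega), if_pos h3]
          rw [e] at hY
          simp only [Sys.emb, lift_inl, lift_inr] at hY
          rw [S.YG_rl] at hY
          obtain ⟨_, h3⟩ := hY
          rcases h3 with h3 | ⟨j, h3, h4⟩
          · simp at h3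
          · have := j.2
            simp at h3; omega

theorem occL_top (O : Fin K → Prop) (r : ℕ) (hK : 0 < K) :
    occL O r (Sum.inr ⟨K + 1, by omega⟩) =
      if K + 1 = r then Sum.inr ⟨0, by omega⟩ else if r = K + 2 then Sum.inl (Sum.inr false)
        else if r = K + 3 then Sum.inl (Sum.inr true) else Sum.inr ⟨K + 1, by omega⟩ := by
  simp only [occL]
  rw [if_neg (by omega)]
  simp only [Nat.add_sub_cancel]
  rw [cc_last (lt_irrefl K)]

/-- Closure under the moves between the pair and the last position of the chain. -/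
theorem closure_pair {S : Sys L K R} (Λ : Lvl S M) {V : Perm (ZMod L)} {O : R → Fin K → Prop} {r : R → ℕ}
    {μ : M} {σ : Perm (Pt L K R)} (hI : Inv S V O r) (hrep : Λ.rep V μ) (hσ : IsSt S V O r σ) (ρ : R) (β : Bool)
    (hY : S.YG.Adj (σ (Sum.inl (S.cell ρ (Sum.inr β)))) (σ (Sum.inr (ρ, ⟨K + 1, by omega⟩)))) :
    Nxt S Λ μ (σ * swap (Sum.inl (S.cell ρ (Sum.inr β))) (Sum.inr (ρ, ⟨K + 1, by omega⟩))) := by
  rw [hσ, hσ, occ_cell, occ_inr, occL_top _ _ S.Kpos] at hY
  have hrle := hI.rle ρ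
  by_cases h1 : r ρ = K + 1
  · exact Nxt.same Λ (step_pair hI hσ ρ β (if β then K + 3 else K + 2) (Or.inl ⟨h1, rfl⟩)) hrep
  · by_cases h2 : r ρ = K + 2
    · cases β
      · exact Nxt.same Λ (step_pair hI hσ ρ false (K + 1) (Or.inr ⟨rfl, by simpa using h2⟩)) hrep
      · obtain ⟨μ', m1, m2⟩ := Λ.pair_swap hI hrep ρ (hI.full (by omega))
        refine ⟨_, O, r, μ', hI.pair_swap ρ, m1, ?_, m2⟩
        rw [swap_comm]
        rw [swap_comm (Sum.inl (S.cell ρ (Sum.inr true)))]
        have := hσ.swap_tape (x := Sum.inr (ρ, ⟨K + 1, by omega⟩)) (x' := Sum.inl (S.cell ρ (Sum.inr true)))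
          (y := S.cell ρ (Sum.inr false)) (y' := S.cell ρ (Sum.inr true))
          (by rw [occ_inr, occL_top _ _ S.Kpos, if_neg (by omega), if_pos h2]; rfl)
          (by rw [occ_cell]; simp only [occL]; rw [if_neg (by omega)]; rfl)
        rw [swap_comm (S.cell ρ (Sum.inr true))]
        exact this
    · by_cases h3 : r ρ = K + 3
      · cases β
        · obtain ⟨μ', m1, m2⟩ := Λ.pair_swap hI hrep ρ (hI.full (by omega))
          refine ⟨_, O, r, μ', hI.pair_swap ρ, m1, ?_, m2⟩
          exact hσ.swap_tape (x := Sum.inl (S.cell ρ (Sum.inr false))) (x' := Sum.inr (ρ, ⟨K + 1, by omega⟩))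
            (y := S.cell ρ (Sum.inr false)) (y' := S.cell ρ (Sum.inr true))
            (by rw [occ_cell]; simp only [occL]; rw [if_neg (by omega)]; rfl)
            (by rw [occ_inr, occL_top _ _ S.Kpos, if_neg (by omega), if_neg (by omega), if_pos h3]; rfl)
        · exact Nxt.same Λ (step_pair hI hσ ρ true (K + 1) (Or.inr ⟨rfl, by simpa using h3⟩)) hrep
      · exfalso
        rw [if_neg (by omega), if_neg h2, if_neg h3] at hY
        have e : occL (O ρ) (r ρ) (Sum.inl (Sum.inr β)) = Sum.inl (Sum.inr β) := by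
          cases β
          · simp only [occL]; rw [if_neg h2]
          · simp only [occL]; rw [if_neg h3]
        rw [e] at hY
        simp only [Sys.emb, lift_inl, lift_inr] at hY
        rw [S.YG_lr] at hY
        obtain ⟨_, h3⟩ := hY
        rcases h3 with h3 | ⟨j, h3, h4⟩
        · simp at h3
        · have := j.2
          simp at h3; omega

/-- Closure of the good configurations. -/
theorem closure {S : Sys L K R} (Λ : Lvl S M) {V : Perm (ZMod L)} {O : R → Fin K → Prop} {r : R → ℕ}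
    {μ : M} {σ σ' : Perm (Pt L K R)} (hI : Inv S V O r) (hrep : Λ.rep V μ) (hσ : IsSt S V O r σ)
    (hadj : (FS S.XG S.YG).Adj σ σ') : Nxt S Λ μ σ' := by
  rw [FS_adj] at hadj
  obtain ⟨x, x', hX, hY, rfl⟩ := hadj
  have key : ∀ x x' : Pt L K R, S.XR x x' → S.YG.Adj (σ x) (σ x') → Nxt S Λ μ (σ * swap x x') := by
    rintro (y | ⟨ρ, ⟨l, hl⟩⟩) (y' | ⟨ρ', ⟨l', hl'⟩⟩) hx hy
    · simp only [Sys.XR] at hx
      subst hx
      exact closure_tape Λ hI hrep hσ y hy
    · simp only [Sys.XR] at hx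
      rcases hx with ⟨i, rfl, h⟩ | ⟨β, rfl, h⟩
      · subst h
        exact closure_ctx Λ hI hrep hσ ρ' i hy
      · subst h
        exact closure_pair Λ hI hrep hσ ρ' β hy
    · exact absurd hx (by simp [Sys.XR])
    · simp only [Sys.XR] at hx
      obtain ⟨rfl, h⟩ := hx
      subst h
      exact closure_chain Λ hI hrep hσ ρ l (by omega) hy
  rcases S.XG_adj hX with h | h
  · exact key x x' h hY
  · rw [swap_comm]
    exact key x' x h hY.symm

/-- Walks from a good configuration stay good, and the potential changes by at most the length. -/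
theorem walk_bound {S : Sys L K R} (Λ : Lvl S M) {σ τ : Perm (Pt L K R)} (w : (FS S.XG S.YG).Walk σ τ) :
    ∀ (V : Perm (ZMod L)) (O : R → Fin K → Prop) (r : R → ℕ) (μ : M), Inv S V O r → Λ.rep V μ →
      IsSt S V O r σ → ∃ V' O' r' μ', Inv S V' O' r' ∧ Λ.rep V' μ' ∧ IsSt S V' O' r' τ ∧
        |Λ.Φ μ' - Λ.Φ μ| ≤ w.length := by
  induction w with
  | nil =>
    intro V O r μ hI hrep hσ
    exact ⟨V, O, r, μ, hI, hrep, hσ, by simp⟩
  | cons h p ih =>
    intro V O r μ hI hrep hσ
    obtain ⟨V1, O1, r1, μ1, hI1, hrep1, hσ1, hb1⟩ := closure Λ hI hrep hσ h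
    obtain ⟨V2, O2, r2, μ2, hI2, hrep2, hσ2, hb2⟩ := ih V1 O1 r1 μ1 hI1 hrep1 hσ1
    refine ⟨V2, O2, r2, μ2, hI2, hrep2, hσ2, ?_⟩
    rw [SimpleGraph.Walk.length_cons]
    push_cast
    have := abs_sub_le (Λ.Φ μ2) (Λ.Φ μ1) (Λ.Φ μ)
    linarith

theorem occ_idle (S : Sys L K R) (x : Pt L K R) : occ S (fun _ _ => False) (fun _ => 0) x = x := by
  have key : ∀ ρ v, x = S.emb ρ v → occ S (fun _ _ => False) (fun _ => 0) x = x := by
    rintro ρ v rfl
    rw [occ_emb]
    congr 1
    rcases v with (i | β) | l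
    · simp [occL]
    · cases β <;> simp [occL]
    · have hl := l.2
      by_cases h0 : (l : ℕ) = 0
      · rw [occL_eq _ _ _ h0]
        congr 1
        exact Fin.ext h0.symm
      · rw [occL_gt _ _ _ (by omega)]
        by_cases h1 : (l : ℕ) - 1 < K
        · rw [cc_lt_neg h1 (by simp)]
          congr 1
          apply Fin.ext
          simp only
          omega
        · rw [cc_last h1]
          congr 1
          apply Fin.ext
          simp only
          omega
  rcases x with y | ⟨ρ, l⟩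
  · by_cases hy : ∃ ρ v, S.cell ρ v = y
    · obtain ⟨ρ, v, rfl⟩ := hy
      exact key ρ (Sum.inl v) rfl
    · exact occ_free _ _ _ _ (fun ρ v h => hy ⟨ρ, v, h⟩)
  · exact key ρ (Sum.inr l) rfl

theorem idle_isSt (S : Sys L K R) (V : Perm (ZMod L)) : IsSt S V (fun _ _ => False) (fun _ => 0) (lift V) := by
  intro x
  rw [occ_idle]

theorem idle_inv (S : Sys L K R) (V : Perm (ZMod L)) : Inv S V (fun _ _ => False) (fun _ => 0) :=
  ⟨fun _ => by omega, fun _ _ h => h.elim, fun _ _ h => h.elim, fun _ _ h => by omega⟩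

theorem idle_unique {S : Sys L K R} {V V1 : Perm (ZMod L)} {O : R → Fin K → Prop} {r : R → ℕ}
    (hI : Inv S V O r) (h : IsSt S V O r (lift V1)) : V = V1 := by
  have hK := S.Kpos
  have hr : ∀ ρ, r ρ = 0 := by
    intro ρ
    by_contra hc
    have h1 := h (Sum.inr (ρ, ⟨0, by omega⟩))
    rw [occ_inr, occL_lt _ _ _ (show 0 < r ρ by omega) (by simp)] at h1
    simp only at h1
    rw [cc_lt_pos hK (hI.seq ρ ⟨0, hK⟩ (show 0 < r ρ by omega))] at h1
    simp [Sys.emb] at h1
  have hO : ∀ ρ i, ¬ O ρ i := by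
    intro ρ i hO
    have h1 := h (Sum.inr (ρ, ⟨i + 1, by omega⟩))
    rw [occ_inr, occL_gt _ _ _ (show r ρ < i + 1 by rw [hr ρ]; omega)] at h1
    simp only [Nat.add_sub_cancel] at h1
    rw [cc_lt_pos i.2 hO] at h1
    simp [Sys.emb] at h1
  apply Equiv.ext
  intro y
  have h1 := h (Sum.inl y)
  rcases occ_inl_cases S hI y with ⟨ρ, i, _, ho, _⟩ | ⟨ρ, _, ho, _⟩ | ⟨ρ, _, ho, _⟩ | ⟨ho, _⟩
  · exact absurd ho (hO ρ i)
  · rw [hr ρ] at ho; omega
  · rw [hr ρ] at ho; omega
  · rw [ho] at h1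
    simpa using h1.symm

/-- The lower bound for distances between idle configurations. -/
theorem dist_lower {S : Sys L K R} (Λ : Lvl S M) {V V1 : Perm (ZMod L)} {μ : M} (hrep : Λ.rep V μ)
    (w : (FS S.XG S.YG).Walk (lift V) (lift V1)) : ∃ μ', Λ.rep V1 μ' ∧ |Λ.Φ μ' - Λ.Φ μ| ≤ w.length := by
  obtain ⟨V', O', r', μ', hI, hr, hσ, hb⟩ := walk_bound Λ w V _ _ μ (idle_inv S V) hrep (idle_isSt S V)
  have := idle_unique hI hσ
  subst this
  exact ⟨μ', hr, hb⟩

/-! ### Reachability -/

theorem adj_mul {S : Sys L K R} {σ : Perm (Pt L K R)} {x x' : Pt L K R} (hX : S.XG.Adj x x')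
    (hY : S.YG.Adj (σ x) (σ x')) : (FS S.XG S.YG).Adj σ (σ * swap x x') := by
  rw [FS_adj]
  exact ⟨x, x', hX, hY, rfl⟩

theorem XG_tape (S : Sys L K R) (hL : (1 : ZMod L) ≠ 0) (y : ZMod L) :
    S.XG.Adj (Sum.inl y) (Sum.inl (y + 1)) := by
  unfold Sys.XG
  rw [SimpleGraph.fromRel_adj]
  refine ⟨?_, Or.inl rfl⟩
  intro h
  have := Sum.inl_injective h
  exact hL (by simpa using this)

theorem XG_ctx (S : Sys L K R) (ρ : R) (i : Fin K) :
    S.XG.Adj (Sum.inl (S.cell ρ (Sum.inl i))) (Sum.inr (ρ, ⟨i + 1, by omega⟩)) := by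
  unfold Sys.XG
  rw [SimpleGraph.fromRel_adj]
  refine ⟨by simp, Or.inl (Or.inl ⟨i, rfl, rfl⟩)⟩

theorem XG_pair (S : Sys L K R) (ρ : R) (β : Bool) :
    S.XG.Adj (Sum.inl (S.cell ρ (Sum.inr β))) (Sum.inr (ρ, ⟨K + 1, by omega⟩)) := by
  unfold Sys.XG
  rw [SimpleGraph.fromRel_adj]
  refine ⟨by simp, Or.inl (Or.inr ⟨β, rfl, rfl⟩)⟩

theorem XG_chain (S : Sys L K R) (ρ : R) (l : ℕ) (hl : l ≤ K) :
    S.XG.Adj (Sum.inr (ρ, ⟨l, by omega⟩)) (Sum.inr (ρ, ⟨l + 1, by omega⟩)) := by
  unfold Sys.XG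
  rw [SimpleGraph.fromRel_adj]
  refine ⟨by simp, Or.inl ⟨rfl, rfl⟩⟩

theorem lift_mul (V : Perm (ZMod L)) (y y' : ZMod L) :
    (lift (V * swap y y') : Perm (Pt L K R)) = lift V * swap (Sum.inl y) (Sum.inl y') := by
  apply Equiv.ext
  intro z
  rw [Perm.mul_apply, lift_swap]

/-- The hole moves. -/
theorem adj_hole (S : Sys L K R) (hL : (1 : ZMod L) ≠ 0) (V : Perm (ZMod L)) (y : ZMod L)
    (h : V y = S.h0 ∨ V (y + 1) = S.h0) : (FS S.XG S.YG).Adj (lift V) (lift (V * swap y (y + 1))) := by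
  rw [lift_mul]
  apply adj_mul (XG_tape S hL y)
  rw [lift_inl, lift_inl, S.YG_ll]
  have hne : y ≠ y + 1 := fun h => hL (by simpa using h)
  rcases h with h | h
  · left
    refine ⟨h, ?_⟩
    intro h'
    exact hne (V.injective (h.trans h'.symm))
  · right
    refine ⟨h, ?_⟩
    intro h'
    exact hne (V.injective (h'.trans h.symm))

theorem IsSt.unique {S : Sys L K R} {V : Perm (ZMod L)} {O : R → Fin K → Prop} {r : R → ℕ}
    {σ σ' : Perm (Pt L K R)} (h : IsSt S V O r σ) (h' : IsSt S V O r σ') : σ = σ' := by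
  apply Equiv.ext
  intro x
  rw [h, h']

theorem occL_ctx_neg (O : Fin K → Prop) (r : ℕ) (i : Fin K) (h : ¬ O i) :
    occL O r (Sum.inl (Sum.inl i)) = Sum.inl (Sum.inl i) := by
  simp only [occL]; rw [if_neg h]

theorem reach_locked (S : Sys L K R) (V : Perm (ZMod L)) (ρ : R)
    (hh : ∀ i, V (S.cell ρ (Sum.inl i)) ≠ S.h0) (ht : ∀ i, S.ty (V (S.cell ρ (Sum.inl i))) = S.tau ρ i)
    (t : ℕ) (htK : t ≤ K) : ∃ σ, (FS S.XG S.YG).Reachable (lift V) σ ∧
      Inv S V (fun ρ' j => ρ' = ρ ∧ (j : ℕ) < t) (fun _ => 0) ∧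
      IsSt S V (fun ρ' j => ρ' = ρ ∧ (j : ℕ) < t) (fun _ => 0) σ := by
  induction t with
  | zero =>
    refine ⟨lift V, SimpleGraph.Reachable.refl _, ?_⟩
    have e : (fun (ρ' : R) (j : Fin K) => ρ' = ρ ∧ (j : ℕ) < 0) = fun _ _ => False := by
      funext ρ' j; simp
    rw [e]
    exact ⟨idle_inv S V, idle_isSt S V⟩
  | succ t ih =>
    obtain ⟨σ, h1, hI, hσ⟩ := ih (by omega)
    have hstep := step_lock hI hσ ρ ⟨t, by omega⟩ (by simp) (by simp) (hh _) (ht _)
    have e : (fun (ρ' : R) (j : Fin K) => (ρ' = ρ ∧ (j : ℕ) < t) ∨ (ρ' = ρ ∧ j = ⟨t, by omega⟩)) =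
        fun (ρ' : R) (j : Fin K) => ρ' = ρ ∧ (j : ℕ) < t + 1 := by
      funext ρ' j
      apply propext
      have : j = (⟨t, by omega⟩ : Fin K) ↔ (j : ℕ) = t := by
        constructor
        · intro h; rw [h]
        · intro h; exact Fin.ext h
      rw [this]
      constructor
      · rintro (⟨h, h'⟩ | ⟨h, h'⟩) <;> exact ⟨h, by omega⟩
      · rintro ⟨h, h'⟩
        by_cases h'' : (j : ℕ) = t
        · right; exact ⟨h, h''⟩
        · left; exact ⟨h, by omega⟩
    rw [e] at hstep
    refine ⟨_, ?_, hstep.1, hstep.2⟩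
    apply h1.trans
    apply SimpleGraph.Adj.reachable
    apply adj_mul (XG_ctx S ρ ⟨t, by omega⟩)
    rw [hσ, hσ, occ_cell, occ_inr, occL_gt _ _ _ (by simp)]
    simp only [Nat.add_sub_cancel]
    rw [cc_lt_neg (show t < K by omega) (by simp)]
    rw [occL_ctx_neg _ _ _ (by simp)]
    simp only [Sys.emb, lift_inl, lift_inr]
    rw [S.YG_lr]
    exact ⟨hh _, Or.inr ⟨⟨t, by omega⟩, rfl, ht _⟩⟩

theorem reach_courier (S : Sys L K R) (V : Perm (ZMod L)) (ρ : R)
    (hh : ∀ i, V (S.cell ρ (Sum.inl i)) ≠ S.h0) (ht : ∀ i, S.ty (V (S.cell ρ (Sum.inl i))) = S.tau ρ i)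
    (t : ℕ) (htK : t ≤ K + 1) : ∃ σ, (FS S.XG S.YG).Reachable (lift V) σ ∧
      Inv S V (fun ρ' _ => ρ' = ρ) (Function.update (fun _ => 0) ρ t) ∧
      IsSt S V (fun ρ' _ => ρ' = ρ) (Function.update (fun _ => 0) ρ t) σ := by
  induction t with
  | zero =>
    obtain ⟨σ, h1, hI, hσ⟩ := reach_locked S V ρ hh ht K le_rfl
    have e : (fun (ρ' : R) (j : Fin K) => ρ' = ρ ∧ (j : ℕ) < K) = fun ρ' _ => ρ' = ρ := by
      funext ρ' j; simp
    rw [e] at hI hσ
    have e2 : Function.update (fun _ : R => 0) ρ 0 = fun _ => 0 := by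
      funext x; by_cases h : x = ρ
      · subst h; simp
      · simp [h]
    rw [e2]
    exact ⟨σ, h1, hI, hσ⟩
  | succ t ih =>
    obtain ⟨σ, h1, hI, hσ⟩ := ih (by omega)
    have hr : (Function.update (fun _ : R => 0) ρ t) ρ = t := by simp
    have hstep := step_fwd hI hσ ρ (by rw [hr]; omega) (fun _ => rfl)
    simp only [hr, Function.update_idem] at hstep
    refine ⟨_, ?_, hstep.1, hstep.2⟩
    apply h1.trans
    apply SimpleGraph.Adj.reachable
    apply adj_mul (XG_chain S ρ t (by omega))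
    rw [hσ, hσ, occ_inr, occ_inr, occL_eq _ _ _ (show t = _ by rw [hr]),
      occL_gt _ _ _ (show _ < t + 1 by rw [hr]; omega)]
    simp only [Nat.add_sub_cancel]
    by_cases h : t < K
    · rw [cc_lt_pos h trivial]
      simp only [Sys.emb, lift_inl, lift_inr]
      rw [S.YG_rl]
      exact ⟨hh _, Or.inl rfl⟩
    · rw [cc_last h]
      simp only [Sys.emb, lift_inr]
      rw [S.YG_rr]
      exact ⟨rfl, Or.inl ⟨rfl, rfl⟩⟩

/-- The rules can be applied. -/
theorem reach_rule (S : Sys L K R) (hL : (1 : ZMod L) ≠ 0) (V : Perm (ZMod L)) (ρ : R)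
    (hh : ∀ i, V (S.cell ρ (Sum.inl i)) ≠ S.h0) (ht : ∀ i, S.ty (V (S.cell ρ (Sum.inl i))) = S.tau ρ i)
    (ha : V (S.cell ρ (Sum.inr false)) ≠ S.h0) (hb : V (S.cell ρ (Sum.inr true)) ≠ S.h0) :
    (FS S.XG S.YG).Reachable (lift V)
      (lift (V * swap (S.cell ρ (Sum.inr false)) (S.cell ρ (Sum.inr true)))) := by
  obtain ⟨σ, h1, hI, hσ⟩ := reach_courier S V ρ hh ht (K + 1) le_rfl
  set V' := V * swap (S.cell ρ (Sum.inr false)) (S.cell ρ (Sum.inr true)) with hV'
  have hsame : ∀ i, V' (S.cell ρ (Sum.inl i)) = V (S.cell ρ (Sum.inl i)) := by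
    intro i
    rw [hV', Perm.mul_apply, swap_apply_of_ne_of_ne]
    · intro h; have := S.inj _ _ _ _ h; simp at this
    · intro h; have := S.inj _ _ _ _ h; simp at this
  obtain ⟨σ', h1', hI', hσ'⟩ := reach_courier S V' ρ (fun i => by rw [hsame]; exact hh i)
    (fun i => by rw [hsame]; exact ht i) (K + 1) le_rfl
  have hr : (Function.update (fun _ : R => 0) ρ (K + 1)) ρ = K + 1 := by simp
  -- first step: the courier enters the first cell
  have s1 := step_pair hI hσ ρ false (K + 2) (Or.inl ⟨hr, by simp⟩)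
  rw [Function.update_idem] at s1
  have a1 : (FS S.XG S.YG).Adj σ (σ * swap (Sum.inl (S.cell ρ (Sum.inr false))) (Sum.inr (ρ, ⟨K + 1, by omega⟩))) := by
    apply adj_mul (XG_pair S ρ false)
    rw [hσ, hσ, occ_cell, occ_inr, occL_top _ _ S.Kpos, if_pos hr.symm]
    have e : occL (fun _ : Fin K => ρ = ρ) ((Function.update (fun _ : R => 0) ρ (K + 1)) ρ)
        (Sum.inl (Sum.inr false)) = Sum.inl (Sum.inr false) := by
      simp only [occL]; rw [if_neg (by rw [hr]; omega)]
    rw [e]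
    simp only [Sys.emb, lift_inl, lift_inr]
    rw [S.YG_lr]
    exact ⟨ha, Or.inl rfl⟩
  -- second step: it moves to the second cell
  have hr2 : (Function.update (fun _ : R => 0) ρ (K + 2)) ρ = K + 2 := by simp
  have hr3 : (Function.update (fun _ : R => 0) ρ (K + 3)) ρ = K + 3 := by simp
  have s2 := s1.2.swap_ab ρ (r' := Function.update (fun _ => 0) ρ (K + 3))
    (fun ρ' h => by rw [Function.update_of_ne h, Function.update_of_ne h]) hr2 hr3
  set σ1 := σ * swap (Sum.inl (S.cell ρ (Sum.inr false))) (Sum.inr (ρ, ⟨K + 1, by omega⟩)) with hσ1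
  have a2 : (FS S.XG S.YG).Adj σ1 (σ1 * swap (Sum.inl (S.cell ρ (Sum.inr false)))
      (Sum.inl (S.cell ρ (Sum.inr true)))) := by
    have hX := XG_tape S hL (S.cell ρ (Sum.inr false))
    rw [← S.pair] at hX
    apply adj_mul hX
    rw [s1.2, s1.2, occ_cell, occ_cell]
    have e1 : occL (fun _ : Fin K => ρ = ρ) ((Function.update (fun _ : R => 0) ρ (K + 2)) ρ)
        (Sum.inl (Sum.inr false)) = Sum.inr ⟨0, by omega⟩ := by
      simp only [occL]; rw [if_pos hr2]
    have e2 : occL (fun _ : Fin K => ρ = ρ) ((Function.update (fun _ : R => 0) ρ (K + 2)) ρ)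
        (Sum.inl (Sum.inr true)) = Sum.inl (Sum.inr true) := by
      simp only [occL]; rw [if_neg (by rw [hr2]; omega)]
    rw [e1, e2]
    simp only [Sys.emb, lift_inl, lift_inr]
    rw [S.YG_rl]
    exact ⟨hb, Or.inl rfl⟩
  -- third step: back to the chain
  have hI2 : Inv S V' (fun ρ' _ => ρ' = ρ) (Function.update (fun _ => 0) ρ (K + 3)) := by
    have := s1.1.pair_swap ρ
    refine ⟨?_, this.lockh, this.lock, ?_⟩
    · intro ρ'
      by_cases h : ρ' = ρ
      · subst h; rw [hr3]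
      · rw [Function.update_of_ne h]; omega
    · intro ρ' j hj
      by_cases h : ρ' = ρ
      · exact h
      · rw [Function.update_of_ne h] at hj; omega
  have s3 := step_pair hI2 s2 ρ true (K + 1) (Or.inr ⟨rfl, by rw [hr3]; simp⟩)
  rw [Function.update_idem] at s3
  set σ2 := σ1 * swap (Sum.inl (S.cell ρ (Sum.inr false))) (Sum.inl (S.cell ρ (Sum.inr true))) with hσ2
  have a3 : (FS S.XG S.YG).Adj σ2 (σ2 * swap (Sum.inl (S.cell ρ (Sum.inr true)))
      (Sum.inr (ρ, ⟨K + 1, by omega⟩))) := by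
    apply adj_mul (XG_pair S ρ true)
    rw [s2, s2, occ_cell, occ_inr, occL_top _ _ S.Kpos, if_neg (by rw [hr3]; omega),
      if_neg (by rw [hr3]; omega), if_pos hr3]
    have e1 : occL (fun _ : Fin K => ρ = ρ) ((Function.update (fun _ : R => 0) ρ (K + 3)) ρ)
        (Sum.inl (Sum.inr true)) = Sum.inr ⟨0, by omega⟩ := by
      simp only [occL]; rw [if_pos hr3]
    rw [e1]
    simp only [Sys.emb, lift_inl, lift_inr]
    rw [S.YG_rl]
    refine ⟨?_, Or.inl rfl⟩
    rw [Perm.mul_apply, swap_apply_right]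
    exact ha
  have e := s3.2.unique hσ'
  rw [e] at a3
  exact h1.trans (a1.reachable.trans (a2.reachable.trans (a3.reachable.trans h1'.symm)))

end Pool.Agent.W606.FSM
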