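import Pool.Agent.W606.FSMacro

set_option autoImplicit false

/-!
# Macroscopic reachability
-/

namespace Pool.Agent.W606.FSM

open Equiv

section reach

variable {b B : ℕ} (W : Words b B)

theorem one_ne (b m : ℕ) : (1 : ZMod (tapeL b m)) ≠ 0 := by
  intro h
  have h1 : ((1 : ℕ) : ZMod (tapeL b m)) = ((0 : ℕ) : ZMod (tapeL b m)) := by simpa using h
  have hN : 1 ≤ (m + 1) * (b + 1) := Nat.mul_pos (by omega) (by omega)
  have := natCast_inj_of_lt (L := tapeL b m) (by unfold tapeL; omega) (by unfold tapeL; omega) h1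
  omega

/-- The configurations of idle gadgets which can be reached from each other. -/
def Rch (m : ℕ) (hb : 3 ≤ b) (hL : 2 * (B - 1) * (2 * b + 2) ≤ (m + 1) * (b + 1))
    (V V' : Perm (ZMod (tapeL b m))) : Prop :=
  (FS (sys W m hb hL).XG (sys W m hb hL).YG).Reachable (lift V) (lift V')

variable {m : ℕ} (hb : 3 ≤ b) (hL : 2 * (B - 1) * (2 * b + 2) ≤ (m + 1) * (b + 1))

theorem rch_fwd {V : Perm (ZMod (tapeL b m))} {μ : Mac b m} (h : repF W m V μ) (n : ℕ) :
    ∃ V', Rch W m hb hL V V' ∧ repF W m V' ⟨μ.y0 + n, μ.s + n, μ.d⟩ := by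
  induction n with
  | zero =>
    refine ⟨V, SimpleGraph.Reachable.refl _, ?_⟩
    simpa using h
  | succ n ih =>
    obtain ⟨V', h1, h2⟩ := ih
    refine ⟨_, h1.trans (adj_hole (sys W m hb hL) (one_ne b m) V' _ (Or.inl h2.1)).reachable, ?_⟩
    have h3 := rep_fwd W h2
    simp only at h3
    rw [Nat.cast_add, Nat.cast_one, ← add_assoc, ← add_assoc]
    exact h3

theorem rch_align {V : Perm (ZMod (tapeL b m))} {μ : Mac b m} (h : repF W m V μ)
    (y0' : ZMod (tapeL b m)) (s' : ℕ) :
    ∃ V', Rch W m hb hL V V' ∧ repF W m V' ⟨y0', s', μ.d⟩ := by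
  set N := (m + 1) * (b + 1) with hN
  have hN1 : 1 ≤ N := Nat.mul_pos (by omega) (by omega)
  set A := (y0' - μ.y0).val with hA
  set u := s' + (N - 1) * (μ.s + A) with hu
  obtain ⟨V', h1, h2⟩ := rch_fwd W hb hL h (A + tapeL b m * u)
  refine ⟨V', h1, ?_⟩
  obtain ⟨h3, h4, h5⟩ := h2
  have e : μ.y0 + ((A + tapeL b m * u : ℕ) : ZMod (tapeL b m)) = y0' := by
    push_cast
    have : ((tapeL b m : ℕ) : ZMod (tapeL b m)) = 0 := ZMod.natCast_self _
    rw [hA, ZMod.natCast_zmod_val]
    have h6 : ((((m : ZMod (tapeL b m)) + 1) * ((b : ZMod (tapeL b m)) + 1) + 1)) = 0 := by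
      rw [← this]; push_cast; rfl
    rw [h6]
    ring
  simp only at h3 h4 h5
  rw [e] at h3 h5
  refine ⟨h3, h4, ?_⟩
  intro i hi
  show tyF W m (V' (y0' + 1 + (i : ZMod (tapeL b m)))) = word W m μ.d (s' + i)
  rw [h5 i hi]
  apply word_mod
  have e2 : μ.s + (A + tapeL b m * u) + i = s' + i + N * (μ.s + A + u) := by
    have : tapeL b m = N + 1 := rfl
    rw [this, hu]
    obtain ⟨N', hN'⟩ : ∃ N', N = N' + 1 := ⟨N - 1, by omega⟩
    rw [hN']
    simp only [Nat.add_sub_cancel]
    ring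
  rw [e2]
  show (s' + i + N * (μ.s + A + u)) % N = (s' + i) % N
  exact Nat.add_mul_mod_self_left _ _ _

/-- The window of the digit `k` shows the word of the rule. -/
theorem word_window {d : ℕ → ℕ} {k v : ℕ} (hk : k < m) (hv : v + 1 < B)
    (hdk : d k = v ∨ d k = v + 1) (hext : ∀ k1, k = k1 + 1 → d k1 = ext B v) :
    ∀ t < 2 * b + 2, t ≠ b + 1 + jj W v → t ≠ b + 1 + jj W v + 1 →
      word W m d ((b + 1) * k + 1 + t) = uw W (decide (k = 0)) v t := by
  intro t ht h1 h2
  obtain ⟨hj, hjs⟩ := jj_spec W hv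
  unfold uw
  by_cases c1 : t < b
  · rw [if_pos c1]
    by_cases hk0 : k = 0
    · subst hk0
      rw [word_Z W m rfl c1 (by simp)]
      simp
    · rw [word_W W m rfl c1 (by rw [Nat.mod_eq_of_lt (by omega)]; exact hk0), Nat.mod_eq_of_lt (by omega),
        hext (k - 1) (by omega)]
      simp [hk0]
  · rw [if_neg c1]
    by_cases c2 : t = b
    · rw [if_pos c2]
      apply word_hash
      rw [c2, show (b + 1) * k + 1 + b = (b + 1) * (k + 1) by ring, Nat.mul_mod_right]
    · rw [if_neg c2]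
      by_cases c3 : t = 2 * b + 1
      · rw [if_pos c3]
        apply word_hash
        rw [c3, show (b + 1) * k + 1 + (2 * b + 1) = (b + 1) * (k + 2) by ring, Nat.mul_mod_right]
      · rw [if_neg c3]
        have hx : (b + 1) * k + 1 + t = (b + 1) * (k + 1) + 1 + (t - (b + 1)) := by
          rw [show (b + 1) * (k + 1) = (b + 1) * k + (b + 1) by ring]
          omega
        rw [word_W W m hx (by omega) (by rw [Nat.mod_eq_of_lt (by omega)]; omega),
          Nat.mod_eq_of_lt (by omega), Nat.add_sub_cancel]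
        rcases hdk with hdk | hdk
        · rw [hdk]
        · rw [hdk, hjs _ (by omega), swap_apply_of_ne_of_ne (by omega) (by omega)]

theorem rch_rule (hm : 1 ≤ m) {V : Perm (ZMod (tapeL b m))} {μ : Mac b m} (h : repF W m V μ) {k v : ℕ}
    (hk : k < m) (hv : v + 1 < B) (hext : ∀ k1, k = k1 + 1 → μ.d k1 = ext B v) {d' : ℕ → ℕ}
    (hd' : ∀ k', k' ≠ k → d' k' = μ.d k')
    (hc : (μ.d k = v ∧ d' k = v + 1) ∨ (μ.d k = v + 1 ∧ d' k = v)) :
    ∃ V' y0' s', Rch W m hb hL V V' ∧ repF W m V' ⟨y0', s', d'⟩ := by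
  set ρ : Rl B := (decide (k = 0), ⟨v, by omega⟩) with hρ
  obtain ⟨V1, r1, h1⟩ := rch_align W hb hL h
    (((rlIdx ρ * (2 * b + 2) : ℕ) : ZMod (tapeL b m)) - 1) ((b + 1) * k + 1)
  set y0 : ZMod (tapeL b m) := ((rlIdx ρ * (2 * b + 2) : ℕ) : ZMod (tapeL b m)) - 1 with hy0
  have hNN : 2 * b + 2 ≤ (m + 1) * (b + 1) := by nlinarith
  have hcell : ∀ u, (cellN W ρ u : ZMod (tapeL b m)) = y0 + 1 + ((off W v u : ℕ) : ZMod (tapeL b m)) := by
    intro u
    unfold cellN
    rw [hy0, Nat.cast_add]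
    ring
  have hoff : ∀ u, off W v u < 2 * b + 2 := off_lt W hv
  have hne : ∀ u, V1 (cellN W ρ u : ZMod (tapeL b m)) ≠ 0 := by
    intro u he
    have h2 : V1 y0 = 0 := h1.1
    have h3 := V1.injective (he.trans h2.symm)
    rw [hcell, ← shift_top m y0, ← shift_top m y0] at h3
    have := hoff u
    have h4 := shift_top m y0
    have h5 : y0 + 1 + ((off W v u : ℕ) : ZMod (tapeL b m)) = y0 := by
      rw [← hcell]; exact V1.injective (he.trans h2.symm)
    have h6 := shift_inj (i := off W v u) (j := (m + 1) * (b + 1)) (by unfold tapeL; omega)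
      (by unfold tapeL; omega) (h5.trans h4.symm)
    omega
  have hww := word_window W (m := m) hk hv (d := μ.d) (by tauto) hext
  have hty : ∀ i, tyF W m (V1 (cellN W ρ (Sum.inl i) : ZMod (tapeL b m))) =
      uw W (decide (k = 0)) v (tt b (jj W v) i) := by
    intro i
    rw [hcell]
    have h3 := h1.2.2 (off W v (Sum.inl i)) (by have := hoff (Sum.inl i); omega)
    simp only at h3
    rw [h3]
    apply hww _ (hoff _)
    · intro he
      have := off_inj W (v := v) (u := Sum.inl i) (u' := Sum.inr false) he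
      simp at this
    · intro he
      have := off_inj W (v := v) (u := Sum.inl i) (u' := Sum.inr true) he
      simp at this
  have hreach := reach_rule (sys W m hb hL) (one_ne b m) V1 ρ (fun i => hne (Sum.inl i)) hty
    (hne (Sum.inr false)) (hne (Sum.inr true))
  have hsw := rep_swap W h1 (v := v) (i0 := 0) (q := k + 1) (k0 := k) hv (by omega)
    (by simp only; ring) (by rw [Nat.mod_eq_of_lt (by omega)]) hd' hc
  simp only [zero_add] at hsw
  have e1 : (sys W m hb hL).cell ρ (Sum.inr false) =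
      y0 + 1 + (((b + 1 + jj W v) : ℕ) : ZMod (tapeL b m)) := hcell (Sum.inr false)
  have e2 : (sys W m hb hL).cell ρ (Sum.inr true) =
      y0 + 1 + (((b + 1 + jj W v + 1) : ℕ) : ZMod (tapeL b m)) := hcell (Sum.inr true)
  rw [e1, e2] at hreach
  exact ⟨_, y0, _, r1.trans hreach, hsw⟩

/-- Every digit can be given every value, without changing the higher digits. -/
theorem rch_digit (hm : 1 ≤ m) (k : ℕ) : k < m → ∀ (V : Perm (ZMod (tapeL b m))) (μ : Mac b m),
    repF W m V μ → ∀ v < B, ∃ V' μ', Rch W m hb hL V V' ∧ repF W m V' μ' ∧ μ'.d k = v ∧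
      ∀ k' > k, μ'.d k' = μ.d k' := by
  induction k with
  | zero =>
    intro hk
    have up : ∀ n (V : Perm (ZMod (tapeL b m))) (μ : Mac b m), repF W m V μ → μ.d 0 + n < B →
        ∃ V' μ', Rch W m hb hL V V' ∧ repF W m V' μ' ∧ μ'.d 0 = μ.d 0 + n ∧ ∀ k' > 0, μ'.d k' = μ.d k' := by
      intro n
      induction n with
      | zero => intro V μ h _; exact ⟨V, μ, SimpleGraph.Reachable.refl _, h, rfl, fun _ _ => rfl⟩
      | succ n ih =>
        intro V μ h hn
        obtain ⟨V1, μ1, r1, h1, e1, e2⟩ := ih V μ h (by omega)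
        obtain ⟨V2, y2, s2, r2, h2⟩ := rch_rule W hb hL hm h1 (k := 0) (v := μ.d 0 + n) hk (by omega)
          (by intro k1 hk1; omega) (d' := Function.update μ1.d 0 (μ.d 0 + n + 1))
          (fun k' hk' => Function.update_of_ne hk' _ _) (Or.inl ⟨e1, by simp⟩)
        refine ⟨V2, _, r1.trans r2, h2, by simp; ring, ?_⟩
        intro k' hk'
        show Function.update μ1.d 0 _ k' = _
        rw [Function.update_of_ne (by omega), e2 k' hk']
    have down : ∀ n (V : Perm (ZMod (tapeL b m))) (μ : Mac b m), repF W m V μ → n ≤ μ.d 0 →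
        ∃ V' μ', Rch W m hb hL V V' ∧ repF W m V' μ' ∧ μ'.d 0 = μ.d 0 - n ∧ ∀ k' > 0, μ'.d k' = μ.d k' := by
      intro n
      induction n with
      | zero => intro V μ h _; exact ⟨V, μ, SimpleGraph.Reachable.refl _, h, rfl, fun _ _ => rfl⟩
      | succ n ih =>
        intro V μ h hn
        obtain ⟨V1, μ1, r1, h1, e1, e2⟩ := ih V μ h (by omega)
        have hB := h.2.1 0
        obtain ⟨V2, y2, s2, r2, h2⟩ := rch_rule W hb hL hm h1 (k := 0) (v := μ.d 0 - n - 1) hk (by omega)
          (by intro k1 hk1; omega) (d' := Function.update μ1.d 0 (μ.d 0 - n - 1))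
          (fun k' hk' => Function.update_of_ne hk' _ _) (Or.inr ⟨by omega, by simp⟩)
        refine ⟨V2, _, r1.trans r2, h2, by simp; omega, ?_⟩
        intro k' hk'
        show Function.update μ1.d 0 _ k' = _
        rw [Function.update_of_ne (by omega), e2 k' hk']
    intro V μ h v hv
    by_cases hc : μ.d 0 ≤ v
    · obtain ⟨V', μ', r, h', e1, e2⟩ := up (v - μ.d 0) V μ h (by omega)
      exact ⟨V', μ', r, h', by omega, e2⟩
    · obtain ⟨V', μ', r, h', e1, e2⟩ := down (μ.d 0 - v) V μ h (by omega)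
      exact ⟨V', μ', r, h', by omega, e2⟩
  | succ k IH =>
    intro hk
    have IH' := IH (by omega)
    have up : ∀ n (V : Perm (ZMod (tapeL b m))) (μ : Mac b m), repF W m V μ → μ.d (k + 1) + n < B →
        ∃ V' μ', Rch W m hb hL V V' ∧ repF W m V' μ' ∧ μ'.d (k + 1) = μ.d (k + 1) + n ∧
          ∀ k' > k + 1, μ'.d k' = μ.d k' := by
      intro n
      induction n with
      | zero => intro V μ h _; exact ⟨V, μ, SimpleGraph.Reachable.refl _, h, rfl, fun _ _ => rfl⟩
      | succ n ih =>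
        intro V μ h hn
        obtain ⟨V1, μ1, r1, h1, e1, e2⟩ := ih V μ h (by omega)
        obtain ⟨V3, μ3, r3, h3, e3, e4⟩ := IH' V1 μ1 h1 (ext B (μ.d (k + 1) + n)) (ext_lt (by omega) _)
        have e5 := e4 (k + 1) (by omega)
        obtain ⟨V2, y2, s2, r2, h2⟩ := rch_rule W hb hL hm h3 (k := k + 1) (v := μ.d (k + 1) + n) hk (by omega)
          (by intro k1 hk1; have : k1 = k := by omega
              subst this; exact e3) (d' := Function.update μ3.d (k + 1) (μ.d (k + 1) + n + 1))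
          (fun k' hk' => Function.update_of_ne hk' _ _) (Or.inl ⟨by omega, by simp⟩)
        refine ⟨V2, _, r1.trans (r3.trans r2), h2, by simp; ring, ?_⟩
        intro k' hk'
        show Function.update μ3.d (k + 1) _ k' = _
        rw [Function.update_of_ne (by omega), e4 k' (by omega), e2 k' hk']
    have down : ∀ n (V : Perm (ZMod (tapeL b m))) (μ : Mac b m), repF W m V μ → n ≤ μ.d (k + 1) →
        ∃ V' μ', Rch W m hb hL V V' ∧ repF W m V' μ' ∧ μ'.d (k + 1) = μ.d (k + 1) - n ∧
          ∀ k' > k + 1, μ'.d k' = μ.d k' := by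
      intro n
      induction n with
      | zero => intro V μ h _; exact ⟨V, μ, SimpleGraph.Reachable.refl _, h, rfl, fun _ _ => rfl⟩
      | succ n ih =>
        intro V μ h hn
        obtain ⟨V1, μ1, r1, h1, e1, e2⟩ := ih V μ h (by omega)
        have hB := h.2.1 (k + 1)
        obtain ⟨V3, μ3, r3, h3, e3, e4⟩ := IH' V1 μ1 h1 (ext B (μ.d (k + 1) - n - 1)) (ext_lt (by omega) _)
        have e5 := e4 (k + 1) (by omega)
        obtain ⟨V2, y2, s2, r2, h2⟩ := rch_rule W hb hL hm h3 (k := k + 1) (v := μ.d (k + 1) - n - 1) hk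
          (by omega)
          (by intro k1 hk1; have : k1 = k := by omega
              subst this; exact e3) (d' := Function.update μ3.d (k + 1) (μ.d (k + 1) - n - 1))
          (fun k' hk' => Function.update_of_ne hk' _ _) (Or.inr ⟨by omega, by simp⟩)
        refine ⟨V2, _, r1.trans (r3.trans r2), h2, by simp; omega, ?_⟩
        intro k' hk'
        show Function.update μ3.d (k + 1) _ k' = _
        rw [Function.update_of_ne (by omega), e4 k' (by omega), e2 k' hk']
    intro V μ h v hv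
    by_cases hc : μ.d (k + 1) ≤ v
    · obtain ⟨V', μ', r, h', e1, e2⟩ := up (v - μ.d (k + 1)) V μ h (by omega)
      exact ⟨V', μ', r, h', by omega, e2⟩
    · obtain ⟨V', μ', r, h', e1, e2⟩ := down (μ.d (k + 1) - v) V μ h (by omega)
      exact ⟨V', μ', r, h', by omega, e2⟩

end reach

end Pool.Agent.W606.FSM
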