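import Mathlib

/-!
Chains of rank `n - 1` in the Cayley tables of groups of odd order `n`: auxiliary results.
-/

set_option autoImplicit false

namespace Pool.Agent.W606.OddChain

open Subgroup

/-- A finite nonabelian group all of whose proper subgroups are abelian is not perfect. -/
theorem commutator_ne_top {G : Type*} [Group G] [Finite G] (hna : ∃ a b : G, a * b ≠ b * a)
    (hmin : ∀ K : Subgroup G, K ≠ ⊤ → ∀ a ∈ K, ∀ b ∈ K, a * b = b * a) :
    commutator G ≠ ⊤ := by
  obtain ⟨a, b, hab⟩ := hna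
  have hnt : Nontrivial G := ⟨a, b, fun h => hab (by rw [h])⟩
  by_cases hnil : ∀ (p : ℕ) (_hp : Fact p.Prime) (P : Sylow p G), (↑P : Subgroup G).Normal
  · have : Group.IsNilpotent G := (Group.isNilpotent_of_finite_tfae.out 3 0 rfl rfl).mp hnil
    exact (Group.IsSolvable.commutator_lt_top_of_nontrivial G).ne
  · push Not at hnil
    obtain ⟨p, hp, P, hP⟩ := hnil
    have hN : normalizer (P : Set G) ≠ ⊤ := fun h => hP (normalizer_eq_top_iff.mp h)
    have hle : normalizer (P : Set G) ≤ centralizer (P : Set G) := by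
      intro g hg
      rw [mem_centralizer_iff]
      intro h hh
      exact hmin _ hN h (le_normalizer hh) g hg
    intro htop
    have hcomm : ∀ x y : P, x * y = y * x := by
      intro x y
      apply Subtype.ext
      have := hle (le_normalizer y.2)
      rw [mem_centralizer_iff] at this
      exact this x x.2
    have hker : (MonoidHom.transferSylow P hle).ker = ⊤ := by
      rw [eq_top_iff, ← htop, commutator_def, commutator_le]
      intro g _ h _
      rw [MonoidHom.mem_ker, map_commutatorElement, commutatorElement_eq_one_iff_mul_comm]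
      exact hcomm _ _
    have hc := MonoidHom.ker_transferSylow_isComplement' P hle
    rw [hker] at hc
    have hbot : (P : Subgroup G) = ⊥ := by
      have := hc.disjoint
      rwa [top_disjoint] at this
    apply hP
    rw [hbot]
    infer_instance

/-- Any finite nonabelian group has a nonabelian subgroup all of whose proper subgroups are
abelian. -/
theorem exists_min {G : Type*} [Group G] [Finite G] (hna : ∃ a b : G, a * b ≠ b * a) :
    ∃ H : Subgroup G, (∃ a b : H, a * b ≠ b * a) ∧
      ∀ K : Subgroup H, K ≠ ⊤ → ∀ a ∈ K, ∀ b ∈ K, a * b = b * a := by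
  obtain ⟨H, hH⟩ := (Set.toFinite {H : Subgroup G | ∃ a ∈ H, ∃ b ∈ H, a * b ≠ b * a}).exists_minimal
    (by
      obtain ⟨a, b, hab⟩ := hna
      exact ⟨⊤, a, trivial, b, trivial, hab⟩)
  refine ⟨H, ?_, ?_⟩
  · obtain ⟨a, ha, b, hb, hab⟩ := hH.prop
    exact ⟨⟨a, ha⟩, ⟨b, hb⟩, fun h => hab (congrArg Subtype.val h)⟩
  · intro K hK a ha b hb
    by_contra hab
    have h1 : K.map H.subtype ∈ {H : Subgroup G | ∃ a ∈ H, ∃ b ∈ H, a * b ≠ b * a} := by
      refine ⟨a, ⟨a, ha, rfl⟩, b, ⟨b, hb, rfl⟩, fun h => hab (Subtype.ext h)⟩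
    have h2 := hH.le_of_le h1 (map_subtype_le K)
    apply hK
    rw [eq_top_iff]
    intro x _
    obtain ⟨y, hy, hyx⟩ := h2 x.2
    have : y = x := Subtype.ext hyx
    rwa [← this]

/-- The near-trade lemma. -/
theorem near_trade {G : Type*} [Group G] [Finite G]
    (hsq : ∀ x y : G, x * x = y * y → x = y) (N : Subgroup G) [N.Normal]
    (hsqN : ∀ x y : G ⧸ N, x * x = y * y → x = y)
    (r c : G ⧸ N → G) (hr : ∀ C, (r C : G ⧸ N) = C) (hc : ∀ C, (c C : G ⧸ N) = C)
    (σ τ : Equiv.Perm (G ⧸ N)) (C0 : G ⧸ N)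
    (hrel : ∀ C, C ≠ C0 → r C * c (σ C) = r (τ C) * c (τ C))
    (hfail : r C0 * c (σ C0) ≠ r (τ C0) * c (τ C0)) :
    ∃ (θ : Equiv.Perm G) (u : G), (Set.range (fun x => x * θ x)) = {u}ᶜ := by
  classical
  -- the base transversal
  let q : G → G ⧸ N := fun y => (y : G ⧸ N)
  have hqm : ∀ x y : G, q (x * y) = q x * q y := fun x y => rfl
  have hqi : ∀ x : G, q x⁻¹ = (q x)⁻¹ := fun x => rfl
  have hr' : ∀ C, q (r C) = C := hr
  have hc' : ∀ C, q (c C) = C := hc
  let θ0 : G → G := fun y => (r (q y))⁻¹ * y * c (q y)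
  have hqθ0 : ∀ y, q (θ0 y) = q y := by
    intro y
    show q ((r (q y))⁻¹ * y * c (q y)) = q y
    rw [hqm, hqm, hqi, hr', hc']
    group
  let f0 : G → G := fun y => y * θ0 y
  have hf0 : Function.Injective f0 := by
    intro x y hxy
    have h1 : q (x * θ0 x) = q (y * θ0 y) := congrArg q hxy
    rw [hqm x (θ0 x), hqm y (θ0 y), hqθ0, hqθ0] at h1
    have h2 : q x = q y := hsqN _ _ h1
    have h3 : x * ((r (q x))⁻¹ * x * c (q x)) = y * ((r (q y))⁻¹ * y * c (q y)) := hxy
    rw [h2] at h3
    have h4 : ((r (q y))⁻¹ * x) * ((r (q y))⁻¹ * x) = ((r (q y))⁻¹ * y) * ((r (q y))⁻¹ * y) := by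
      have h5 : ((r (q y))⁻¹ * x) * ((r (q y))⁻¹ * x) =
        (r (q y))⁻¹ * (x * ((r (q y))⁻¹ * x * c (q y))) * (c (q y))⁻¹ := by group
      rw [h5, h3]
      group
    exact mul_left_cancel (hsq _ _ h4)
  have hf0s : Function.Surjective f0 := Finite.surjective_of_injective hf0
  let θf : G → G := fun y => if y = r (q y) then c (σ (q y)) else θ0 y
  have hθf : Function.Injective θf := by
    intro x y hxy
    by_cases hx : x = r (q x) <;> by_cases hy : y = r (q y)
    · simp only [θf] at hxy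
      rw [if_pos hx, if_pos hy] at hxy
      have h1 := congrArg q hxy
      rw [hc', hc'] at h1
      have h2 := σ.injective h1
      rw [hx, hy, h2]
    · simp only [θf] at hxy
      rw [if_pos hx, if_neg hy] at hxy
      have h1 := congrArg q hxy
      rw [hc', hqθ0] at h1
      rw [h1] at hxy
      have h2 : c (q y) = (r (q y))⁻¹ * y * c (q y) := hxy
      exfalso
      apply hy
      have h3 : (1 : G) = (r (q y))⁻¹ * y := mul_right_cancel (b := c (q y)) (by rw [one_mul]; exact h2)
      rw [eq_comm, inv_mul_eq_one] at h3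
      exact h3.symm
    · simp only [θf] at hxy
      rw [if_neg hx, if_pos hy] at hxy
      have h1 := congrArg q hxy
      rw [hc', hqθ0] at h1
      rw [← h1] at hxy
      have h2 : (r (q x))⁻¹ * x * c (q x) = c (q x) := hxy
      exfalso
      apply hx
      have h3 : (r (q x))⁻¹ * x = 1 := mul_right_cancel (b := c (q x)) (by rw [one_mul]; exact h2)
      rw [inv_mul_eq_one] at h3
      exact h3.symm
    · simp only [θf] at hxy
      rw [if_neg hx, if_neg hy] at hxy
      have h1 := congrArg q hxy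
      rw [hqθ0, hqθ0] at h1
      have h2 : (r (q x))⁻¹ * x * c (q x) = (r (q y))⁻¹ * y * c (q y) := hxy
      rw [h1] at h2
      exact mul_left_cancel (mul_right_cancel h2)
  let θ : Equiv.Perm G := Equiv.ofBijective θf ⟨hθf, Finite.surjective_of_injective hθf⟩
  have hθ : ∀ y, θ y = θf y := fun y => rfl
  have hf0r : ∀ C, f0 (r C) = r C * c C := by
    intro C
    show r C * ((r (q (r C)))⁻¹ * r C * c (q (r C))) = r C * c C
    rw [hr']
    group
  have hrC : ∀ C, r C = r (q (r C)) := fun C => by rw [hr']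
  refine ⟨θ, r (τ C0) * c (τ C0), ?_⟩
  ext g
  simp only [Set.mem_range, Set.mem_compl_iff, Set.mem_singleton_iff]
  constructor
  · rintro ⟨y, rfl⟩ hgu
    rw [hθ] at hgu
    by_cases hy : y = r (q y)
    · simp only [θf] at hgu
      rw [if_pos hy] at hgu
      by_cases hC : q y = C0
      · rw [hy, hC] at hgu
        rw [hr'] at hgu
        exact hfail hgu
      · have h1 := hrel _ hC
        rw [← hy] at h1
        rw [h1, ← hf0r, ← hf0r] at hgu
        have h2 := congrArg q (hf0 hgu)
        rw [hr', hr'] at h2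
        exact hC (τ.injective h2)
    · simp only [θf] at hgu
      rw [if_neg hy, ← hf0r] at hgu
      have h1 : y = r (τ C0) := hf0 hgu
      apply hy
      rw [h1]
      exact hrC _
  · intro hgu
    obtain ⟨y, rfl⟩ := hf0s g
    by_cases hy : y = r (q y)
    · have h1 : f0 y = r (q y) * c (q y) := by
        rw [← hf0r, ← hy]
      obtain ⟨C, hC⟩ := τ.surjective (q y)
      have hne : C ≠ C0 := by
        rintro rfl
        apply hgu
        rw [h1, hC]
      refine ⟨r C, ?_⟩
      rw [hθ]
      simp only [θf]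
      rw [if_pos (hrC C), hr', h1, hrel C hne, hC]
    · refine ⟨y, ?_⟩
      rw [hθ]
      simp only [θf]
      rw [if_neg hy]

/-- In a finite group of odd order every element is a power of its square. -/
theorem sq_pow {G : Type*} [Group G] [Finite G] (hodd : Odd (Nat.card G)) (x : G) :
    (x * x) ^ ((Nat.card G + 1) / 2) = x := by
  obtain ⟨m, hm⟩ := hodd
  have h1 : (Nat.card G + 1) / 2 = m + 1 := by omega
  rw [h1, ← pow_two, ← pow_mul, show 2 * (m + 1) = Nat.card G + 1 by omega, pow_succ,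
    pow_card_eq_one', one_mul]

theorem sq_inj {G : Type*} [Group G] [Finite G] (hodd : Odd (Nat.card G)) (x y : G)
    (h : x * x = y * y) : x = y := by
  rw [← sq_pow hodd x, ← sq_pow hodd y, h]

/-- The construction in a group with an abelian normal subgroup and cyclic quotient. -/
theorem cyclic_by_abelian {G : Type*} [Group G] [Finite G] (hodd : Odd (Nat.card G))
    (hna : ∃ a b : G, a * b ≠ b * a) (N : Subgroup G) [N.Normal]
    (hN : ∀ a ∈ N, ∀ b ∈ N, a * b = b * a) (w : G) (hw : N ⊔ zpowers w = ⊤) :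
    ∃ (θ : Equiv.Perm G) (u : G), (Set.range (fun x => x * θ x)) = {u}ᶜ := by
  classical
  -- an element of `N` that does not commute with `w`
  have hgen : ∀ g : G, ∃ a ∈ N, ∃ z : ℤ, g = a * w ^ z := by
    intro g
    have hg : g ∈ N ⊔ zpowers w := by rw [hw]; trivial
    rw [mem_sup_of_normal_left] at hg
    obtain ⟨a, ha, b, hb, hab⟩ := hg
    obtain ⟨z, rfl⟩ := mem_zpowers_iff.mp hb
    exact ⟨a, ha, z, hab.symm⟩
  have hex : ∃ a ∈ N, ¬ Commute a w := by
    by_contra hcon
    push Not at hcon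
    obtain ⟨g, h, hgh⟩ := hna
    apply hgh
    obtain ⟨a, ha, y, rfl⟩ := hgen g
    obtain ⟨b, hb, z, rfl⟩ := hgen h
    have h1 : Commute a b := hN a ha b hb
    have h2 : Commute a (w ^ z) := (hcon a ha).zpow_right z
    have h3 : Commute (w ^ y) b := ((hcon b hb).zpow_right y).symm
    have h4 : Commute (w ^ y) (w ^ z) := (Commute.refl w).zpow_zpow y z
    exact ((h1.mul_right h2).mul_left (h3.mul_right h4))
  obtain ⟨a, ha, haw⟩ := hex
  let q : G → G ⧸ N := fun y => (y : G ⧸ N)
  have hqm : ∀ x y : G, q (x * y) = q x * q y := fun x y => rfl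
  have hqi : ∀ x : G, q x⁻¹ = (q x)⁻¹ := fun x => rfl
  have hqp : ∀ (x : G) (n : ℕ), q (x ^ n) = (q x) ^ n := fun x n => rfl
  have hqa : q a = 1 := (QuotientGroup.eq_one_iff a).mpr ha
  have hcardN : Odd (Nat.card (G ⧸ N)) := by
    have h1 : Nat.card (G ⧸ N) ∣ Nat.card G := N.card_quotient_dvd_card
    exact Odd.of_dvd_nat hodd h1
  set k := orderOf (q w) with hk
  have hkodd : Odd k := by
    have : k ∣ Nat.card (G ⧸ N) := orderOf_dvd_natCard _
    exact Odd.of_dvd_nat hcardN this
  have hk1 : k ≠ 1 := by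
    intro h
    rw [hk, orderOf_eq_one_iff] at h
    have h2 : w ∈ N := (QuotientGroup.eq_one_iff w).mp h
    exact haw (hN a ha w h2)
  have hkpos : 0 < k := orderOf_pos _
  have hk3 : 3 ≤ k := by
    obtain ⟨m, hm⟩ := hkodd
    omega
  have hwk : (q w) ^ k = 1 := pow_orderOf_eq_one _
  have hidx : ∀ C : G ⧸ N, ∃ i < k, (q w) ^ i = C := by
    intro C
    obtain ⟨g, rfl⟩ := QuotientGroup.mk_surjective C
    obtain ⟨b, hb, z, rfl⟩ := hgen g
    have h1 : ((b * w ^ z : G) : G ⧸ N) = (q w) ^ z := by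
      have : ((b * w ^ z : G) : G ⧸ N) = (b : G ⧸ N) * (q w) ^ z := rfl
      rw [this, (QuotientGroup.eq_one_iff b).mpr hb, one_mul]
    rw [h1]
    have h2 : (q w) ^ z ∈ zpowers (q w) := zpow_mem_zpowers _ _
    rw [(isOfFinOrder_of_finite (q w)).mem_zpowers_iff_mem_range_orderOf] at h2
    obtain ⟨i, hi, hi2⟩ := Finset.mem_image.mp h2
    exact ⟨i, Finset.mem_range.mp hi, hi2⟩
  choose idx hlt hpow using hidx
  have huniq : ∀ (C : G ⧸ N) (i : ℕ), i < k → (q w) ^ i = C → idx C = i := by
    intro C i hi hC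
    exact pow_injOn_Iio_orderOf (hlt C) hi (by simp only; rw [hpow C, hC])
  -- the sections
  let r : G ⧸ N → G := fun C => if idx C = 0 then a else w ^ idx C
  let c' : ℕ → G := fun m => if m = k - 1 then w else w ^ m * a⁻¹ * w ^ 2
  let c : G ⧸ N → G := fun C => c' (idx (C * ((q w) ^ 2)⁻¹))
  have hr : ∀ C, q (r C) = C := by
    intro C
    simp only [r]
    split_ifs with h
    · rw [hqa]
      have := hpow C
      rw [h, pow_zero] at this
      exact this
    · rw [hqp, hpow]
  have hc : ∀ C, q (c C) = C := by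
    intro C
    simp only [c, c']
    have h1 := hpow (C * ((q w) ^ 2)⁻¹)
    split_ifs with h
    · rw [h] at h1
      have h2 : C = (q w) ^ (k - 1) * (q w) ^ 2 := by rw [h1]; group
      rw [h2, ← pow_add, show k - 1 + 2 = k + 1 by omega, pow_succ, hwk, one_mul]
    · rw [hqm, hqm, hqp, hqp, hqi, hqa, h1]
      group
  let σ : Equiv.Perm (G ⧸ N) := Equiv.mulRight ((q w) ^ 2)
  let τ : Equiv.Perm (G ⧸ N) := Equiv.mulRight (q w)
  have hσ : ∀ C, c (σ C) = c' (idx C) := by
    intro C
    simp only [c, σ, Equiv.coe_mulRight]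
    rw [mul_inv_cancel_right]
  have hcτ : ∀ C, c (τ C) = if idx C = 0 then w else w ^ (idx C - 1) * a⁻¹ * w ^ 2 := by
    intro C
    have h1 : τ C * ((q w) ^ 2)⁻¹ = C * (q w)⁻¹ := by
      simp only [τ, Equiv.coe_mulRight]
      group
    simp only [c]
    rw [h1]
    have hC := hpow C
    split_ifs with h
    · have h2 : idx (C * (q w)⁻¹) = k - 1 := by
        apply huniq _ _ (by omega)
        rw [h, pow_zero] at hC
        rw [← hC, one_mul, eq_inv_iff_mul_eq_one, ← pow_succ, show k - 1 + 1 = k by omega, hwk]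
      simp only [c']
      rw [h2, if_pos rfl]
    · have h2 : idx (C * (q w)⁻¹) = idx C - 1 := by
        apply huniq _ _ (by have := hlt C; omega)
        rw [eq_mul_inv_iff_mul_eq, ← pow_succ, show idx C - 1 + 1 = idx C by omega, hC]
      simp only [c']
      rw [h2, if_neg (by have := hlt C; omega)]
  have hrτ : ∀ C, r (τ C) = if idx C = k - 1 then a else w ^ (idx C + 1) := by
    intro C
    have hC := hpow C
    split_ifs with h
    · have h2 : idx (τ C) = 0 := by
        apply huniq _ _ hkpos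
        simp only [τ, Equiv.coe_mulRight]
        rw [pow_zero, ← hC, h, ← pow_succ, show k - 1 + 1 = k by omega, hwk]
      simp only [r]
      rw [if_pos h2]
    · have h2 : idx (τ C) = idx C + 1 := by
        apply huniq _ _ (by have := hlt C; omega)
        simp only [τ, Equiv.coe_mulRight]
        rw [pow_succ, hC]
      simp only [r]
      rw [h2, if_neg (by omega)]
  refine near_trade (sq_inj hodd) N (sq_inj hcardN) r c hr hc σ τ ((q w) ^ (k - 1)) ?_ ?_
  · intro C hC
    have hi : idx C ≠ k - 1 := by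
      intro h
      apply hC
      rw [← hpow C, h]
    rw [hσ, hcτ, hrτ, if_neg hi]
    simp only [r, c']
    rw [if_neg hi]
    by_cases h0 : idx C = 0
    · rw [if_pos h0, if_pos h0, h0]
      group
    · rw [if_neg h0, if_neg h0]
      have h1 : w ^ (idx C + 1) * (w ^ (idx C - 1) * a⁻¹ * w ^ 2) =
          (w ^ (idx C + 1) * w ^ (idx C - 1)) * a⁻¹ * w ^ 2 := by group
      have h2 : w ^ idx C * (w ^ idx C * a⁻¹ * w ^ 2) =
          (w ^ idx C * w ^ idx C) * a⁻¹ * w ^ 2 := by group
      rw [h1, h2, ← pow_add, ← pow_add, show idx C + 1 + (idx C - 1) = idx C + idx C by omega]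
  · have hi : idx ((q w) ^ (k - 1)) = k - 1 := huniq _ _ (by omega) rfl
    rw [hσ, hcτ, hrτ, hi, if_pos rfl]
    simp only [r, c']
    rw [if_pos trivial, if_neg (by omega), if_neg (by omega)]
    intro h
    rw [hi] at h
    -- `a` commutes with `w ^ (k - 2)`
    have h1 : a * w ^ (k - 2) = w ^ (k - 2) * a := by
      have h2 : w ^ (k - 1) * w = w ^ (k - 2) * w ^ 2 := by
        rw [← pow_succ, ← pow_add, show k - 1 + 1 = k - 2 + 2 by omega]
      rw [h2, show k - 1 - 1 = k - 2 by omega] at h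
      have h3 : w ^ (k - 2) * w ^ 2 = (a * w ^ (k - 2) * a⁻¹) * w ^ 2 := by rw [h]; group
      have h4 := mul_right_cancel h3
      rw [eq_mul_inv_iff_mul_eq] at h4
      exact h4.symm
    have h2 : Commute a (w ^ (k - 2)) := h1
    have hwkN : w ^ k ∈ N := (QuotientGroup.eq_one_iff _).mp hwk
    have h3 : Commute a (w ^ k) := hN a ha _ hwkN
    have h4 : Commute a (w ^ 2) := by
      have h5 : w ^ 2 = (w ^ (k - 2))⁻¹ * w ^ k := by
        rw [eq_inv_mul_iff_mul_eq, ← pow_add, show k - 2 + 2 = k by omega]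
      rw [h5]
      exact h2.inv_right.mul_right h3
    apply haw
    have h5 := h4.pow_right ((Nat.card G + 1) / 2)
    rw [pow_two, sq_pow hodd w] at h5
    exact h5

/-- Every nonabelian group of odd order has a chain whose symbols are all elements but one. -/
theorem nonabelian {G : Type*} [Group G] [Finite G] (hodd : Odd (Nat.card G))
    (hna : ∃ a b : G, a * b ≠ b * a) :
    ∃ (θ : Equiv.Perm G) (u : G), (Set.range (fun x => x * θ x)) = {u}ᶜ := by
  classical
  obtain ⟨H, hH, hmin⟩ := exists_min hna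
  have hHodd : Odd (Nat.card H) := Odd.of_dvd_nat hodd H.card_subgroup_dvd_card
  have hperf := commutator_ne_top hH hmin
  obtain ⟨M, hM, hcM⟩ := (eq_top_or_exists_le_coatom (commutator H)).resolve_left hperf
  have hMn : M.Normal := Subgroup.Normal.of_commutator_le _ hcM
  obtain ⟨w, hw⟩ : ∃ w : H, w ∉ M := by
    by_contra hcon
    push Not at hcon
    exact hM.1 (eq_top_iff.mpr fun x _ => hcon x)
  have hsup : M ⊔ zpowers w = ⊤ := by
    apply hM.2
    refine lt_of_le_of_ne le_sup_left ?_
    intro h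
    apply hw
    rw [h]
    exact mem_sup_right (mem_zpowers w)
  obtain ⟨θ, u, hθ⟩ := cyclic_by_abelian hHodd hH M (hmin M hM.1) w hsup
  refine ⟨Equiv.Perm.ofSubtype θ, u, ?_⟩
  ext g
  simp only [Set.mem_range, Set.mem_compl_iff, Set.mem_singleton_iff]
  have hθ' : ∀ x : H, (∃ y, y * θ y = x) ↔ x ≠ u := by
    intro x
    have : x ∈ Set.range (fun x => x * θ x) ↔ x ∈ ({u}ᶜ : Set H) := by rw [hθ]
    simpa using this
  constructor
  · rintro ⟨y, rfl⟩ hyu
    by_cases hy : y ∈ H
    · rw [Equiv.Perm.ofSubtype_apply_of_mem θ hy] at hyu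
      have h1 := (hθ' (⟨y, hy⟩ * θ ⟨y, hy⟩)).mp ⟨⟨y, hy⟩, rfl⟩
      apply h1
      apply Subtype.ext
      exact hyu
    · rw [Equiv.Perm.ofSubtype_apply_of_not_mem θ hy] at hyu
      apply hy
      rw [← sq_pow hodd y, hyu]
      exact H.pow_mem u.2 _
  · intro hgu
    by_cases hg : g ∈ H
    · obtain ⟨y, hy⟩ := (hθ' ⟨g, hg⟩).mpr (fun h => hgu (congrArg Subtype.val h))
      refine ⟨y, ?_⟩
      rw [Equiv.Perm.ofSubtype_apply_of_mem θ y.2]
      exact congrArg Subtype.val hy
    · have hy : g ^ ((Nat.card G + 1) / 2) ∉ H := by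
        intro h
        apply hg
        have h1 := sq_pow hodd g
        rw [(Commute.refl g).mul_pow] at h1
        rw [← h1]
        exact H.mul_mem h h
      refine ⟨g ^ ((Nat.card G + 1) / 2), ?_⟩
      rw [Equiv.Perm.ofSubtype_apply_of_not_mem θ hy]
      have h1 := sq_pow hodd g
      rwa [← pow_two, ← pow_mul, mul_comm, pow_mul, pow_two] at h1

end Pool.Agent.W606.OddChain
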